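import Mathlib
set_option autoImplicit false

/-! Averaging a Toeplitz kernel over the rotations of the nodes of the 4-adic tree. -/

namespace Pool.Agent.Helper45.Umd

open Finset

/-- leaves of the 4-adic tree of height `n` -/
def D : ℕ → Type
  | 0 => Unit
  | n + 1 => Fin 4 × D n

instance instFintypeD : ∀ n, Fintype (D n)
  | 0 => inferInstanceAs (Fintype Unit)
  | n + 1 => @instFintypeProd _ _ _ (instFintypeD n)

instance instNonemptyD : ∀ n, Nonempty (D n)
  | 0 => inferInstanceAs (Nonempty Unit)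
  | n + 1 => @instNonemptyProd _ _ _ (instNonemptyD n)

theorem card_D : ∀ n, Fintype.card (D n) = 4 ^ n
  | 0 => rfl
  | n + 1 => by
      have h : Fintype.card (D (n + 1)) = Fintype.card (Fin 4) * Fintype.card (D n) :=
        Fintype.card_prod (Fin 4) (D n)
      rw [h, card_D n, Fintype.card_fin, pow_succ]; ring

theorem sum_D_succ {M : Type*} [AddCommMonoid M] (n : ℕ) (f : D (n + 1) → M) :
    ∑ w : D (n + 1), f w = ∑ a : Fin 4, ∑ w : D n, f (a, w) :=
  Fintype.sum_prod_type (fun p : Fin 4 × D n => f p)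

/-- kernel `K` is bounded on `ℓ²(ι; Y)` with squared norm at most `C` -/
def Bdd (Y : Type*) [NormedAddCommGroup Y] [NormedSpace ℝ Y] {ι : Type*} [Fintype ι]
    (K : ι → ι → ℝ) (C : ℝ) : Prop :=
  ∀ F : ι → Y, ∑ i, ‖∑ j, K i j • F j‖ ^ 2 ≤ C * ∑ j, ‖F j‖ ^ 2

section basic
variable {Y : Type*} [NormedAddCommGroup Y] [NormedSpace ℝ Y]

theorem Bdd.reindex {ι κ : Type*} [Fintype ι] [Fintype κ] {K : κ → κ → ℝ} {C : ℝ}
    (h : Bdd Y K C) (e : ι ≃ κ) : Bdd Y (fun i j => K (e i) (e j)) C := by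
  intro F
  have := h (fun k => F (e.symm k))
  rw [← Equiv.sum_comp e, ← Equiv.sum_comp e (fun k => ‖F (e.symm k)‖ ^ 2)] at this
  simp only [Equiv.symm_apply_apply] at this
  refine le_trans (le_of_eq ?_) this
  refine Finset.sum_congr rfl fun i _ => ?_
  congr 2
  rw [← Equiv.sum_comp e (fun j => K (e i) j • F (e.symm j))]
  simp

theorem norm_avg_sq_le {R : Type*} [Fintype R] [Nonempty R] (v : R → Y) :
    ‖((Fintype.card R : ℝ)⁻¹) • ∑ r, v r‖ ^ 2 ≤ (Fintype.card R : ℝ)⁻¹ * ∑ r, ‖v r‖ ^ 2 := by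
  have hc : (0 : ℝ) < Fintype.card R := by exact_mod_cast Fintype.card_pos
  rw [norm_smul, mul_pow, Real.norm_of_nonneg (by positivity)]
  have h1 : ‖∑ r, v r‖ ^ 2 ≤ (Fintype.card R : ℝ) * ∑ r, ‖v r‖ ^ 2 := by
    calc ‖∑ r, v r‖ ^ 2 ≤ (∑ r, ‖v r‖) ^ 2 := by
          gcongr; exact norm_sum_le _ _
      _ ≤ _ := by
          have := sq_sum_le_card_mul_sum_sq (s := (Finset.univ : Finset R)) (f := fun r => ‖v r‖)
          simpa using this
  calc (Fintype.card R : ℝ)⁻¹ ^ 2 * ‖∑ r, v r‖ ^ 2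
      ≤ (Fintype.card R : ℝ)⁻¹ ^ 2 * ((Fintype.card R : ℝ) * ∑ r, ‖v r‖ ^ 2) := by gcongr
    _ = _ := by field_simp

theorem Bdd.avg {ι R : Type*} [Fintype ι] [Fintype R] [Nonempty R] {K : R → ι → ι → ℝ} {C : ℝ}
    (h : ∀ r, Bdd Y (K r) C) :
    Bdd Y (fun i j => (Fintype.card R : ℝ)⁻¹ * ∑ r, K r i j) C := by
  intro F
  have hc : (0 : ℝ) < Fintype.card R := by exact_mod_cast Fintype.card_pos
  have key : ∀ i, ∑ j, ((Fintype.card R : ℝ)⁻¹ * ∑ r, K r i j) • F j
      = ((Fintype.card R : ℝ)⁻¹) • ∑ r, ∑ j, K r i j • F j := by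
    intro i
    rw [Finset.sum_comm, Finset.smul_sum]
    refine Finset.sum_congr rfl fun j _ => ?_
    rw [mul_smul, Finset.sum_smul]
  calc ∑ i, ‖∑ j, ((Fintype.card R : ℝ)⁻¹ * ∑ r, K r i j) • F j‖ ^ 2
      ≤ ∑ i, (Fintype.card R : ℝ)⁻¹ * ∑ r, ‖∑ j, K r i j • F j‖ ^ 2 := by
        refine Finset.sum_le_sum fun i _ => ?_
        rw [key]
        exact norm_avg_sq_le _
    _ = (Fintype.card R : ℝ)⁻¹ * ∑ r, ∑ i, ‖∑ j, K r i j • F j‖ ^ 2 := by
        rw [← Finset.mul_sum, Finset.sum_comm]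
    _ ≤ (Fintype.card R : ℝ)⁻¹ * ∑ r : R, C * ∑ j, ‖F j‖ ^ 2 := by
        gcongr with r
        exact h r F
    _ = C * ∑ j, ‖F j‖ ^ 2 := by
        rw [Finset.sum_const, Finset.card_univ, nsmul_eq_mul]
        field_simp

end basic

/-- averages over all functions `r : I → Fin 4` of a function of `r i` -/
theorem avg_fun_one {I : Type*} [Fintype I] [DecidableEq I] (i : I) (f : Fin 4 → ℝ) :
    (Fintype.card (I → Fin 4) : ℝ)⁻¹ * ∑ r : I → Fin 4, f (r i) = 1 / 4 * ∑ s, f s := by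
  have hc : (0 : ℝ) < Fintype.card (I → Fin 4) := by exact_mod_cast Fintype.card_pos
  have h1 : ∀ s : Fin 4, ∑ r : I → Fin 4, f (r i + s) = ∑ r : I → Fin 4, f (r i) := by
    intro s
    rw [← Equiv.sum_comp (Equiv.addRight (Pi.single i s : I → Fin 4)) (fun r => f (r i))]
    refine Finset.sum_congr rfl fun r _ => ?_
    simp
  have h2 : ∑ s : Fin 4, ∑ r : I → Fin 4, f (r i + s) = 4 * ∑ r : I → Fin 4, f (r i) := by
    rw [Finset.sum_congr rfl fun s _ => h1 s]
    simp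
  have h3 : ∑ s : Fin 4, ∑ r : I → Fin 4, f (r i + s)
      = Fintype.card (I → Fin 4) * ∑ s, f s := by
    rw [Finset.sum_comm]
    have : ∀ r : I → Fin 4, ∑ s : Fin 4, f (r i + s) = ∑ s, f s := fun r =>
      Equiv.sum_comp (Equiv.addLeft (r i)) f
    rw [Finset.sum_congr rfl fun r _ => this r, Finset.sum_const, Finset.card_univ, nsmul_eq_mul]
  have h4 : (4 : ℝ) * ∑ r : I → Fin 4, f (r i) = Fintype.card (I → Fin 4) * ∑ s, f s := by
    rw [← h2, h3]
  field_simp
  linarith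

theorem avg_fun_two {I : Type*} [Fintype I] [DecidableEq I] {i i' : I} (hi : i ≠ i')
    (f : Fin 4 → Fin 4 → ℝ) :
    (Fintype.card (I → Fin 4) : ℝ)⁻¹ * ∑ r : I → Fin 4, f (r i) (r i')
      = 1 / 16 * ∑ s, ∑ s', f s s' := by
  have hc : (0 : ℝ) < Fintype.card (I → Fin 4) := by exact_mod_cast Fintype.card_pos
  have h1 : ∀ s : Fin 4, ∑ r : I → Fin 4, f (r i) (r i' + s)
      = ∑ r : I → Fin 4, f (r i) (r i') := by
    intro s
    rw [← Equiv.sum_comp (Equiv.addRight (Pi.single i' s : I → Fin 4)) (fun r => f (r i) (r i'))]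
    refine Finset.sum_congr rfl fun r _ => ?_
    simp [hi]
  have h2 : ∑ s : Fin 4, ∑ r : I → Fin 4, f (r i) (r i' + s)
      = 4 * ∑ r : I → Fin 4, f (r i) (r i') := by
    rw [Finset.sum_congr rfl fun s _ => h1 s]
    simp
  have h3 : ∑ s : Fin 4, ∑ r : I → Fin 4, f (r i) (r i' + s)
      = ∑ r : I → Fin 4, ∑ s, f (r i) s := by
    rw [Finset.sum_comm]
    have : ∀ r : I → Fin 4, ∑ s : Fin 4, f (r i) (r i' + s) = ∑ s, f (r i) s := fun r =>
      Equiv.sum_comp (Equiv.addLeft (r i')) (f (r i))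
    rw [Finset.sum_congr rfl fun r _ => this r]
  have h4 := avg_fun_one i (fun a => ∑ s, f a s)
  have h5 : (4 : ℝ) * ∑ r : I → Fin 4, f (r i) (r i') = ∑ r : I → Fin 4, ∑ s, f (r i) s := by
    rw [← h2, h3]
  have h6 : ∑ r : I → Fin 4, ∑ s, f (r i) s
      = Fintype.card (I → Fin 4) * (1 / 4 * ∑ s, ∑ s', f s s') := by
    rw [← h4]; field_simp
  rw [h6] at h5
  field_simp
  linarith

/-- one averaging step -/
theorem Bdd.step {Y : Type*} [NormedAddCommGroup Y] [NormedSpace ℝ Y]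
    {I J : Type*} [Fintype I] [DecidableEq I] [Fintype J] {C : ℝ}
    {K : ((I × Fin 4) × J) → ((I × Fin 4) × J) → ℝ} (h : Bdd Y K C) :
    Bdd Y (fun p q : I × (Fin 4 × J) =>
      if p.1 = q.1 then 1 / 4 * ∑ s : Fin 4, K ((p.1, p.2.1 + s), p.2.2) ((q.1, q.2.1 + s), q.2.2)
      else 1 / 16 * ∑ s : Fin 4, ∑ s' : Fin 4, K ((p.1, s), p.2.2) ((q.1, s'), q.2.2)) C := by
  let e : (I → Fin 4) → (I × (Fin 4 × J)) ≃ ((I × Fin 4) × J) := fun r =>
    { toFun := fun p => ((p.1, p.2.1 + r p.1), p.2.2)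
      invFun := fun p => (p.1.1, (p.1.2 - r p.1.1, p.2))
      left_inv := fun p => by simp
      right_inv := fun p => by simp }
  have h1 := Bdd.avg (R := I → Fin 4) (fun r => h.reindex (e r))
  have h2 : (fun p q : I × (Fin 4 × J) =>
      if p.1 = q.1 then 1 / 4 * ∑ s : Fin 4, K ((p.1, p.2.1 + s), p.2.2) ((q.1, q.2.1 + s), q.2.2)
      else 1 / 16 * ∑ s : Fin 4, ∑ s' : Fin 4, K ((p.1, s), p.2.2) ((q.1, s'), q.2.2))
      = fun i j => (Fintype.card (I → Fin 4) : ℝ)⁻¹ * ∑ r, K (e r i) (e r j) := by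
    funext p q
    obtain ⟨i, a, w⟩ := p
    obtain ⟨i', a', w'⟩ := q
    by_cases hi : i = i'
    · subst hi
      simp only [if_true]
      rw [← avg_fun_one i (fun s => K ((i, a + s), w) ((i, a' + s), w'))]
      rfl
    · simp only [hi, if_false]
      have h3 : ∀ f : Fin 4 → Fin 4 → ℝ, ∑ s, ∑ s', f (a + s) (a' + s') = ∑ s, ∑ s', f s s' := by
        intro f
        rw [← Equiv.sum_comp (Equiv.addLeft a) (fun s => ∑ s', f s s')]
        refine Finset.sum_congr rfl fun s _ => ?_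
        exact Equiv.sum_comp (Equiv.addLeft a') (fun s' => f (a + s) s')
      rw [← h3 (fun s s' => K ((i, s), w) ((i', s'), w')),
        ← avg_fun_two hi (fun s s' => K ((i, a + s), w) ((i', a' + s'), w'))]
      rfl
  rw [h2]
  exact h1

/-- mean of a kernel on `D n` -/
noncomputable def kmean (n : ℕ) (k : D n → D n → ℝ) : ℝ :=
  ((4 : ℝ) ^ n)⁻¹ ^ 2 * ∑ v, ∑ v', k v v'

/-- the tree average of a kernel on `D n` -/
noncomputable def tau : ∀ n, (D n → D n → ℝ) → D n → D n → ℝ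
  | 0, k => k
  | n + 1, k => fun p q => 1 / 4 * ∑ r : Fin 4,
      if p.1 = q.1 then tau n (fun v v' => k (p.1 + r, v) (q.1 + r, v')) p.2 q.2
      else kmean n (fun v v' => k (p.1 + r, v) (q.1 + r, v'))

theorem Bdd.tree {Y : Type*} [NormedAddCommGroup Y] [NormedSpace ℝ Y] {C : ℝ} (n : ℕ) :
    ∀ {I : Type} [Fintype I] [DecidableEq I] {K : (I × D n) → (I × D n) → ℝ}, Bdd Y K C →
    Bdd Y (fun p q : I × D n => if p.1 = q.1 then tau n (fun v v' => K (p.1, v) (q.1, v')) p.2 q.2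
      else kmean n (fun v v' => K (p.1, v) (q.1, v'))) C := by
  induction n with
  | zero =>
    intro I _ _ K h
    have : (fun p q : I × D 0 => if p.1 = q.1 then
        tau 0 (fun v v' => K (p.1, v) (q.1, v')) p.2 q.2
        else kmean 0 (fun v v' => K (p.1, v) (q.1, v'))) = K := by
      funext p q
      obtain ⟨i, u⟩ := p
      obtain ⟨i', u'⟩ := q
      have hu : ∀ v : D 0, v = u := fun v => by cases v; cases u; rfl
      have hu' : u' = u := hu u'
      subst hu'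
      by_cases hi : i = i'
      · simp [hi, tau]
      · simp only [hi, if_false, kmean]
        have h1 : (∑ v : D 0, ∑ v' : D 0, K (i, v) (i', v')) = K (i, u') (i', u') := by
          have : (Finset.univ : Finset (D 0)) = {u'} := by
            ext v; simp [hu v]
          rw [this]; simp
        rw [h1]; simp
    rw [this]; exact h
  | succ n ih =>
    intro I _ _ K h
    have h1 : Bdd Y (fun p q : (I × Fin 4) × D n => K (p.1.1, (p.1.2, p.2)) (q.1.1, (q.1.2, q.2)))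
        C := h.reindex (Equiv.prodAssoc I (Fin 4) (D n))
    have h2 := (ih h1).step
    refine Eq.subst (motive := fun k => Bdd Y k C) ?_ h2
    funext p q
    obtain ⟨i, a, w⟩ := p
    obtain ⟨i', a', w'⟩ := q
    by_cases hi : i = i'
    · subst hi
      simp [tau]
    · simp only [hi, if_false, Prod.mk.injEq, false_and, kmean]
      rw [sum_D_succ]
      simp_rw [sum_D_succ]
      have e1 : ∀ f : Fin 4 → D n → Fin 4 → D n → ℝ,
          1 / 16 * ∑ x, ∑ x', ((4 : ℝ) ^ n)⁻¹ ^ 2 * ∑ v, ∑ v', f x v x' v'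
            = ((4 : ℝ) ^ (n + 1))⁻¹ ^ 2 * ∑ x, ∑ v, ∑ x', ∑ v', f x v x' v' := by
        intro f
        have e2 : ∀ x, ∑ v, ∑ x', ∑ v', f x v x' v' = ∑ x', ∑ v, ∑ v', f x v x' v' :=
          fun x => Finset.sum_comm
        simp_rw [e2, ← Finset.mul_sum]
        rw [← mul_assoc, pow_succ]
        congr 1
        field_simp
        ring
      exact e1 (fun x v x' v' => K (i, (x, v)) (i', (x', v')))

end Pool.Agent.Helper45.Umd
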