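import Mathlib
import Pool.Agent.Helper45.Umd.Tree
set_option autoImplicit false

/-! The 4-adic shift operators. -/

namespace Pool.Agent.Helper45.Umd

open Finset

/-- position of a leaf -/
def num : ∀ n, D n → ℤ
  | 0, _ => 0
  | n + 1, p => (p.1.val : ℤ) * 4 ^ n + num n p.2

section ops
variable {Z : Type*} [AddCommGroup Z] [Module ℝ Z]
variable {Z' : Type*} [AddCommGroup Z'] [Module ℝ Z']

/-- average over the leaves -/
noncomputable def avg (n : ℕ) (F : D n → Z) : Z := ((4 : ℝ) ^ n)⁻¹ • ∑ w, F w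

/-- the operator `∑_j θ_j h^{(j)} E_{>j}` on functions on the leaves -/
noncomputable def M (h : Fin 4 → Fin 4 → ℝ) (θ : ℕ → ℝ) : ∀ n, (D n → Z) → D n → Z
  | 0, _ => fun _ => 0
  | n + 1, F => fun p =>
      θ n • ∑ b, h p.1 b • avg n (fun v => F (b, v)) + M h θ n (fun v => F (p.1, v)) p.2

theorem avg_map (f : Z →ₗ[ℝ] Z') (n : ℕ) (F : D n → Z) :
    avg n (fun v => f (F v)) = f (avg n F) := by
  simp [avg]

theorem M_map (f : Z →ₗ[ℝ] Z') (h : Fin 4 → Fin 4 → ℝ) (θ : ℕ → ℝ) :
    ∀ (n : ℕ) (F : D n → Z) (w : D n), M h θ n (fun v => f (F v)) w = f (M h θ n F w)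
  | 0, F, w => by simp [M]
  | n + 1, F, w => by
      simp only [M, map_add, map_smul, map_sum]
      rw [M_map f h θ n (fun v => F (w.1, v)) w.2]
      simp_rw [avg_map f n]

theorem avg_add (n : ℕ) (F G : D n → Z) : avg n (fun v => F v + G v) = avg n F + avg n G := by
  simp [avg, Finset.sum_add_distrib]

theorem M_add (h : Fin 4 → Fin 4 → ℝ) (θ : ℕ → ℝ) :
    ∀ (n : ℕ) (F G : D n → Z) (w : D n),
      M h θ n (fun v => F v + G v) w = M h θ n F w + M h θ n G w
  | 0, F, G, w => by simp [M]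
  | n + 1, F, G, w => by
      simp only [M]
      rw [M_add h θ n (fun v => F (w.1, v)) (fun v => G (w.1, v)) w.2]
      simp_rw [avg_add, smul_add, Finset.sum_add_distrib, smul_add]
      abel

theorem M_mat_add (h h' : Fin 4 → Fin 4 → ℝ) (θ : ℕ → ℝ) :
    ∀ (n : ℕ) (F : D n → Z) (w : D n),
      M (fun a b => h a b + h' a b) θ n F w = M h θ n F w + M h' θ n F w
  | 0, F, w => by simp [M]
  | n + 1, F, w => by
      simp only [M]
      rw [M_mat_add h h' θ n (fun v => F (w.1, v)) w.2]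
      simp_rw [add_smul, Finset.sum_add_distrib, smul_add]
      abel

theorem M_mat_sub (h h' : Fin 4 → Fin 4 → ℝ) (θ : ℕ → ℝ) :
    ∀ (n : ℕ) (F : D n → Z) (w : D n),
      M (fun a b => h a b - h' a b) θ n F w = M h θ n F w - M h' θ n F w
  | 0, F, w => by simp [M]
  | n + 1, F, w => by
      simp only [M]
      rw [M_mat_sub h h' θ n (fun v => F (w.1, v)) w.2]
      simp_rw [sub_smul, Finset.sum_sub_distrib, smul_sub]
      abel

/-- action of a permutation of the digits -/
def act (π : Equiv.Perm (Fin 4)) : ∀ n, D n ≃ D n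
  | 0 => Equiv.refl _
  | n + 1 => Equiv.prodCongr π (act π n)

theorem avg_comp_equiv (n : ℕ) (e : D n ≃ D n) (F : D n → Z) :
    avg n (fun v => F (e v)) = avg n F := by
  simp only [avg]
  rw [Equiv.sum_comp e F]

theorem M_conj (π : Equiv.Perm (Fin 4)) (h : Fin 4 → Fin 4 → ℝ) (θ : ℕ → ℝ) :
    ∀ (n : ℕ) (F : D n → Z) (w : D n),
      M (fun a b => h (π a) (π b)) θ n (fun v => F (act π n v)) w = M h θ n F (act π n w)
  | 0, F, w => by simp [M]
  | n + 1, F, w => by
      have ih := M_conj π h θ n (fun v => F (π w.1, v)) w.2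
      have e1 : ∀ (b : Fin 4) (v : D n), act π (n + 1) (b, v) = (π b, act π n v) := fun b v => rfl
      have e2 : act π (n + 1) w = (π w.1, act π n w.2) := rfl
      simp only [M, e1, e2]
      rw [ih]
      congr 2
      have e3 : ∀ b, avg n (fun v => F (π b, act π n v)) = avg n (fun v => F (π b, v)) := fun b =>
        avg_comp_equiv n (act π n) (fun v => F (π b, v))
      simp_rw [e3]
      exact Equiv.sum_comp π (fun b => h (π w.1) b • avg n (fun v => F (b, v)))

theorem avg_const (n : ℕ) (z : Z) : avg n (fun _ : D n => z) = z := by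
  simp only [avg, Finset.sum_const, Finset.card_univ, card_D]
  rw [← Nat.cast_smul_eq_nsmul ℝ, smul_smul]
  simp

/-- `M h` kills constants if the row sums vanish -/
theorem M_const (h : Fin 4 → Fin 4 → ℝ) (θ : ℕ → ℝ) (hr : ∀ a, ∑ b, h a b = 0) :
    ∀ (n : ℕ) (z : Z) (w : D n), M h θ n (fun _ => z) w = 0
  | 0, z, w => by simp [M]
  | n + 1, z, w => by
      simp only [M]
      rw [M_const h θ hr n z w.2, avg_const, ← Finset.sum_smul, hr]
      simp

theorem avg_succ (n : ℕ) (F : D (n + 1) → Z) :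
    avg (n + 1) F = (4 : ℝ)⁻¹ • ∑ a : Fin 4, avg n (fun v => F (a, v)) := by
  simp only [avg]
  rw [sum_D_succ, ← Finset.smul_sum, smul_smul, pow_succ, mul_comm ((4 : ℝ) ^ n) 4, mul_inv]

/-- `M h` has mean zero output if the column sums vanish -/
theorem avg_M (h : Fin 4 → Fin 4 → ℝ) (θ : ℕ → ℝ) (hc : ∀ b, ∑ a, h a b = 0) :
    ∀ (n : ℕ) (F : D n → Z), avg n (fun w => M h θ n F w) = 0
  | 0, F => by simp [M, avg]
  | n + 1, F => by
      rw [avg_succ]
      simp only [M]
      have e1 : ∀ a : Fin 4, avg n (fun v => θ n • ∑ b, h a b • avg n (fun v => F (b, v))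
          + M h θ n (fun v => F (a, v)) v) = θ n • ∑ b, h a b • avg n (fun v => F (b, v)) := by
        intro a
        rw [avg_add, avg_const, avg_M h θ hc n, add_zero]
      simp_rw [e1]
      rw [← Finset.smul_sum, Finset.sum_comm]
      simp_rw [← Finset.sum_smul, hc]
      simp

end ops

/-- the cyclic matrix -/
def Hc (a b : Fin 4) : ℝ := if a = b + 1 then 1 else if b = a + 1 then -1 else 0

/-- mean of a Toeplitz block -/
noncomputable def cbar (c : ℤ → ℝ) (n : ℕ) (d : ℤ) : ℝ :=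
  kmean n (fun v v' => c (d * 4 ^ n + num n v - num n v'))

noncomputable def theta (c : ℤ → ℝ) (n : ℕ) : ℝ :=
  4 ^ n * ((3 * cbar c n 1 - cbar c n 3) / 4)

theorem cbar_neg {c : ℤ → ℝ} (hc : ∀ n, c (-n) = - c n) (n : ℕ) (d : ℤ) :
    cbar c n (-d) = - cbar c n d := by
  simp only [cbar, kmean]
  rw [Finset.sum_comm, ← mul_neg, ← Finset.sum_neg_distrib]
  congr 1
  refine Finset.sum_congr rfl fun v _ => ?_
  rw [← Finset.sum_neg_distrib]
  refine Finset.sum_congr rfl fun v' _ => ?_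
  rw [← hc]
  congr 1
  ring

theorem block_eq {c : ℤ → ℝ} (hc : ∀ n, c (-n) = - c n) (n : ℕ) (a b : Fin 4) :
    1 / 4 * ∑ r : Fin 4, cbar c n (((a + r).val : ℤ) - ((b + r).val : ℤ))
      = ((3 * cbar c n 1 - cbar c n 3) / 4) * Hc a b := by
  have h1 : cbar c n (-1) = - cbar c n 1 := cbar_neg hc n 1
  have h2 : cbar c n (-2) = - cbar c n 2 := cbar_neg hc n 2
  have h3 : cbar c n (-3) = - cbar c n 3 := cbar_neg hc n 3
  have h0 : cbar c n 0 = 0 := by
    have := cbar_neg hc n 0
    simp only [neg_zero] at this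
    linarith
  fin_cases a <;> fin_cases b <;> simp [Fin.sum_univ_four, Hc, h0, h1, h2, h3, Fin.val_add] <;>
    norm_num [h0, h1, h2, h3] <;> ring

end Pool.Agent.Helper45.Umd
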