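import Mathlib
import Pool.Agent.Helper45.Umd.Shift
set_option autoImplicit false

/-! Boundedness of the shift operators from boundedness of the Toeplitz kernel. -/

namespace Pool.Agent.Helper45.Umd

open Finset

variable {Y : Type*} [NormedAddCommGroup Y] [NormedSpace ℝ Y]

theorem tau_toeplitz {c : ℤ → ℝ} (hc : ∀ n, c (-n) = - c n) :
    ∀ (n : ℕ) (F : D n → Y) (w : D n),
      ∑ w', tau n (fun v v' => c (num n v - num n v')) w w' • F w' = M Hc (theta c) n F w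
  | 0, F, w => by
      have h0 : c 0 = 0 := by
        have := hc 0
        simp only [neg_zero] at this
        linarith
      simp [tau, M, num, h0]
  | n + 1, F, w => by
      obtain ⟨a, w⟩ := w
      have e1 : ∀ (a' : Fin 4) (w' : D n),
          tau (n + 1) (fun v v' => c (num (n + 1) v - num (n + 1) v')) (a, w) (a', w')
            = (if a = a' then tau n (fun v v' => c (num n v - num n v')) w w' else 0)
              + ((3 * cbar c n 1 - cbar c n 3) / 4) * Hc a a' := by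
        intro a' w'
        simp only [tau]
        by_cases ha : a = a'
        · subst ha
          have hH : Hc a a = 0 := by simp [Hc]
          simp [num, hH]
        · simp only [ha, if_false, zero_add]
          rw [← block_eq hc n a a']
          congr 1
          refine Finset.sum_congr rfl fun r _ => ?_
          simp only [cbar]
          congr 1
          funext v v'
          congr 1
          simp only [num]
          ring
      rw [sum_D_succ]
      simp_rw [e1, add_smul, Finset.sum_add_distrib]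
      simp only [M]
      rw [add_comm]
      congr 1
      · simp only [theta, avg]
        rw [Finset.smul_sum]
        refine Finset.sum_congr rfl fun b _ => ?_
        rw [← Finset.smul_sum, smul_smul, smul_smul]
        congr 1
        have : (4 : ℝ) ^ n ≠ 0 := by positivity
        field_simp
      · rw [← tau_toeplitz hc n (fun v => F (a, v)) w]
        have : ∀ a' : Fin 4, ∑ w' : D n, (if a = a' then tau n (fun v v' => c (num n v - num n v')) w w'
            else 0) • F (a', w') = if a = a' then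
              ∑ w' : D n, tau n (fun v v' => c (num n v - num n v')) w w' • F (a', w') else 0 := by
          intro a'
          split_ifs with h
          · rfl
          · simp
        simp_rw [this]
        simp

/-- `ℓ²`-boundedness of an operator on functions on the leaves -/
def OBdd (Y : Type*) [NormedAddCommGroup Y] (n : ℕ) (T : (D n → Y) → D n → Y) (C : ℝ) : Prop :=
  ∀ F : D n → Y, ∑ w, ‖T F w‖ ^ 2 ≤ C * ∑ w, ‖F w‖ ^ 2

theorem M_Hc_bdd {c : ℤ → ℝ} (hc : ∀ n, c (-n) = - c n) {C : ℝ} (n : ℕ)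
    (h : Bdd Y (fun v v' : D n => c (num n v - num n v')) C) :
    OBdd Y n (M Hc (theta c) n) C := by
  intro F
  have h1 : Bdd Y (fun p q : Unit × D n => c (num n p.2 - num n q.2)) C :=
    h.reindex (Equiv.punitProd (D n))
  have h2 := Bdd.tree n h1
  have h3 := h2.reindex (Equiv.punitProd (D n)).symm
  have h4 := h3 F
  simp only [Equiv.punitProd_symm_apply, if_true] at h4
  simp_rw [tau_toeplitz hc n F] at h4
  exact h4

/-- the second matrix: digits `2` and `3` exchanged -/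
def Hs (a b : Fin 4) : ℝ := Hc (Equiv.swap 2 3 a) (Equiv.swap 2 3 b)

theorem M_Hs_bdd {C : ℝ} {θ : ℕ → ℝ} (n : ℕ) (h : OBdd Y n (M Hc θ n) C) :
    OBdd Y n (M Hs θ n) C := by
  intro F
  have h1 : ∀ w, M Hs θ n F w
      = M Hc θ n (fun v => F ((act (Equiv.swap 2 3) n).symm v)) (act (Equiv.swap 2 3) n w) := by
    intro w
    rw [← M_conj (Equiv.swap 2 3) Hc θ n (fun v => F ((act (Equiv.swap 2 3) n).symm v)) w]
    simp only [Equiv.symm_apply_apply]
    rfl
  simp_rw [h1]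
  rw [Equiv.sum_comp (act (Equiv.swap 2 3) n)
    (fun w => ‖M Hc θ n (fun v => F ((act (Equiv.swap 2 3) n).symm v)) w‖ ^ 2)]
  refine (h _).trans (le_of_eq ?_)
  congr 1
  exact Equiv.sum_comp (act (Equiv.swap 2 3) n).symm (fun v => ‖F v‖ ^ 2)

theorem norm_add_sq_le' (x y : Y) : ‖x + y‖ ^ 2 ≤ 2 * ‖x‖ ^ 2 + 2 * ‖y‖ ^ 2 := by
  have h1 := norm_add_le x y
  have h2 : ‖x + y‖ ^ 2 ≤ (‖x‖ + ‖y‖) ^ 2 := by gcongr
  nlinarith [sq_nonneg (‖x‖ - ‖y‖)]

theorem norm_sub_sq_le' (x y : Y) : ‖x - y‖ ^ 2 ≤ 2 * ‖x‖ ^ 2 + 2 * ‖y‖ ^ 2 := by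
  have h1 := norm_sub_le x y
  have h2 : ‖x - y‖ ^ 2 ≤ (‖x‖ + ‖y‖) ^ 2 := by gcongr
  nlinarith [sq_nonneg (‖x‖ - ‖y‖)]

/-- `H + H'` -/
def Hp (a b : Fin 4) : ℝ := Hc a b + Hs a b
/-- `H - H'` -/
def Hm (a b : Fin 4) : ℝ := Hc a b - Hs a b

theorem M_Hp_bdd {C : ℝ} {θ : ℕ → ℝ} (n : ℕ) (h : OBdd Y n (M Hc θ n) C) :
    OBdd Y n (M Hp θ n) (4 * C) := by
  intro F
  have h1 := h F
  have h2 := M_Hs_bdd n h F
  calc ∑ w, ‖M Hp θ n F w‖ ^ 2
      = ∑ w, ‖M Hc θ n F w + M Hs θ n F w‖ ^ 2 := by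
        refine Finset.sum_congr rfl fun w _ => ?_
        rw [← M_mat_add]; rfl
    _ ≤ ∑ w, (2 * ‖M Hc θ n F w‖ ^ 2 + 2 * ‖M Hs θ n F w‖ ^ 2) :=
        Finset.sum_le_sum fun w _ => norm_add_sq_le' _ _
    _ = 2 * ∑ w, ‖M Hc θ n F w‖ ^ 2 + 2 * ∑ w, ‖M Hs θ n F w‖ ^ 2 := by
        rw [Finset.sum_add_distrib, ← Finset.mul_sum, ← Finset.mul_sum]
    _ ≤ 4 * C * ∑ w, ‖F w‖ ^ 2 := by linarith

theorem M_Hm_bdd {C : ℝ} {θ : ℕ → ℝ} (n : ℕ) (h : OBdd Y n (M Hc θ n) C) :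
    OBdd Y n (M Hm θ n) (4 * C) := by
  intro F
  have h1 := h F
  have h2 := M_Hs_bdd n h F
  calc ∑ w, ‖M Hm θ n F w‖ ^ 2
      = ∑ w, ‖M Hc θ n F w - M Hs θ n F w‖ ^ 2 := by
        refine Finset.sum_congr rfl fun w _ => ?_
        rw [← M_mat_sub]; rfl
    _ ≤ ∑ w, (2 * ‖M Hc θ n F w‖ ^ 2 + 2 * ‖M Hs θ n F w‖ ^ 2) :=
        Finset.sum_le_sum fun w _ => norm_sub_sq_le' _ _
    _ = 2 * ∑ w, ‖M Hc θ n F w‖ ^ 2 + 2 * ∑ w, ‖M Hs θ n F w‖ ^ 2 := by
        rw [Finset.sum_add_distrib, ← Finset.mul_sum, ← Finset.mul_sum]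
    _ ≤ 4 * C * ∑ w, ‖F w‖ ^ 2 := by linarith

theorem comp_bdd {C : ℝ} (hC : 0 ≤ C) {θ : ℕ → ℝ} (n : ℕ) (h : OBdd Y n (M Hc θ n) C) :
    OBdd Y n (fun F => M Hp θ n (M Hm θ n F)) ((4 * C) ^ 2) := by
  intro F
  have h1 := M_Hp_bdd n h (M Hm θ n F)
  have h2 := M_Hm_bdd n h F
  calc _ ≤ 4 * C * ∑ w, ‖M Hm θ n F w‖ ^ 2 := h1
    _ ≤ 4 * C * (4 * C * ∑ w, ‖F w‖ ^ 2) := by gcongr
    _ = _ := by ring

theorem Hp_row : ∀ a, ∑ b, Hp a b = 0 := by
  intro a
  fin_cases a <;> simp [Fin.sum_univ_four, Hp, Hs, Hc, Equiv.swap_apply_def] <;> norm_num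

theorem Hm_col : ∀ b, ∑ a, Hm a b = 0 := by
  intro a
  fin_cases a <;> simp [Fin.sum_univ_four, Hm, Hs, Hc, Equiv.swap_apply_def] <;> norm_num

/-- the product matrix `4 (e₀ - e₁)(e₂ - e₃)ᵀ` -/
def Hq (a b : Fin 4) : ℝ :=
  4 * ((if a = 0 then 1 else if a = 1 then -1 else 0) *
    (if b = 2 then 1 else if b = 3 then -1 else 0))

theorem Hp_mul_Hm (a b : Fin 4) : ∑ x, Hp a x * Hm x b = Hq a b := by
  fin_cases a <;> fin_cases b <;>
    simp [Fin.sum_univ_four, Hp, Hm, Hs, Hc, Hq, Equiv.swap_apply_def] <;> norm_num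

end Pool.Agent.Helper45.Umd
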