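import Mathlib
import Pool.Agent.Helper45.Umd.ShiftBdd
set_option autoImplicit false

/-! The polynomials obtained by applying the shift operators to an orbit of a group. -/

namespace Pool.Agent.Helper45.Umd

open Finset Polynomial

/-- time attached to a leaf -/
def ht (N : ℕ → ℕ) : ∀ n, D n → ℕ
  | 0, _ => 0
  | n + 1, p => p.1.val * N n + ht N n p.2

/-- sum of the first `n` times -/
def sig (N : ℕ → ℕ) (n : ℕ) : ℕ := ∑ i ∈ Finset.range n, N i

theorem sig_succ (N : ℕ → ℕ) (n : ℕ) : sig N (n + 1) = sig N n + N n := by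
  simp [sig, Finset.sum_range_succ]

/-- the averaging polynomial -/
noncomputable def PA (N : ℕ → ℕ) : ℕ → ℝ[X]
  | 0 => 1
  | n + 1 => C (1 / 4) * (1 + X ^ (N n) + X ^ (2 * N n) + X ^ (3 * N n)) * PA N n

/-- the testing polynomial -/
noncomputable def PP (θ : ℕ → ℝ) (N : ℕ → ℕ) : ℕ → ℝ[X]
  | 0 => 0
  | n + 1 => PP θ N n
      + C ((θ n) ^ 2) * (1 - X ^ (N n)) ^ 2 * X ^ (N n - 3 * sig N n) * (PA N n) ^ 2

section alg
variable {A : Type*} [CommRing A] [Algebra ℝ A]

theorem avg_mul (n : ℕ) (x : A) (F : D n → A) : avg n (fun w => x * F w) = x * avg n F := by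
  simp only [avg]
  rw [← Finset.mul_sum, mul_smul_comm]

theorem avg_pow (N : ℕ → ℕ) (v : A) : ∀ n, avg n (fun w => v ^ (ht N n w)) = aeval v (PA N n)
  | 0 => by
      simp [avg, ht, PA, card_D]
  | n + 1 => by
      rw [avg_succ]
      have e1 : ∀ a : Fin 4, avg n (fun w => v ^ (ht N (n + 1) (a, w)))
          = (v ^ N n) ^ a.val * aeval v (PA N n) := by
        intro a
        rw [← avg_pow N v n, ← avg_mul]
        congr 1
        funext w
        simp only [ht]
        rw [pow_add, mul_comm a.val, pow_mul]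
      simp_rw [e1]
      simp only [PA, map_mul, map_add, map_one, map_pow, aeval_X, aeval_C, Fin.sum_univ_four]
      rw [Algebra.smul_def]
      have : algebraMap ℝ A (1 / 4) = algebraMap ℝ A 4⁻¹ := by norm_num
      rw [this]
      simp only [Fin.val_zero, Fin.val_one, Fin.val_two, pow_zero, pow_one]
      have h3 : (3 : Fin 4).val = 3 := rfl
      rw [h3, pow_mul', pow_mul']
      ring

theorem avg_pow_inv (N : ℕ → ℕ) {v v' : A} (hv : v * v' = 1) :
    ∀ n, v ^ (3 * sig N n) * avg n (fun w => v' ^ (ht N n w)) = aeval v (PA N n)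
  | 0 => by
      simp [avg, ht, PA, card_D, sig]
  | n + 1 => by
      have ih := avg_pow_inv N hv n
      rw [avg_pow] at ih
      rw [avg_pow]
      simp only [PA, map_mul, map_add, map_one, map_pow, aeval_X, aeval_C]
      rw [← ih, sig_succ, mul_add, pow_add]
      have h1 : v ^ N n * v' ^ N n = 1 := by rw [← mul_pow, hv, one_pow]
      have h3 : v ^ (3 * N n) = (v ^ N n) ^ 3 := by rw [mul_comm, pow_mul]
      have h2 : v ^ (2 * N n) = (v ^ N n) ^ 2 := by rw [mul_comm, pow_mul]
      have h3' : v' ^ (3 * N n) = (v' ^ N n) ^ 3 := by rw [mul_comm, pow_mul]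
      have h2' : v' ^ (2 * N n) = (v' ^ N n) ^ 2 := by rw [mul_comm, pow_mul]
      rw [h3, h2, h3', h2']
      generalize v ^ N n = e at *
      generalize v' ^ N n = e' at *
      generalize aeval v' (PA N n) = b
      generalize v ^ (3 * sig N n) = s
      generalize algebraMap ℝ A (1 / 4) = q
      have k1 : e ^ 3 * (1 + e' + e' ^ 2 + e' ^ 3) = 1 + e + e ^ 2 + e ^ 3 := by
        have : e ^ 3 * (1 + e' + e' ^ 2 + e' ^ 3)
            = e ^ 3 + e ^ 2 * (e * e') + e * (e * e') ^ 2 + (e * e') ^ 3 := by ring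
        rw [this, h1]; ring
      calc s * e ^ 3 * (q * (1 + e' + e' ^ 2 + e' ^ 3) * b)
          = q * (e ^ 3 * (1 + e' + e' ^ 2 + e' ^ 3)) * (s * b) := by ring
        _ = _ := by rw [k1]

/-- the function `M Hp (M Hm (v ^ ht))` -/
noncomputable def RR (θ : ℕ → ℝ) (N : ℕ → ℕ) (v : A) (n : ℕ) (w : D n) : A :=
  M Hp θ n (M Hm θ n (fun w => v ^ (ht N n w))) w

theorem M_mul (h : Fin 4 → Fin 4 → ℝ) (θ : ℕ → ℝ) (n : ℕ) (x : A) (F : D n → A) (w : D n) :
    M h θ n (fun v => x * F v) w = x * M h θ n F w :=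
  M_map (LinearMap.mulLeft ℝ x) h θ n F w

theorem RR_succ (θ : ℕ → ℝ) (N : ℕ → ℕ) (v : A) (n : ℕ) (a : Fin 4) (w : D n) :
    RR θ N v (n + 1) (a, w)
      = (θ n) ^ 2 • ∑ b, Hq a b • ((v ^ N n) ^ b.val * aeval v (PA N n))
        + (v ^ N n) ^ a.val * RR θ N v n w := by
  have e0 : ∀ (a : Fin 4) (w : D n), v ^ (ht N (n + 1) (a, w))
      = (v ^ N n) ^ a.val * v ^ (ht N n w) := by
    intro a w
    simp only [ht]
    rw [pow_add, mul_comm a.val, pow_mul]
  -- first application
  have e1 : ∀ (a : Fin 4) (w : D n), M Hm θ (n + 1) (fun w => v ^ (ht N (n + 1) w)) (a, w)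
      = θ n • ∑ b, Hm a b • ((v ^ N n) ^ b.val * aeval v (PA N n))
        + (v ^ N n) ^ a.val * M Hm θ n (fun w => v ^ (ht N n w)) w := by
    intro a w
    simp only [M, e0]
    rw [M_mul]
    simp_rw [avg_mul, avg_pow]
  have e2 : ∀ a : Fin 4, avg n (fun w => M Hm θ (n + 1) (fun w => v ^ (ht N (n + 1) w)) (a, w))
      = θ n • ∑ b, Hm a b • ((v ^ N n) ^ b.val * aeval v (PA N n)) := by
    intro a
    simp_rw [e1]
    rw [avg_add, avg_const, avg_mul, avg_M Hm θ Hm_col, mul_zero, add_zero]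
  have e3 : RR θ N v (n + 1) (a, w)
      = θ n • ∑ b, Hp a b •
          avg n (fun w => M Hm θ (n + 1) (fun w => v ^ (ht N (n + 1) w)) (b, w))
        + M Hp θ n (fun w => M Hm θ (n + 1) (fun w => v ^ (ht N (n + 1) w)) (a, w)) w := by
    simp only [RR]
    conv_lhs => rw [M]
  rw [e3]
  congr 1
  · simp_rw [e2]
    rw [pow_two, mul_smul]
    congr 1
    have e4 : ∀ b, Hq a b • ((v ^ N n) ^ b.val * aeval v (PA N n))
        = ∑ x, Hp a x • Hm x b • ((v ^ N n) ^ b.val * aeval v (PA N n)) := by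
      intro b
      rw [← Hp_mul_Hm, Finset.sum_smul]
      simp_rw [mul_smul]
    rw [Finset.sum_congr rfl fun b _ => e4 b, Finset.sum_comm, Finset.smul_sum]
    refine Finset.sum_congr rfl fun x _ => ?_
    rw [← Finset.smul_sum, smul_comm]
  · simp_rw [e1]
    rw [M_add Hp θ n _ _ w, M_const Hp θ Hp_row, zero_add, M_mul]
    rfl

theorem psi_eq (θ : ℕ → ℝ) (N : ℕ → ℕ) (hN : ∀ n, 3 * sig N n ≤ N n) {v v' : A}
    (hv : v * v' = 1) : ∀ n,
    avg n (fun w => v' ^ (ht N n w) * RR θ N v n w) = - aeval v (PP θ N n)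
  | 0 => by simp [avg, RR, M, PP, ht]
  | n + 1 => by
      rw [avg_succ]
      have ih := psi_eq θ N hN hv n
      have e1 : ∀ a : Fin 4,
          avg n (fun w => v' ^ (ht N (n + 1) (a, w)) * RR θ N v (n + 1) (a, w))
          = (v' ^ N n) ^ a.val * aeval v' (PA N n) *
              ((θ n) ^ 2 • ∑ b, Hq a b • ((v ^ N n) ^ b.val * aeval v (PA N n)))
            + - aeval v (PP θ N n) := by
        intro a
        have e0 : ∀ w : D n, v' ^ (ht N (n + 1) (a, w)) * RR θ N v (n + 1) (a, w)
            = (v' ^ N n) ^ a.val *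
                ((θ n) ^ 2 • ∑ b, Hq a b • ((v ^ N n) ^ b.val * aeval v (PA N n)))
                * v' ^ (ht N n w)
              + v' ^ (ht N n w) * RR θ N v n w := by
          intro w
          rw [RR_succ]
          have h1 : v' ^ (ht N (n + 1) (a, w)) = (v' ^ N n) ^ a.val * v' ^ (ht N n w) := by
            simp only [ht]
            rw [pow_add, mul_comm a.val, pow_mul]
          have h2 : (v' ^ N n) ^ a.val * (v ^ N n) ^ a.val = 1 := by
            rw [← mul_pow, ← mul_pow, mul_comm v' v, hv, one_pow, one_pow]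
          rw [h1, mul_add]
          congr 1
          · ring
          · calc (v' ^ N n) ^ a.val * v' ^ (ht N n w) * ((v ^ N n) ^ a.val * RR θ N v n w)
                = ((v' ^ N n) ^ a.val * (v ^ N n) ^ a.val)
                    * (v' ^ (ht N n w) * RR θ N v n w) := by ring
              _ = _ := by rw [h2, one_mul]
        simp_rw [e0]
        rw [avg_add, ih, avg_mul, avg_pow]
        ring
      simp_rw [e1]
      rw [Finset.sum_add_distrib, Finset.sum_const, smul_add]
      have e2 : (4 : ℝ)⁻¹ • ((Finset.univ : Finset (Fin 4)).card • - aeval v (PP θ N n))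
          = - aeval v (PP θ N n) := by
        rw [← Nat.cast_smul_eq_nsmul ℝ, smul_smul]
        simp
      rw [e2]
      simp only [PP, map_add, map_mul, map_pow, map_sub, map_one, aeval_X, aeval_C]
      have h5 : v ^ N n * aeval v' (PA N n) = v ^ (N n - 3 * sig N n) * aeval v (PA N n) := by
        rw [← avg_pow_inv N hv n, avg_pow, ← mul_assoc, ← pow_add, Nat.sub_add_cancel (hN n)]
      have h6 : v ^ N n * v' ^ N n = 1 := by rw [← mul_pow, hv, one_pow]
      have h7 : ∀ a : Fin 4, (θ n) ^ 2 • ∑ b, Hq a b • ((v ^ N n) ^ b.val * aeval v (PA N n))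
          = algebraMap ℝ A (θ n) ^ 2 * (algebraMap ℝ A 4 *
            ((if a = 0 then 1 else if a = 1 then -1 else 0) *
              ((v ^ N n) ^ 2 - (v ^ N n) ^ 3) * aeval v (PA N n))) := by
        intro a
        rw [Algebra.smul_def, map_pow]
        congr 1
        fin_cases a <;> simp [Fin.sum_univ_four, Hq, Algebra.smul_def] <;> ring
      simp_rw [h7]
      simp only [Fin.sum_univ_four]
      simp only [Fin.val_zero, Fin.val_one, pow_zero, pow_one, Fin.isValue, Fin.reduceEq,
        if_true, if_false, zero_mul, mul_zero, add_zero, one_mul]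
      rw [Algebra.smul_def]
      have h8 : algebraMap ℝ A 4⁻¹ * algebraMap ℝ A 4 = 1 := by
        rw [← map_mul]; norm_num
      generalize algebraMap ℝ A 4⁻¹ = q at *
      generalize algebraMap ℝ A 4 = q' at *
      generalize algebraMap ℝ A (θ n) = t at *
      generalize v ^ N n = e at *
      generalize v' ^ N n = e' at *
      generalize aeval v' (PA N n) = b at *
      generalize aeval v (PA N n) = c at *
      generalize v ^ (N n - 3 * sig N n) = s at *
      generalize aeval v (PP θ N n) = p at *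
      have k1 : b * (e ^ 2 - e ^ 3) - e' * b * (e ^ 2 - e ^ 3) = - (1 - e) ^ 2 * (e * b) := by
        have : b * (e ^ 2 - e ^ 3) - e' * b * (e ^ 2 - e ^ 3)
          = b * (e ^ 2 - e ^ 3) - (e * e') * b * (e - e ^ 2) := by ring
        rw [this, h6]; ring
      calc _ = (q * q') * t ^ 2 * c * (b * (e ^ 2 - e ^ 3) - e' * b * (e ^ 2 - e ^ 3)) - p := by
            ring
        _ = - (p + t ^ 2 * (1 - e) ^ 2 * s * c ^ 2) := by
          rw [k1, h8, h5]; ring

end alg

end Pool.Agent.Helper45.Umd
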