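import Mathlib
set_option autoImplicit false

/-! The scalar Hilbert transform on `L²(ℝ; ℂ)`. -/

namespace Pool.Agent.Helper45.Umd

open MeasureTheory FourierTransform

theorem memLp_hilbertSymbol :
    MemLp (fun ξ : ℝ => -Complex.I * ((SignType.sign ξ : ℝ) : ℂ)) ⊤ (volume : Measure ℝ) := by
  refine memLp_top_of_bound (C := 1) ?_ ?_
  · refine Measurable.aestronglyMeasurable ?_
    refine measurable_const.mul (Complex.measurable_ofReal.comp ?_)
    have : (fun ξ : ℝ => ((SignType.sign ξ : SignType) : ℝ))
        = fun ξ => if 0 < ξ then 1 else if ξ < 0 then -1 else 0 := by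
      funext ξ
      rcases lt_trichotomy ξ 0 with h | h | h
      · simp [h, not_lt.mpr h.le]
      · simp [h]
      · simp [h]
    rw [this]
    exact Measurable.ite measurableSet_Ioi measurable_const
      (Measurable.ite measurableSet_Iio measurable_const measurable_const)
  · refine Filter.Eventually.of_forall fun ξ => ?_
    rw [norm_mul, norm_neg, Complex.norm_I, one_mul, Complex.norm_real]
    rcases lt_trichotomy ξ 0 with h | h | h
    · simp [h]
    · simp [h]
    · simp [h]

/-- The symbol `ξ ↦ -i sgn ξ` of the Hilbert transform, as an element of `L^∞(ℝ; ℂ)`. -/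
noncomputable def hilbertSymbol : Lp ℂ ⊤ (volume : Measure ℝ) :=
  memLp_hilbertSymbol.toLp (fun ξ : ℝ => -Complex.I * ((SignType.sign ξ : ℝ) : ℂ))

/-- The scalar Hilbert transform on `L²(ℝ; ℂ)`: the Fourier multiplier with symbol `-i sgn ξ`. -/
noncomputable def hilbertL2 (f : Lp ℂ 2 (volume : Measure ℝ)) :
    Lp ℂ 2 (volume : Measure ℝ) :=
  𝓕⁻ (hilbertSymbol • 𝓕 f : Lp ℂ 2 (volume : Measure ℝ))

end Pool.Agent.Helper45.Umd
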