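import Mathlib
import Pool.Agent.Helper45.Umd.HT
set_option autoImplicit false

/-! The Hilbert transform of a Schwartz function off its support. -/

namespace Pool.Agent.Helper45.Umd

open MeasureTheory FourierTransform Real Filter Set
open scoped Topology ComplexInnerProductSpace SchwartzMap

/-- the symbol as a function -/
noncomputable def sy (ξ : ℝ) : ℂ := -Complex.I * ((SignType.sign ξ : ℝ) : ℂ)

theorem norm_sy_le (ξ : ℝ) : ‖sy ξ‖ ≤ 1 := by
  unfold sy
  rw [norm_mul, norm_neg, Complex.norm_I, one_mul, Complex.norm_real]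
  rcases lt_trichotomy ξ 0 with h | h | h
  · simp [h]
  · simp [h]
  · simp [h]

theorem aesm_sy : AEStronglyMeasurable sy (volume : Measure ℝ) := memLp_hilbertSymbol.1

theorem sy_pos {ξ : ℝ} (h : 0 < ξ) : sy ξ = -Complex.I := by simp [sy, h]
theorem sy_neg {ξ : ℝ} (h : ξ < 0) : sy ξ = Complex.I := by simp [sy, h]

theorem integrable_sy_mul {g : ℝ → ℂ} (hg : Integrable g) : Integrable (fun ξ => sy ξ * g ξ) := by
  refine hg.bdd_mul (c := 1) aesm_sy ?_
  exact Filter.Eventually.of_forall norm_sy_le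

/-- integral of the symbol against a Fourier transform -/
theorem integral_sy_fourier {g k : ℝ → ℂ} (hk : Integrable k) (hg : Integrable g)
    (hgk : ∀ u, g u = u • k u) (hF : Integrable (𝓕 g)) :
    ∫ ξ, sy ξ * 𝓕 g ξ = - (1 / π : ℂ) * ∫ u, k u := by
  have hg' : Integrable (fun x : ℝ => x • k x) := by
    refine hg.congr (Filter.Eventually.of_forall fun u => ?_)
    exact hgk u
  have hder : ∀ w : ℝ, HasDerivAt (𝓕 k) ((-2 * π * Complex.I) * 𝓕 g w) w := by
    intro w
    have h1 := Real.hasDerivAt_fourier hk hg' w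
    have h2 : 𝓕 (fun x : ℝ ↦ (-2 * π * Complex.I * x) • k x) w
        = (-2 * π * Complex.I) * 𝓕 g w := by
      rw [Real.fourier_eq, Real.fourier_eq, ← integral_const_mul]
      refine integral_congr_ae (Filter.Eventually.of_forall fun u => ?_)
      simp only
      rw [hgk u]
      simp only [Circle.smul_def, smul_eq_mul, Complex.real_smul]
      ring
    rw [h2] at h1
    exact h1
  have hint : Integrable (fun w => (-2 * π * Complex.I) * 𝓕 g w) := hF.const_mul _
  have hz : Tendsto (𝓕 k) (cocompact ℝ) (𝓝 0) := Real.zero_at_infty_fourier k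
  have h1 : ∫ ξ in Ioi (0:ℝ), (-2 * π * Complex.I) * 𝓕 g ξ = 0 - 𝓕 k 0 :=
    integral_Ioi_of_hasDerivAt_of_tendsto' (fun x _ => hder x) hint.integrableOn
      (hz.mono_left atTop_le_cocompact)
  have h2 : ∫ ξ in Iic (0:ℝ), (-2 * π * Complex.I) * 𝓕 g ξ = 𝓕 k 0 - 0 :=
    integral_Iic_of_hasDerivAt_of_tendsto' (fun x _ => hder x) hint.integrableOn
      (hz.mono_left atBot_le_cocompact)
  have h0 : 𝓕 k 0 = ∫ u, k u := by
    rw [Real.fourier_eq]
    refine integral_congr_ae (Filter.Eventually.of_forall fun u => ?_)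
    simp
  rw [integral_const_mul] at h1 h2
  have hs : ∫ ξ, sy ξ * 𝓕 g ξ
      = (∫ ξ in Iic (0:ℝ), sy ξ * 𝓕 g ξ) + ∫ ξ in Ioi (0:ℝ), sy ξ * 𝓕 g ξ := by
    have := integral_add_compl (measurableSet_Iic (a := (0:ℝ))) (integrable_sy_mul hF)
    rw [← this, compl_Iic]
  have hs1 : ∫ ξ in Ioi (0:ℝ), sy ξ * 𝓕 g ξ = -Complex.I * ∫ ξ in Ioi (0:ℝ), 𝓕 g ξ := by
    rw [← integral_const_mul]
    refine setIntegral_congr_fun measurableSet_Ioi fun ξ hξ => ?_
    rw [sy_pos hξ]
  have hs2 : ∫ ξ in Iic (0:ℝ), sy ξ * 𝓕 g ξ = Complex.I * ∫ ξ in Iic (0:ℝ), 𝓕 g ξ := by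
    rw [← integral_const_mul]
    rw [integral_Iic_eq_integral_Iio, integral_Iic_eq_integral_Iio]
    refine setIntegral_congr_fun measurableSet_Iio fun ξ hξ => ?_
    rw [sy_neg hξ]
  rw [hs, hs1, hs2, ← h0]
  have hpi : (π : ℂ) ≠ 0 := by exact_mod_cast Real.pi_ne_zero
  have hI : Complex.I ≠ 0 := Complex.I_ne_zero
  have e1 : ∫ ξ in Ioi (0:ℝ), 𝓕 g ξ = 𝓕 k 0 / (2 * π * Complex.I) := by
    field_simp
    linear_combination (-1 : ℂ) * h1
  have e2 : ∫ ξ in Iic (0:ℝ), 𝓕 g ξ = - 𝓕 k 0 / (2 * π * Complex.I) := by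
    field_simp
    linear_combination (-1 : ℂ) * h2
  rw [e1, e2]
  field_simp
  ring

/-- pairing of a Hilbert transform with a Schwartz function, on the Fourier side -/
theorem pair_eq (f h : 𝓢(ℝ, ℂ)) :
    inner ℂ (h.toLp 2 (volume : Measure ℝ)) (hilbertL2 (f.toLp 2 (volume : Measure ℝ)))
      = ∫ ξ, (starRingEnd ℂ) (𝓕 h ξ) * (sy ξ * 𝓕 f ξ) := by
  rw [← Lp.inner_fourier_eq]
  have h1 : 𝓕 (hilbertL2 (f.toLp 2 (volume : Measure ℝ)))
      = (hilbertSymbol • 𝓕 (f.toLp 2 (volume : Measure ℝ)) : Lp ℂ 2 (volume : Measure ℝ)) := by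
    unfold hilbertL2
    exact FourierTransform.fourier_fourierInv_eq _
  rw [h1, SchwartzMap.toLp_fourier_eq, SchwartzMap.toLp_fourier_eq, L2.inner_def]
  refine integral_congr_ae ?_
  filter_upwards [SchwartzMap.coeFn_toLp (𝓕 h) 2 (volume : Measure ℝ),
    SchwartzMap.coeFn_toLp (𝓕 f) 2 (volume : Measure ℝ),
    Lp.coeFn_lpSMul (r := 2) hilbertSymbol ((𝓕 f).toLp 2 (volume : Measure ℝ)),
    memLp_hilbertSymbol.coeFn_toLp] with ξ h2 h3 h4 h5
  rw [h4, h2]
  simp only [Pi.smul_apply', smul_eq_mul, RCLike.inner_apply]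
  rw [h3]
  have : hilbertSymbol ξ = sy ξ := h5
  rw [this]
  ring

theorem pair_eq' (f h : 𝓢(ℝ, ℂ)) :
    inner ℂ (h.toLp 2 (volume : Measure ℝ)) (hilbertL2 (f.toLp 2 (volume : Measure ℝ)))
      = ∫ x, (starRingEnd ℂ) (h x) * 𝓕⁻ (fun ξ => sy ξ * 𝓕 f ξ) x := by
  rw [pair_eq]
  have h1 : Integrable (fun ξ => sy ξ * 𝓕 f ξ) := integrable_sy_mul (𝓕 f).integrable
  have h2 := VectorFourier.integral_sesq_fourierIntegral_eq_neg_flip (μ := (volume : Measure ℝ))
    (ν := (volume : Measure ℝ)) (M := innerSL ℂ (E := ℂ))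
    (L := innerₗ ℝ) continuous_fourierChar continuous_inner (h.integrable (μ := volume)) h1
  have h3 : ∀ a b : ℂ, innerSL ℂ a b = (starRingEnd ℂ) a * b := by
    intro a b
    rw [innerSL_apply_apply, RCLike.inner_apply, mul_comm]
  simp only [h3] at h2
  have h4 : ∀ x : ℝ, VectorFourier.fourierIntegral 𝐞 (volume : Measure ℝ) (-(innerₗ ℝ).flip)
      (fun ξ => sy ξ * 𝓕 f ξ) x = 𝓕⁻ (fun ξ => sy ξ * 𝓕 f ξ) x := by
    intro x
    simp [VectorFourier.fourierIntegral, Real.fourierInv_eq]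
  simp only [h4] at h2
  exact h2

/-- the Hilbert transform of `f` off the support of `f` -/
theorem hilbert_pointwise (f : 𝓢(ℝ, ℂ)) {x δ : ℝ} (hδ : 0 < δ)
    (hf : ∀ y, |y - x| < δ → f y = 0) :
    𝓕⁻ (fun ξ => sy ξ * 𝓕 f ξ) x = (1 / π : ℂ) * ∫ y, f y / ((x - y : ℝ) : ℂ) := by
  set g : ℝ → ℂ := fun u => f (u + x) with hgdef
  set k : ℝ → ℂ := fun u => f (u + x) / (u : ℂ) with hkdef
  have hg : Integrable g := (f.integrable (μ := volume)).comp_add_right x
  have hk : Integrable k := by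
    refine Integrable.mono' (hg.norm.const_mul δ⁻¹) ?_ ?_
    · refine (Measurable.aestronglyMeasurable ?_)
      exact ((f.continuous.measurable.comp (measurable_id.add_const x))).div
        Complex.measurable_ofReal
    · refine Filter.Eventually.of_forall fun u => ?_
      by_cases hu : |u| < δ
      · have : f (u + x) = 0 := hf _ (by simpa using hu)
        simp [hkdef, hgdef, this]
      · push Not at hu
        simp only [hkdef, hgdef, norm_div, Complex.norm_real, Real.norm_eq_abs]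
        rw [div_eq_inv_mul]
        gcongr
  have hgk : ∀ u, g u = u • k u := by
    intro u
    by_cases hu : u = 0
    · subst hu
      have : f (0 + x) = 0 := hf _ (by simpa using hδ)
      simp [hgdef, this]
    · have : (u : ℂ) ≠ 0 := by exact_mod_cast hu
      simp only [hgdef, hkdef, Complex.real_smul]
      field_simp
  have hFg : ∀ ξ, 𝓕 g ξ = (𝐞 (x * ξ) : ℂ) * 𝓕 f ξ := by
    intro ξ
    have h1 : 𝓕 g ξ = ∫ u, 𝐞 (-(u * ξ)) • g u := by
      rw [Real.fourier_eq]; simp [mul_comm]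
    have h2 : 𝓕 f ξ = ∫ u, 𝐞 (-(u * ξ)) • f u := by
      rw [SchwartzMap.fourier_coe, Real.fourier_eq]; simp [mul_comm]
    rw [h1, h2, ← integral_const_mul,
      ← integral_add_right_eq_self (fun u => (𝐞 (x * ξ) : ℂ) * 𝐞 (-(u * ξ)) • f u) x]
    refine integral_congr_ae (Filter.Eventually.of_forall fun u => ?_)
    simp only [hgdef, Circle.smul_def, smul_eq_mul]
    rw [← mul_assoc, ← Circle.coe_mul, ← AddChar.map_add_eq_mul]
    congr 3
    ring
  have hF : Integrable (𝓕 g) := by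
    have : 𝓕 g = fun ξ => (𝐞 (x * ξ) : ℂ) * 𝓕 f ξ := funext hFg
    rw [this]
    refine ((𝓕 f).integrable (μ := volume)).bdd_mul (f := fun ξ => (𝐞 (x * ξ) : ℂ)) (c := 1) ?_ ?_
    · refine Continuous.aestronglyMeasurable ?_
      have hc : Continuous (fun z : Circle => (z : ℂ)) := continuous_induced_dom
      exact hc.comp (continuous_fourierChar.comp (continuous_const.mul continuous_id))
    · exact Filter.Eventually.of_forall fun ξ => (Circle.norm_coe _).le
  have h1 := integral_sy_fourier hk hg hgk hF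
  have h2 : 𝓕⁻ (fun ξ => sy ξ * 𝓕 f ξ) x = ∫ ξ, sy ξ * 𝓕 g ξ := by
    rw [Real.fourierInv_eq]
    refine integral_congr_ae (Filter.Eventually.of_forall fun ξ => ?_)
    simp only [hFg, Circle.smul_def, smul_eq_mul]
    have : inner ℝ ξ x = x * ξ := by simp
    rw [this]
    ring
  rw [h2, h1]
  have h3 : ∫ u, k u = ∫ y, f y / ((y - x : ℝ) : ℂ) := by
    rw [← integral_add_right_eq_self (fun y => f y / ((y - x : ℝ) : ℂ)) x]
    refine integral_congr_ae (Filter.Eventually.of_forall fun u => ?_)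
    simp [hkdef]
  rw [h3, neg_mul, ← mul_neg, ← integral_neg]
  congr 1
  refine integral_congr_ae (Filter.Eventually.of_forall fun y => ?_)
  simp only
  rw [← div_neg]
  congr 1
  push_cast
  ring

end Pool.Agent.Helper45.Umd
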