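import Mathlib
import Pool.Agent.Helper45.Umd.Scalar
set_option autoImplicit false

/-! The discrete kernel obtained from the Hilbert transform and translates of a bump. -/

namespace Pool.Agent.Helper45.Umd

open MeasureTheory FourierTransform Real Filter Set
open scoped Topology ComplexInnerProductSpace SchwartzMap

/-- a bump function supported in `[0, 1/2]` -/
noncomputable def bmp : ContDiffBump (1 / 4 : ℝ) := ⟨1 / 8, 1 / 4, by norm_num, by norm_num⟩

theorem bmp_nonneg (x : ℝ) : 0 ≤ bmp x := bmp.nonneg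
theorem bmp_le_one (x : ℝ) : bmp x ≤ 1 := bmp.le_one

theorem bmp_zero {x : ℝ} (h : x ≤ 0 ∨ 1 / 2 ≤ x) : bmp x = 0 := by
  refine bmp.zero_of_le_dist ?_
  show (1 / 4 : ℝ) ≤ dist x (1 / 4)
  rw [Real.dist_eq]
  rcases h with h | h
  · rw [abs_of_nonpos (by linarith)]; linarith
  · rw [abs_of_nonneg (by linarith)]; linarith

theorem bmp_ne {x : ℝ} (h : bmp x ≠ 0) : 0 < x ∧ x < 1 / 2 := by
  by_contra hc
  apply h
  apply bmp_zero
  by_contra hc'
  push Not at hc'
  exact hc ⟨hc'.1, hc'.2⟩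

theorem bmp_continuous : Continuous (fun x : ℝ => bmp x) := bmp.continuous

theorem bmp_compact : HasCompactSupport (fun x : ℝ => bmp x) := bmp.hasCompactSupport

theorem bmp_integrable : Integrable (fun x : ℝ => bmp x) :=
  bmp_continuous.integrable_of_hasCompactSupport bmp_compact

/-- the mass of the bump -/
noncomputable def Ib : ℝ := ∫ x, bmp x

theorem Ib_pos : 0 < Ib := bmp.integral_pos

/-- translates of the bump as Schwartz functions -/
noncomputable def phi (k : ℤ) : 𝓢(ℝ, ℂ) :=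
  HasCompactSupport.toSchwartzMap (f := fun x : ℝ => ((bmp (x - k) : ℝ) : ℂ))
    (by
      refine HasCompactSupport.intro (K := Icc (k : ℝ) (k + 1 / 2)) isCompact_Icc fun x hx => ?_
      rw [bmp_zero]
      · simp
      · by_contra hc
        push Not at hc
        exact hx ⟨by linarith [hc.1], by linarith [hc.2]⟩)
    (by
      refine Complex.ofRealCLM.contDiff.comp ?_
      exact bmp.contDiff.comp (contDiff_id.sub contDiff_const))

@[simp] theorem phi_apply (k : ℤ) (x : ℝ) : phi k x = ((bmp (x - k) : ℝ) : ℂ) := rfl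

/-- the kernel -/
noncomputable def ker (n : ℤ) (x y : ℝ) : ℝ := bmp x * bmp y / (n + x - y)

/-- the discrete kernel -/
noncomputable def cc (n : ℤ) : ℝ :=
  if n = 0 then 0 else 1 / π * ∫ p : ℝ × ℝ, ker n p.1 p.2

theorem one_le_abs {n : ℤ} (hn : n ≠ 0) : (1 : ℝ) ≤ |(n : ℝ)| := by
  exact_mod_cast Int.one_le_abs hn

theorem ker_bound {n : ℤ} (hn : n ≠ 0) (x y : ℝ) : ‖ker n x y‖ ≤ 2 * (bmp x * bmp y) := by
  unfold ker
  by_cases hx : bmp x = 0
  · simp [hx]
  by_cases hy : bmp y = 0
  · simp [hy]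
  have h1 := bmp_ne hx
  have h2 := bmp_ne hy
  have h3 := one_le_abs hn
  have h4 : (1 / 2 : ℝ) ≤ |n + x - y| := by
    rcases abs_cases (n : ℝ) with h | h <;> rcases abs_cases (n + x - y) with h' | h' <;> linarith
  rw [norm_div, Real.norm_eq_abs, Real.norm_eq_abs, abs_of_nonneg (mul_nonneg (bmp_nonneg x)
    (bmp_nonneg y)), div_le_iff₀ (by linarith)]
  have h5 : 0 ≤ bmp x * bmp y := mul_nonneg (bmp_nonneg x) (bmp_nonneg y)
  nlinarith

theorem prod_integrable : Integrable (fun p : ℝ × ℝ => bmp p.1 * bmp p.2) := by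
  rw [Measure.volume_eq_prod]
  exact bmp_integrable.mul_prod bmp_integrable

theorem ker_integrable {n : ℤ} (hn : n ≠ 0) : Integrable (fun p : ℝ × ℝ => ker n p.1 p.2) := by
  refine Integrable.mono' (prod_integrable.const_mul 2) ?_
    (Filter.Eventually.of_forall fun p => ker_bound hn p.1 p.2)
  refine Measurable.aestronglyMeasurable ?_
  unfold ker
  refine Measurable.div ?_ ?_
  · exact (bmp_continuous.measurable.comp measurable_fst).mul
      (bmp_continuous.measurable.comp measurable_snd)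
  · exact (measurable_const.add measurable_fst).sub measurable_snd

theorem integral_prod_bmp : ∫ p : ℝ × ℝ, bmp p.1 * bmp p.2 = Ib ^ 2 := by
  rw [Measure.volume_eq_prod, integral_prod_mul (fun x => bmp x) (fun y => bmp y), sq]
  rfl

theorem cc_neg (n : ℤ) : cc (-n) = - cc n := by
  unfold cc
  by_cases hn : n = 0
  · simp [hn]
  · rw [if_neg (by simpa using hn), if_neg hn, ← mul_neg, ← integral_neg]
    congr 1
    have h1 : ∫ p : ℝ × ℝ, ker (-n) p.1 p.2 = ∫ p : ℝ × ℝ, ker (-n) p.2 p.1 := by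
      rw [Measure.volume_eq_prod]
      exact (integral_prod_swap (fun p : ℝ × ℝ => ker (-n) p.1 p.2)).symm
    rw [h1]
    refine integral_congr_ae (Filter.Eventually.of_forall fun p => ?_)
    simp only [ker]
    rw [← div_neg, mul_comm]
    congr 1
    push_cast
    ring

theorem cc_lower {n : ℤ} (hn : 1 ≤ n) : Ib ^ 2 / (2 * π * n) ≤ cc n := by
  have hn0 : n ≠ 0 := by omega
  have hn1 : (1 : ℝ) ≤ n := by exact_mod_cast hn
  unfold cc
  rw [if_neg hn0]
  have h1 : (1 / (2 * n) : ℝ) * ∫ p : ℝ × ℝ, bmp p.1 * bmp p.2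
      ≤ ∫ p : ℝ × ℝ, ker n p.1 p.2 := by
    rw [← integral_const_mul]
    refine integral_mono (prod_integrable.const_mul _) (ker_integrable hn0) fun p => ?_
    simp only [ker]
    by_cases hx : bmp p.1 = 0
    · simp [hx]
    by_cases hy : bmp p.2 = 0
    · simp [hy]
    have h1 := bmp_ne hx
    have h2 := bmp_ne hy
    have h5 : 0 ≤ bmp p.1 * bmp p.2 := mul_nonneg (bmp_nonneg _) (bmp_nonneg _)
    rw [div_eq_mul_inv, mul_comm]
    refine mul_le_mul_of_nonneg_left ?_ h5
    rw [one_mul]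
    exact inv_anti₀ (by linarith) (by linarith)
  rw [integral_prod_bmp] at h1
  have hpi := Real.pi_pos
  calc Ib ^ 2 / (2 * π * n) = 1 / π * (1 / (2 * n) * Ib ^ 2) := by field_simp
    _ ≤ _ := by gcongr

theorem cc_upper {n : ℤ} (hn : 1 ≤ n) : cc n ≤ 2 * Ib ^ 2 / (π * n) := by
  have hn0 : n ≠ 0 := by omega
  have hn1 : (1 : ℝ) ≤ n := by exact_mod_cast hn
  unfold cc
  rw [if_neg hn0]
  have h1 : ∫ p : ℝ × ℝ, ker n p.1 p.2
      ≤ (2 / n : ℝ) * ∫ p : ℝ × ℝ, bmp p.1 * bmp p.2 := by
    rw [← integral_const_mul]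
    refine integral_mono (ker_integrable hn0) (prod_integrable.const_mul _) fun p => ?_
    simp only [ker]
    by_cases hx : bmp p.1 = 0
    · simp [hx]
    by_cases hy : bmp p.2 = 0
    · simp [hy]
    have h1 := bmp_ne hx
    have h2 := bmp_ne hy
    have h5 : 0 ≤ bmp p.1 * bmp p.2 := mul_nonneg (bmp_nonneg _) (bmp_nonneg _)
    rw [div_eq_mul_inv, mul_comm (2 / (n : ℝ))]
    refine mul_le_mul_of_nonneg_left ?_ h5
    rw [inv_le_comm₀ (by linarith) (by positivity), inv_div]
    linarith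
  rw [integral_prod_bmp] at h1
  have hpi := Real.pi_pos
  calc _ ≤ 1 / π * (2 / n * Ib ^ 2) := by gcongr
    _ = _ := by field_simp

theorem cc_anti {n m : ℤ} (hn : 1 ≤ n) (hm : n ≤ m) : cc m ≤ cc n := by
  have hn0 : n ≠ 0 := by omega
  have hm0 : m ≠ 0 := by omega
  have hn1 : (1 : ℝ) ≤ n := by exact_mod_cast hn
  have hm1 : (n : ℝ) ≤ m := by exact_mod_cast hm
  unfold cc
  rw [if_neg hn0, if_neg hm0]
  have h1 : ∫ p : ℝ × ℝ, ker m p.1 p.2 ≤ ∫ p : ℝ × ℝ, ker n p.1 p.2 := by
    refine integral_mono (ker_integrable hm0) (ker_integrable hn0) fun p => ?_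
    simp only [ker]
    by_cases hx : bmp p.1 = 0
    · simp [hx]
    by_cases hy : bmp p.2 = 0
    · simp [hy]
    have h1 := bmp_ne hx
    have h2 := bmp_ne hy
    have h5 : 0 ≤ bmp p.1 * bmp p.2 := mul_nonneg (bmp_nonneg _) (bmp_nonneg _)
    exact div_le_div_of_nonneg_left h5 (by linarith) (by linarith)
  have hpi := Real.pi_pos
  gcongr

/-- pairing of distinct translates -/
theorem pair_ne {l k : ℤ} (h : l ≠ k) :
    inner ℂ ((phi l).toLp 2 (volume : Measure ℝ))
      (hilbertL2 ((phi k).toLp 2 (volume : Measure ℝ))) = (cc (l - k) : ℂ) := by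
  have hlk : l - k ≠ 0 := sub_ne_zero.mpr h
  rw [pair_eq']
  have h1 : ∀ x : ℝ, (starRingEnd ℂ) (phi l x) * 𝓕⁻ (fun ξ => sy ξ * 𝓕 (phi k) ξ) x
      = (1 / π : ℂ) * ∫ y, ((bmp (x - l) * bmp (y - k) / (x - y) : ℝ) : ℂ) := by
    intro x
    by_cases hx : bmp (x - l) = 0
    · simp [hx]
    · have hx' := bmp_ne hx
      rw [hilbert_pointwise (phi k) (δ := 1 / 2) (by norm_num)]
      · rw [phi_apply, Complex.conj_ofReal, mul_left_comm, ← integral_const_mul]
        congr 1
        refine integral_congr_ae (Filter.Eventually.of_forall fun y => ?_)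
        simp only [phi_apply]
        push_cast
        ring
      · intro y hy
        rw [phi_apply, bmp_zero]
        · simp
        · rw [abs_lt] at hy
          rcases lt_or_gt_of_ne h with h | h
          · left
            have : (l : ℝ) + 1 ≤ k := by exact_mod_cast h
            linarith [hx'.1, hx'.2, hy.1, hy.2]
          · right
            have : (k : ℝ) + 1 ≤ l := by exact_mod_cast h
            linarith [hx'.1, hx'.2, hy.1, hy.2]
  simp_rw [h1]
  rw [integral_const_mul]
  simp_rw [integral_complex_ofReal]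
  unfold cc
  rw [if_neg hlk]
  push_cast
  congr 2
  rw [Measure.volume_eq_prod, integral_prod _ (by
    rw [← Measure.volume_eq_prod]; exact ker_integrable hlk)]
  rw [← integral_add_right_eq_self (fun x => ∫ y, bmp (x - l) * bmp (y - k) / (x - y)) (l : ℝ)]
  refine integral_congr_ae (Filter.Eventually.of_forall fun x => ?_)
  simp only
  rw [← integral_add_right_eq_self
    (fun y => bmp (x + l - l) * bmp (y - k) / (x + l - y)) (k : ℝ)]
  refine integral_congr_ae (Filter.Eventually.of_forall fun y => ?_)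
  simp only [ker, add_sub_cancel_right]
  congr 1
  push_cast
  ring

/-- pairing of a translate with itself -/
theorem pair_self (k : ℤ) :
    inner ℂ ((phi k).toLp 2 (volume : Measure ℝ))
      (hilbertL2 ((phi k).toLp 2 (volume : Measure ℝ))) = (cc (k - k) : ℂ) := by
  rw [pair_eq]
  have hc : cc (k - k) = 0 := by simp [cc]
  rw [hc]
  have h1 : ∀ ξ, 𝓕 (phi k) (-ξ) = (starRingEnd ℂ) (𝓕 (phi k) ξ) := by
    intro ξ
    rw [SchwartzMap.fourier_coe, Real.fourier_eq, Real.fourier_eq, ← integral_conj]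
    refine integral_congr_ae (Filter.Eventually.of_forall fun x => ?_)
    simp only [phi_apply, Circle.smul_def, smul_eq_mul, map_mul, Complex.conj_ofReal,
      inner_neg_right, neg_neg, ← Circle.coe_inv_eq_conj]
    rw [← AddChar.map_neg_eq_inv]
    simp
  set f : ℝ → ℂ := fun ξ => (starRingEnd ℂ) (𝓕 (phi k) ξ) * (sy ξ * 𝓕 (phi k) ξ) with hf
  have h2 : ∀ ξ, f (-ξ) = - f ξ := by
    intro ξ
    simp only [hf]
    rw [h1, Complex.conj_conj]
    have : sy (-ξ) = - sy ξ := by
      simp [sy, Left.sign_neg]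
    rw [this]
    ring
  have h3 : ∫ ξ, f ξ = ∫ ξ, f (-ξ) := (integral_neg_eq_self f volume).symm
  simp_rw [h2] at h3
  rw [integral_neg] at h3
  have : (2 : ℂ) * ∫ ξ, f ξ = 0 := by linear_combination h3
  simpa using this

theorem pair_all (l k : ℤ) :
    inner ℂ ((phi l).toLp 2 (volume : Measure ℝ))
      (hilbertL2 ((phi k).toLp 2 (volume : Measure ℝ))) = (cc (l - k) : ℂ) := by
  by_cases h : l = k
  · subst h; exact pair_self l
  · exact pair_ne h

end Pool.Agent.Helper45.Umd
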