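import Mathlib
import Pool.Agent.Helper45.Umd.ShiftBdd
import Pool.Agent.Helper45.Umd.Kernel
set_option autoImplicit false

/-! Two-sided bounds for the coefficients of the shift operators. -/

namespace Pool.Agent.Helper45.Umd

open Finset

theorem sum_num {f : ℤ → ℝ} : ∀ n, ∑ v : D n, f (num n v) = ∑ i ∈ range (4 ^ n), f i
  | 0 => by
      show ∑ v : Unit, f (num 0 v) = _
      simp [num]
  | n + 1 => by
      rw [sum_D_succ]
      have h1 : ∀ a : Fin 4, ∑ w : D n, f (num (n + 1) (a, w))
          = ∑ i ∈ range (4 ^ n), f ((a.val : ℤ) * 4 ^ n + i) := by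
        intro a
        have := sum_num (f := fun z => f ((a.val : ℤ) * 4 ^ n + z)) n
        exact this
      simp_rw [h1]
      have h2 : 4 ^ (n + 1) = 4 ^ n + 4 ^ n + 4 ^ n + 4 ^ n := by ring
      rw [h2, Finset.sum_range_add, Finset.sum_range_add, Finset.sum_range_add,
        Fin.sum_univ_four]
      have h3 : (3 : Fin 4).val = 3 := rfl
      simp only [Fin.val_zero, Fin.val_one, Fin.val_two, h3]
      push_cast
      congr 1
      · congr 1
        · congr 1
          · refine Finset.sum_congr rfl fun i _ => ?_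
            congr 1; ring
          · refine Finset.sum_congr rfl fun i _ => ?_
            congr 1; ring
        · refine Finset.sum_congr rfl fun i _ => ?_
          congr 1; ring
      · refine Finset.sum_congr rfl fun i _ => ?_
        congr 1; ring

theorem num_nonneg : ∀ n (v : D n), 0 ≤ num n v
  | 0, _ => le_refl _
  | n + 1, v => by
      simp only [num]
      have := num_nonneg n v.2
      positivity

theorem num_lt : ∀ n (v : D n), num n v < 4 ^ n
  | 0, _ => by simp [num]
  | n + 1, v => by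
      simp only [num]
      have h1 := num_lt n v.2
      have h2 : (v.1.val : ℤ) ≤ 3 := by have := v.1.isLt; omega
      have h3 : (0 : ℤ) ≤ 4 ^ n := by positivity
      have h4 : (v.1.val : ℤ) * 4 ^ n ≤ 3 * 4 ^ n := by gcongr
      rw [pow_succ]; linarith

/-- the double harmonic sum -/
theorem double_sum (m : ℕ) :
    ∑ i ∈ range m, ∑ j ∈ range m, (1 : ℝ) / (i + j + 1) ≤ 3 * m := by
  induction m with
  | zero => simp
  | succ m ih =>
    rw [Finset.sum_range_succ]
    simp_rw [Finset.sum_range_succ]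
    rw [Finset.sum_add_distrib]
    have h1 : ∑ i ∈ range m, (1 : ℝ) / (i + m + 1) ≤ 1 := by
      calc ∑ i ∈ range m, (1 : ℝ) / (i + m + 1) ≤ ∑ _i ∈ range m, (1 : ℝ) / (m + 1) := by
            refine Finset.sum_le_sum fun i _ => ?_
            have : (0 : ℝ) ≤ i := by positivity
            exact one_div_le_one_div_of_le (by positivity) (by linarith)
        _ = m / (m + 1) := by rw [Finset.sum_const, card_range, nsmul_eq_mul]; ring
        _ ≤ 1 := by rw [div_le_one (by positivity)]; linarith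
    have h2 : ∑ j ∈ range m, (1 : ℝ) / (m + j + 1) ≤ 1 := by
      refine le_trans (le_of_eq ?_) h1
      refine Finset.sum_congr rfl fun i _ => ?_
      congr 1; ring
    have h3 : (1 : ℝ) / (m + m + 1) ≤ 1 := by
      rw [div_le_one (by positivity)]
      have : (0 : ℝ) ≤ m := by positivity
      linarith
    push_cast
    linarith

theorem cbar_one_upper (n : ℕ) : cbar cc n 1 ≤ 6 * (Ib ^ 2 / Real.pi) / 4 ^ n := by
  have hpi := Real.pi_pos
  have hI := Ib_pos
  unfold cbar kmean
  have h1 : ∑ v : D n, ∑ v' : D n, cc (1 * 4 ^ n + num n v - num n v')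
      ≤ 2 * (Ib ^ 2 / Real.pi) * (3 * 4 ^ n) := by
    calc ∑ v : D n, ∑ v' : D n, cc (1 * 4 ^ n + num n v - num n v')
        ≤ ∑ v : D n, ∑ v' : D n, 2 * (Ib ^ 2 / Real.pi) *
            (1 / (((4 ^ n + num n v - num n v' : ℤ)) : ℝ)) := by
          refine Finset.sum_le_sum fun v _ => Finset.sum_le_sum fun v' _ => ?_
          have h1 := num_nonneg n v
          have h2 := num_lt n v'
          have h3 : 1 ≤ 1 * 4 ^ n + num n v - num n v' := by linarith
          have := cc_upper h3
          refine this.trans (le_of_eq ?_)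
          rw [one_mul]
          field_simp
      _ = ∑ i ∈ range (4 ^ n), ∑ j ∈ range (4 ^ n), 2 * (Ib ^ 2 / Real.pi) *
            (1 / (((4 ^ n + i - j : ℤ)) : ℝ)) := by
          rw [sum_num (f := fun z => ∑ v' : D n, 2 * (Ib ^ 2 / Real.pi) *
            (1 / (((4 ^ n + z - num n v' : ℤ)) : ℝ)))]
          refine Finset.sum_congr rfl fun i _ => ?_
          exact sum_num (f := fun z => 2 * (Ib ^ 2 / Real.pi) *
            (1 / (((4 ^ n + i - z : ℤ)) : ℝ))) n
      _ = 2 * (Ib ^ 2 / Real.pi) * ∑ i ∈ range (4 ^ n), ∑ j ∈ range (4 ^ n),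
            (1 : ℝ) / (i + j + 1) := by
          rw [Finset.mul_sum]
          refine Finset.sum_congr rfl fun i _ => ?_
          rw [Finset.mul_sum, ← Finset.sum_range_reflect]
          refine Finset.sum_congr rfl fun j hj => ?_
          have hj' : j < 4 ^ n := Finset.mem_range.mp hj
          congr 2
          have : ((4 ^ n - 1 - j : ℕ) : ℤ) = 4 ^ n - 1 - j := by
            have : (((4 ^ n - 1 - j : ℕ) : ℤ)) = ((4 ^ n : ℕ) : ℤ) - 1 - j := by omega
            rw [this]; push_cast; ring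
          rw [this]
          push_cast
          ring
      _ ≤ 2 * (Ib ^ 2 / Real.pi) * (3 * 4 ^ n) := by
          have := double_sum (4 ^ n)
          push_cast at this
          gcongr
  calc ((4 : ℝ) ^ n)⁻¹ ^ 2 * ∑ v : D n, ∑ v' : D n, cc (1 * 4 ^ n + num n v - num n v')
      ≤ ((4 : ℝ) ^ n)⁻¹ ^ 2 * (2 * (Ib ^ 2 / Real.pi) * (3 * 4 ^ n)) := by gcongr
    _ = _ := by field_simp; ring

theorem kmean_mono {n : ℕ} {k k' : D n → D n → ℝ} (h : ∀ v v', k v v' ≤ k' v v') :
    kmean n k ≤ kmean n k' := by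
  unfold kmean
  gcongr with v _ v' _
  exact h v v'

theorem kmean_const (n : ℕ) (a : ℝ) : kmean n (fun _ _ => a) = a := by
  unfold kmean
  simp only [Finset.sum_const, Finset.card_univ, card_D, nsmul_eq_mul]
  push_cast
  field_simp

theorem cbar_three_le (n : ℕ) : cbar cc n 3 ≤ cbar cc n 1 := by
  unfold cbar
  refine kmean_mono fun v v' => ?_
  have h1 := num_nonneg n v
  have h2 := num_lt n v'
  have h3 : (0 : ℤ) < 4 ^ n := by positivity
  exact cc_anti (by linarith) (by linarith)

theorem cbar_three_nonneg (n : ℕ) : 0 ≤ cbar cc n 3 := by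
  have h0 := kmean_const n 0
  unfold cbar
  rw [← h0]
  refine kmean_mono fun v v' => ?_
  have h1 := num_nonneg n v
  have h2 := num_lt n v'
  have h3 : (0 : ℤ) < 4 ^ n := by positivity
  have h4 : 1 ≤ 3 * 4 ^ n + num n v - num n v' := by linarith
  refine le_trans ?_ (cc_lower h4)
  have h5 : (0 : ℝ) < ((3 * 4 ^ n + num n v - num n v' : ℤ) : ℝ) := by
    exact_mod_cast (by linarith : (0 : ℤ) < 3 * 4 ^ n + num n v - num n v')
  have hpi := Real.pi_pos
  positivity

theorem cbar_one_lower (n : ℕ) : (Ib ^ 2 / Real.pi) / (4 * 4 ^ n) ≤ cbar cc n 1 := by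
  have h0 := kmean_const n ((Ib ^ 2 / Real.pi) / (4 * 4 ^ n))
  unfold cbar
  rw [← h0]
  refine kmean_mono fun v v' => ?_
  have h1 := num_nonneg n v
  have h2 := num_lt n v'
  have h1' := num_nonneg n v'
  have h2' := num_lt n v
  have h3 : (0 : ℤ) < 4 ^ n := by positivity
  have h4 : 1 ≤ 1 * 4 ^ n + num n v - num n v' := by linarith
  refine le_trans ?_ (cc_lower h4)
  have h5 : (0 : ℝ) < ((1 * 4 ^ n + num n v - num n v' : ℤ) : ℝ) := by
    exact_mod_cast (by linarith : (0 : ℤ) < 1 * 4 ^ n + num n v - num n v')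
  have h6 : ((1 * 4 ^ n + num n v - num n v' : ℤ) : ℝ) ≤ 2 * 4 ^ n := by
    have : 1 * 4 ^ n + num n v - num n v' ≤ 2 * 4 ^ n := by linarith
    exact_mod_cast this
  have hpi := Real.pi_pos
  rw [div_div]
  refine div_le_div_of_nonneg_left (by positivity) (by positivity) ?_
  nlinarith

/-- the constant `∫φ² / π` -/
noncomputable def qb : ℝ := Ib ^ 2 / Real.pi

theorem qb_pos : 0 < qb := by
  have := Ib_pos
  have := Real.pi_pos
  unfold qb
  positivity

theorem theta_lower (n : ℕ) : qb / 8 ≤ theta cc n := by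
  unfold theta qb
  have h1 := cbar_three_le n
  have h2 := cbar_one_lower n
  have h3 : (0 : ℝ) < 4 ^ n := by positivity
  have h4 : 4 ^ n * ((Ib ^ 2 / Real.pi) / (4 * 4 ^ n)) = (Ib ^ 2 / Real.pi) / 4 := by
    field_simp
  have h5 : 4 ^ n * ((Ib ^ 2 / Real.pi) / (4 * 4 ^ n)) ≤ 4 ^ n * cbar cc n 1 := by gcongr
  have h6 : 4 ^ n * cbar cc n 3 ≤ 4 ^ n * cbar cc n 1 := by gcongr
  nlinarith

theorem theta_upper (n : ℕ) : theta cc n ≤ 9 / 2 * qb := by
  unfold theta qb
  have h1 := cbar_three_nonneg n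
  have h2 := cbar_one_upper n
  have h3 : (0 : ℝ) < 4 ^ n := by positivity
  have h4 : 4 ^ n * (6 * (Ib ^ 2 / Real.pi) / 4 ^ n) = 6 * (Ib ^ 2 / Real.pi) := by
    field_simp
  have h5 : 4 ^ n * cbar cc n 1 ≤ 4 ^ n * (6 * (Ib ^ 2 / Real.pi) / 4 ^ n) := by gcongr
  have h6 : 0 ≤ 4 ^ n * cbar cc n 3 := by positivity
  nlinarith

end Pool.Agent.Helper45.Umd
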