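import Mathlib
import Pool.Agent.Helper45.Umd.Alg
import Pool.Agent.Helper45.Umd.Theta
set_option autoImplicit false

/-! Values of the testing polynomials at the eigenvalues of the model semigroup. -/

namespace Pool.Agent.Helper45.Umd

open Finset Polynomial

/-- ratio between neighbouring rates -/
def ell : ℕ := 10 ^ 6

/-- ratio between neighbouring scales -/
def LL : ℕ := ell ^ 2

theorem ell_pos : 0 < ell := by unfold ell; norm_num
theorem LL_big : 7 ≤ LL := by unfold LL ell; norm_num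

/-- the times `L^n` -/
def NN (n : ℕ) : ℕ := LL ^ n

theorem NN_pos (n : ℕ) : 0 < NN n := pow_pos (lt_of_lt_of_le (by norm_num) LL_big) n

theorem six_sig_le : ∀ n, 6 * sig NN n ≤ NN n
  | 0 => by simp [sig, NN]
  | n + 1 => by
      rw [sig_succ]
      have h1 := six_sig_le n
      have h2 : NN (n + 1) = LL * NN n := by simp [NN, pow_succ]; ring
      rw [h2]
      have h3 := LL_big
      nlinarith [NN_pos n]

theorem three_sig_le (n : ℕ) : 3 * sig NN n ≤ NN n := by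
  have := six_sig_le n
  omega

/-- rates on the `b` part -/
noncomputable def mu (m : ℕ) : ℝ := Real.log 2 / NN m
/-- rates on the `a` part -/
noncomputable def lam (m : ℕ) : ℝ := Real.log 2 / (ell * NN m)

theorem mu_pos (m : ℕ) : 0 < mu m := by
  have := NN_pos m
  have h2 := Real.log_pos (by norm_num : (1 : ℝ) < 2)
  unfold mu
  positivity

theorem lam_pos (m : ℕ) : 0 < lam m := by
  have := NN_pos m
  have h2 := Real.log_pos (by norm_num : (1 : ℝ) < 2)
  have := ell_pos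
  unfold lam
  positivity

theorem eval_PP (θ : ℕ → ℝ) (N : ℕ → ℕ) (z : ℝ) (n : ℕ) :
    (PP θ N n).eval z = ∑ j ∈ range n,
      (θ j) ^ 2 * (1 - z ^ N j) ^ 2 * z ^ (N j - 3 * sig N j) * ((PA N j).eval z) ^ 2 := by
  induction n with
  | zero => simp [PP]
  | succ n ih =>
    rw [Finset.sum_range_succ, ← ih]
    simp [PP]

theorem PA_nonneg (N : ℕ → ℕ) {z : ℝ} (hz : 0 ≤ z) : ∀ n, 0 ≤ (PA N n).eval z
  | 0 => by simp [PA]
  | n + 1 => by
      have ih := PA_nonneg N hz n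
      simp only [PA, eval_mul, eval_add, eval_C, eval_one, eval_pow, eval_X]
      positivity

theorem PA_le_one (N : ℕ → ℕ) {z : ℝ} (hz : 0 ≤ z) (hz1 : z ≤ 1) : ∀ n, (PA N n).eval z ≤ 1
  | 0 => by simp [PA]
  | n + 1 => by
      have ih := PA_le_one N hz hz1 n
      have ih0 := PA_nonneg N hz n
      simp only [PA, eval_mul, eval_add, eval_C, eval_one, eval_pow, eval_X]
      have h1 : z ^ N n ≤ 1 := pow_le_one₀ hz hz1
      have h2 : z ^ (2 * N n) ≤ 1 := pow_le_one₀ hz hz1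
      have h3 : z ^ (3 * N n) ≤ 1 := pow_le_one₀ hz hz1
      have h4 : 1 / 4 * (1 + z ^ N n + z ^ (2 * N n) + z ^ (3 * N n)) ≤ 1 := by linarith
      exact mul_le_one₀ h4 ih0 ih

theorem PA_lower (N : ℕ → ℕ) {z : ℝ} (hz : 0 ≤ z) (hz1 : z ≤ 1) :
    ∀ n, z ^ (3 * sig N n) ≤ (PA N n).eval z
  | 0 => by simp [PA, sig]
  | n + 1 => by
      have ih := PA_lower N hz hz1 n
      simp only [PA, eval_mul, eval_add, eval_C, eval_one, eval_pow, eval_X]
      rw [sig_succ, mul_add, pow_add, mul_comm]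
      have h1 : z ^ (3 * N n) ≤ z ^ N n := pow_le_pow_of_le_one hz hz1 (by omega)
      have h2 : z ^ (3 * N n) ≤ z ^ (2 * N n) := pow_le_pow_of_le_one hz hz1 (by omega)
      have h3 : z ^ (3 * N n) ≤ 1 := pow_le_one₀ hz hz1
      have h4 : z ^ (3 * N n) ≤ 1 / 4 * (1 + z ^ N n + z ^ (2 * N n) + z ^ (3 * N n)) := by
        linarith
      have h5 : 0 ≤ z ^ (3 * sig N n) := by positivity
      have h6 : 0 ≤ z ^ (3 * N n) := by positivity
      gcongr

theorem exp_mu_pow (m : ℕ) : Real.exp (-mu m) ^ NN m = 1 / 2 := by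
  rw [← Real.exp_nat_mul]
  have h1 : (NN m : ℝ) ≠ 0 := by exact_mod_cast (NN_pos m).ne'
  have h2 : (NN m : ℝ) * -mu m = - Real.log 2 := by
    unfold mu; field_simp
  rw [h2, Real.exp_neg, Real.exp_log (by norm_num)]
  norm_num

theorem theta_nonneg (n : ℕ) : 0 ≤ theta cc n := by
  have := theta_lower n
  have := qb_pos
  linarith

theorem PP_lower {n m : ℕ} (hm : m < n) :
    (qb / 8) ^ 2 / 32 ≤ (PP (theta cc) NN n).eval (Real.exp (-mu m)) := by
  set z := Real.exp (-mu m) with hz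
  have hz0 : 0 < z := Real.exp_pos _
  have hz1 : z ≤ 1 := by
    rw [hz]; exact Real.exp_le_one_iff.mpr (by linarith [mu_pos m])
  rw [eval_PP]
  have hterm : ∀ j ∈ range n, 0 ≤ (theta cc j) ^ 2 * (1 - z ^ NN j) ^ 2 *
      z ^ (NN j - 3 * sig NN j) * ((PA NN j).eval z) ^ 2 := by
    intro j _
    positivity
  refine le_trans ?_ (Finset.single_le_sum hterm (Finset.mem_range.mpr hm))
  have hp : z ^ NN m = 1 / 2 := exp_mu_pow m
  have h1 : (1 / 2 : ℝ) ≤ z ^ (NN m - 3 * sig NN m) := by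
    rw [← hp]
    exact pow_le_pow_of_le_one hz0.le hz1 (by omega)
  have h2 : (1 / 2 : ℝ) ≤ (PA NN m).eval z := by
    refine le_trans ?_ (PA_lower NN hz0.le hz1 m)
    rw [← hp]
    exact pow_le_pow_of_le_one hz0.le hz1 (three_sig_le m)
  have h3 := theta_lower m
  have h4 := qb_pos
  rw [hp]
  calc (qb / 8) ^ 2 / 32 = (qb / 8) ^ 2 * (1 - 1 / 2) ^ 2 * (1 / 2) * (1 / 2) ^ 2 := by ring
    _ ≤ _ := by gcongr

/-- bound for one term at a rate `λ` -/
theorem term_small {z lmb : ℝ} (hz : z = Real.exp (-lmb)) (hl : 0 < lmb) (j : ℕ) :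
    (1 - z ^ NN j) ^ 2 * z ^ (NN j - 3 * sig NN j) * ((PA NN j).eval z) ^ 2 ≤ lmb * NN j := by
  have hz0 : 0 < z := by rw [hz]; exact Real.exp_pos _
  have hz1 : z ≤ 1 := by
    rw [hz]; exact Real.exp_le_one_iff.mpr (by linarith)
  have h1 : z ^ (NN j - 3 * sig NN j) ≤ 1 := pow_le_one₀ hz0.le hz1
  have h2 := PA_le_one NN hz0.le hz1 j
  have h3 := PA_nonneg NN hz0.le j
  have h4 : z ^ NN j ≤ 1 := pow_le_one₀ hz0.le hz1
  have h4' : 0 ≤ z ^ NN j := by positivity
  have h5 : 1 - z ^ NN j ≤ lmb * NN j := by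
    rw [hz, ← Real.exp_nat_mul]
    have := Real.add_one_le_exp ((NN j : ℝ) * -lmb)
    linarith
  have h6 : (1 - z ^ NN j) ^ 2 ≤ 1 - z ^ NN j := by nlinarith
  have h7 : ((PA NN j).eval z) ^ 2 ≤ 1 := pow_le_one₀ h3 h2
  have h8 : 0 ≤ (1 - z ^ NN j) ^ 2 := by positivity
  calc _ ≤ (1 - z ^ NN j) ^ 2 * 1 * 1 := by gcongr
    _ ≤ _ := by linarith

theorem term_small' {z lmb : ℝ} (hz : z = Real.exp (-lmb)) (hl : 0 < lmb) (j : ℕ) :
    (1 - z ^ NN j) ^ 2 * z ^ (NN j - 3 * sig NN j) * ((PA NN j).eval z) ^ 2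
      ≤ 2 / (lmb * NN j) := by
  have hz0 : 0 < z := by rw [hz]; exact Real.exp_pos _
  have hz1 : z ≤ 1 := by
    rw [hz]; exact Real.exp_le_one_iff.mpr (by linarith)
  have h2 := PA_le_one NN hz0.le hz1 j
  have h3 := PA_nonneg NN hz0.le j
  have h4 : z ^ NN j ≤ 1 := pow_le_one₀ hz0.le hz1
  have h4' : 0 ≤ z ^ NN j := by positivity
  have h6 : (1 - z ^ NN j) ^ 2 ≤ 1 := by
    have : 0 ≤ 1 - z ^ NN j := by linarith
    exact pow_le_one₀ this (by linarith)
  have h7 : ((PA NN j).eval z) ^ 2 ≤ 1 := pow_le_one₀ h3 h2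
  have hN : (0 : ℝ) < NN j := by exact_mod_cast NN_pos j
  have h9 : z ^ (NN j - 3 * sig NN j) ≤ 2 / (lmb * NN j) := by
    rw [hz, ← Real.exp_nat_mul]
    have e1 : (NN j : ℝ) / 2 ≤ ((NN j - 3 * sig NN j : ℕ) : ℝ) := by
      have := six_sig_le j
      rw [Nat.cast_sub (three_sig_le j)]
      push_cast
      have h6 : (6 : ℝ) * sig NN j ≤ NN j := by exact_mod_cast this
      linarith
    have e2 : ((NN j - 3 * sig NN j : ℕ) : ℝ) * -lmb ≤ -(lmb * NN j / 2) := by nlinarith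
    have e3 : Real.exp (((NN j - 3 * sig NN j : ℕ) : ℝ) * -lmb) ≤ Real.exp (-(lmb * NN j / 2)) :=
      Real.exp_le_exp.mpr e2
    refine e3.trans ?_
    rw [Real.exp_neg]
    have e4 : lmb * NN j / 2 ≤ Real.exp (lmb * NN j / 2) := by
      have := Real.add_one_le_exp (lmb * NN j / 2)
      linarith
    have e5 : 0 < lmb * NN j / 2 := by positivity
    calc (Real.exp (lmb * NN j / 2))⁻¹ ≤ (lmb * NN j / 2)⁻¹ := inv_anti₀ e5 e4
      _ = _ := by rw [inv_div]
  have h10 : 0 ≤ z ^ (NN j - 3 * sig NN j) := by positivity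
  calc _ ≤ 1 * z ^ (NN j - 3 * sig NN j) * 1 := by gcongr
    _ ≤ _ := by linarith

theorem half_geom (k : ℕ) : ∑ i ∈ range k, (1 / 2 : ℝ) ^ i ≤ 2 := by
  have h := geom_sum_eq (by norm_num : (1 / 2 : ℝ) ≠ 1) k
  rw [h, div_le_iff_of_neg (by norm_num)]
  have : (0 : ℝ) ≤ (1 / 2) ^ k := by positivity
  linarith

theorem PP_upper (n m : ℕ) :
    (PP (theta cc) NN n).eval (Real.exp (-lam m)) ≤ (9 / 2 * qb) ^ 2 * (8 / ell) := by
  set z := Real.exp (-lam m) with hz
  have hz0 : 0 < z := Real.exp_pos _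
  have hq := qb_pos
  have hell : (0 : ℝ) < ell := by exact_mod_cast ell_pos
  have hlog : 0 < Real.log 2 := Real.log_pos (by norm_num)
  have hlog1 : Real.log 2 ≤ 1 := by linarith [Real.log_two_lt_d9]
  have hlog2 : 2 / 3 ≤ Real.log 2 := by linarith [Real.log_two_gt_d9]
  have hL : (2 : ℝ) ≤ LL := by exact_mod_cast (le_trans (by norm_num) LL_big)
  have hLell : (LL : ℝ) = ell ^ 2 := by unfold LL; push_cast; rfl
  rw [eval_PP]
  set g : ℕ → ℝ := fun j => (1 - z ^ NN j) ^ 2 * z ^ (NN j - 3 * sig NN j) *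
    ((PA NN j).eval z) ^ 2 with hg
  have hg0 : ∀ j, 0 ≤ g j := fun j => by simp only [hg]; positivity
  have h1 : ∑ j ∈ range n, (theta cc j) ^ 2 * (1 - z ^ NN j) ^ 2 *
      z ^ (NN j - 3 * sig NN j) * ((PA NN j).eval z) ^ 2 ≤ (9 / 2 * qb) ^ 2 * ∑ j ∈ range n, g j := by
    rw [Finset.mul_sum]
    refine Finset.sum_le_sum fun j _ => ?_
    have e1 : (theta cc j) ^ 2 ≤ (9 / 2 * qb) ^ 2 := by
      have := theta_upper j
      have := theta_nonneg j
      gcongr
    calc _ = (theta cc j) ^ 2 * g j := by simp only [hg]; ring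
      _ ≤ _ := mul_le_mul_of_nonneg_right e1 (hg0 j)
  refine h1.trans ?_
  gcongr
  -- small indices
  have hA : ∀ j, j ≤ m → g j ≤ 1 / ell * (1 / 2) ^ (m - j) := by
    intro j hj
    refine (term_small hz (lam_pos m) j).trans ?_
    unfold lam NN
    push_cast
    have e1 : (LL : ℝ) ^ m = LL ^ j * LL ^ (m - j) := by
      rw [← pow_add]; congr 1; omega
    rw [e1]
    have e2 : (0 : ℝ) < (LL : ℝ) ^ j := by positivity
    have e3 : (2 : ℝ) ^ (m - j) ≤ (LL : ℝ) ^ (m - j) := by gcongr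
    have e4 : (0 : ℝ) < (2 : ℝ) ^ (m - j) := by positivity
    calc Real.log 2 / (ell * ((LL : ℝ) ^ j * LL ^ (m - j))) * (LL : ℝ) ^ j
        = Real.log 2 / ell * (1 / (LL : ℝ) ^ (m - j)) := by field_simp
      _ ≤ 1 / ell * (1 / (2 : ℝ) ^ (m - j)) := by
          gcongr
      _ = _ := by rw [one_div_pow]
  have hB : ∀ i, g (m + 1 + i) ≤ 3 / ell * (1 / 2) ^ i := by
    intro i
    refine (term_small' hz (lam_pos m) _).trans ?_
    unfold lam NN
    push_cast
    rw [pow_add, pow_add, pow_one]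
    have e3 : (2 : ℝ) ^ i ≤ (LL : ℝ) ^ i := by gcongr
    have e4 : (0 : ℝ) < (2 : ℝ) ^ i := by positivity
    calc 2 / (Real.log 2 / (ell * (LL : ℝ) ^ m) * ((LL : ℝ) ^ m * LL * LL ^ i))
        = (2 / Real.log 2) * (ell / LL) * (1 / (LL : ℝ) ^ i) := by field_simp
      _ = (2 / Real.log 2) * (1 / ell) * (1 / (LL : ℝ) ^ i) := by
          have e5 : (ell / LL : ℝ) = 1 / ell := by rw [hLell]; field_simp
          rw [e5]
      _ ≤ 3 * (1 / ell) * (1 / (2 : ℝ) ^ i) := by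
          gcongr
          rw [div_le_iff₀ hlog]; linarith
      _ = _ := by rw [one_div_pow]; ring
  have h2 : ∑ j ∈ range n, g j ≤ ∑ j ∈ range (m + 1 + n), g j := by
    refine Finset.sum_le_sum_of_subset_of_nonneg ?_ fun j _ _ => hg0 j
    intro j hj
    rw [Finset.mem_range] at hj ⊢
    omega
  refine h2.trans ?_
  rw [Finset.sum_range_add]
  have h3 : ∑ j ∈ range (m + 1), g j ≤ 1 / ell * 2 := by
    calc ∑ j ∈ range (m + 1), g j ≤ ∑ j ∈ range (m + 1), 1 / ell * (1 / 2 : ℝ) ^ (m - j) := by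
          refine Finset.sum_le_sum fun j hj => hA j ?_
          rw [Finset.mem_range] at hj; omega
      _ = 1 / ell * ∑ j ∈ range (m + 1), (1 / 2 : ℝ) ^ j := by
          rw [← Finset.mul_sum, ← Finset.sum_range_reflect]
          congr 1
          refine Finset.sum_congr rfl fun j hj => ?_
          rw [Finset.mem_range] at hj
          congr 1
          omega
      _ ≤ 1 / ell * 2 := by gcongr; exact half_geom _
  have h4 : ∑ i ∈ range n, g (m + 1 + i) ≤ 3 / ell * 2 := by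
    calc ∑ i ∈ range n, g (m + 1 + i) ≤ ∑ i ∈ range n, 3 / ell * (1 / 2 : ℝ) ^ i :=
          Finset.sum_le_sum fun i _ => hB i
      _ = 3 / ell * ∑ i ∈ range n, (1 / 2 : ℝ) ^ i := by rw [Finset.mul_sum]
      _ ≤ 3 / ell * 2 := by gcongr; exact half_geom _
  calc _ ≤ 1 / (ell : ℝ) * 2 + 3 / ell * 2 := by linarith
    _ = 8 / ell := by ring

/-- the gap -/
noncomputable def gap : ℝ := qb ^ 2 / 4096

theorem gap_pos : 0 < gap := by
  have := qb_pos
  unfold gap; positivity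

theorem PP_gap {n m : ℕ} (hm : m < n) (m' : ℕ) :
    gap ≤ (PP (theta cc) NN n).eval (Real.exp (-mu m))
      - (PP (theta cc) NN n).eval (Real.exp (-lam m')) := by
  have h1 := PP_lower hm
  have h2 := PP_upper n m'
  have h3 := qb_pos
  unfold gap
  have h4 : (9 / 2 * qb) ^ 2 * (8 / ell) ≤ qb ^ 2 / 4096 := by
    unfold ell
    push_cast
    nlinarith [sq_nonneg qb]
  have h5 : (qb / 8) ^ 2 / 32 = 2 * (qb ^ 2 / 4096) := by ring
  linarith

end Pool.Agent.Helper45.Umd
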