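import Mathlib
import Pool.Agent.Helper45.Umd.Est
set_option autoImplicit false

/-! Coefficients of the model semigroup. -/

namespace Pool.Agent.Helper45.Umd

open Finset Filter

/-- `1 / (k (log₂ k + 1))` -/
noncomputable def ff (k : ℕ) : ℝ := 1 / (k * (Nat.log 2 k + 1))

theorem ff_nonneg (k : ℕ) : 0 ≤ ff k := by unfold ff; positivity

theorem ff_anti : ∀ ⦃m n : ℕ⦄, 0 < m → m ≤ n → ff n ≤ ff m := by
  intro m n hm hmn
  unfold ff
  have h1 : (0 : ℝ) < m := by exact_mod_cast hm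
  have h2 : (m : ℝ) ≤ n := by exact_mod_cast hmn
  have h3 : (Nat.log 2 m : ℝ) ≤ Nat.log 2 n := by exact_mod_cast Nat.log_mono_right hmn
  gcongr

theorem ff_not_summable : ¬ Summable ff := by
  rw [← summable_condensed_iff_of_nonneg ff_nonneg ff_anti]
  have h1 : (fun k : ℕ => (2 : ℝ) ^ k * ff (2 ^ k)) = fun k : ℕ => 1 / ((k : ℝ) + 1) := by
    funext k
    unfold ff
    rw [Nat.log_pow (by norm_num)]
    push_cast
    field_simp
  rw [h1]
  intro h
  have h2 : Summable (fun k : ℕ => 1 / (((k + 1 : ℕ) : ℝ))) := by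
    refine h.congr fun k => ?_
    push_cast
    rfl
  rw [summable_nat_add_iff 1 (f := fun k : ℕ => 1 / (k : ℝ))] at h2
  exact Real.not_summable_one_div_natCast h2

/-- `k f(k)²` -/
noncomputable def gg (k : ℕ) : ℝ := k * ff k ^ 2

theorem gg_nonneg (k : ℕ) : 0 ≤ gg k := by unfold gg; positivity

theorem gg_summable : Summable gg := by
  have hmono : ∀ ⦃m n : ℕ⦄, 0 < m → m ≤ n → gg n ≤ gg m := by
    intro m n hm hmn
    have h1 : (0 : ℝ) < m := by exact_mod_cast hm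
    have h2 : (m : ℝ) ≤ n := by exact_mod_cast hmn
    have h3 : (Nat.log 2 m : ℝ) ≤ Nat.log 2 n := by exact_mod_cast Nat.log_mono_right hmn
    have h0 : (0 : ℝ) < n := by linarith
    have e : ∀ k : ℕ, (0 : ℝ) < k → gg k = 1 / (k * (Nat.log 2 k + 1) ^ 2) := by
      intro k hk
      unfold gg ff
      field_simp
    rw [e n h0, e m h1]
    gcongr
  rw [← summable_condensed_iff_of_nonneg gg_nonneg hmono]
  have h1 : (fun k : ℕ => (2 : ℝ) ^ k * gg (2 ^ k)) = fun k : ℕ => 1 / (((k + 1 : ℕ) : ℝ)) ^ 2 := by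
    funext k
    unfold gg ff
    rw [Nat.log_pow (by norm_num)]
    push_cast
    field_simp
  rw [h1, summable_nat_add_iff 1 (f := fun k : ℕ => 1 / (k : ℝ) ^ 2)]
  exact Real.summable_one_div_nat_pow.mpr (by norm_num)

/-- the coefficients of `C` -/
noncomputable def dd (n : ℕ) : ℝ := ff (n + 1)

theorem dd_nonneg (n : ℕ) : 0 ≤ dd n := ff_nonneg _

/-- the Hilbert–Schmidt bound -/
noncomputable def SS : ℝ := ∑' k, gg k

theorem SS_nonneg : 0 ≤ SS := tsum_nonneg gg_nonneg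

theorem sum_dd_sq_le (M : ℕ) : ∑ n ∈ range M, ((n : ℝ) + 1) * dd n ^ 2 ≤ SS := by
  have h1 : ∑ n ∈ range M, ((n : ℝ) + 1) * dd n ^ 2 = ∑ n ∈ range M, gg (n + 1) := by
    refine Finset.sum_congr rfl fun n _ => ?_
    unfold gg dd
    push_cast
    rfl
  rw [h1]
  have h2 : ∑ n ∈ range M, gg (n + 1) ≤ ∑ n ∈ range (M + 1), gg n := by
    rw [Finset.sum_range_succ']
    linarith [gg_nonneg 0]
  exact h2.trans (gg_summable.sum_le_tsum _ fun n _ => gg_nonneg n)

theorem sum_dd_sq_le' (M : ℕ) : ∑ n ∈ range M, dd n ^ 2 ≤ SS := by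
  refine le_trans (Finset.sum_le_sum fun n _ => ?_) (sum_dd_sq_le M)
  have : (0 : ℝ) ≤ n := by positivity
  nlinarith [sq_nonneg (dd n)]

theorem dd_tendsto : Tendsto (fun n : ℕ => ∑ i ∈ range n, dd i) atTop atTop := by
  rw [← not_summable_iff_tendsto_nat_atTop_of_nonneg dd_nonneg]
  unfold dd
  rw [summable_nat_add_iff 1 (f := ff)]
  exact ff_not_summable

/-- the entries of the off-diagonal part -/
noncomputable def ga (t : ℝ) (m' m : ℕ) : ℝ :=
  dd (m' - m) * (Real.exp (-(lam m') * t) - Real.exp (-(mu m) * t))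

theorem lam_le_mu {m' m : ℕ} (h : m ≤ m') : lam m' ≤ mu m := by
  unfold lam mu
  have h1 : (0 : ℝ) < NN m := by exact_mod_cast NN_pos m
  have h2 : (NN m : ℝ) ≤ ell * NN m' := by
    have : NN m ≤ ell * NN m' := by
      have h3 : NN m ≤ NN m' := Nat.pow_le_pow_right (lt_of_lt_of_le (by norm_num) LL_big) h
      have h4 := ell_pos
      nlinarith
    exact_mod_cast this
  have h3 := Real.log_pos (by norm_num : (1 : ℝ) < 2)
  gcongr

theorem mu_succ_le_lam (m : ℕ) : mu (m + 1) ≤ lam m := by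
  unfold lam mu
  have h1 : (0 : ℝ) < NN m := by exact_mod_cast NN_pos m
  have h4 := ell_pos
  have h4' : (0 : ℝ) < ell := by exact_mod_cast h4
  have h2 : (ell * NN m : ℝ) ≤ NN (m + 1) := by
    have : ell * NN m ≤ NN (m + 1) := by
      have h3 : NN (m + 1) = ell ^ 2 * NN m := by
        simp [NN, pow_succ, LL]; ring
      rw [h3]
      nlinarith [NN_pos m]
    exact_mod_cast this
  have h3 := Real.log_pos (by norm_num : (1 : ℝ) < 2)
  gcongr

theorem exp_le_one' {r t : ℝ} (hr : 0 < r) (ht : 0 ≤ t) : Real.exp (-r * t) ≤ 1 := by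
  rw [Real.exp_le_one_iff]; nlinarith

theorem diff_nonneg {t : ℝ} (ht : 0 ≤ t) {m' m : ℕ} (h : m ≤ m') :
    0 ≤ Real.exp (-(lam m') * t) - Real.exp (-(mu m) * t) := by
  have := lam_le_mu h
  rw [sub_nonneg]
  exact Real.exp_le_exp.mpr (by nlinarith)

theorem diff_le_one {t : ℝ} (ht : 0 ≤ t) (m' m : ℕ) :
    Real.exp (-(lam m') * t) - Real.exp (-(mu m) * t) ≤ 1 := by
  have h1 := exp_le_one' (lam_pos m') ht
  have h2 := Real.exp_pos (-(mu m) * t)
  linarith

theorem ga_nonneg {t : ℝ} (ht : 0 ≤ t) {m' m : ℕ} (h : m ≤ m') : 0 ≤ ga t m' m :=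
  mul_nonneg (dd_nonneg _) (diff_nonneg ht h)

theorem telescope {t : ℝ} (ht : 0 ≤ t) (n K : ℕ) :
    ∑ m ∈ range K, (Real.exp (-(lam (m + n)) * t) - Real.exp (-(mu m) * t)) ≤ n + 1 := by
  set g : ℕ → ℝ := fun m => Real.exp (-(mu m) * t) with hg
  have h1 : ∑ m ∈ range K, (Real.exp (-(lam (m + n)) * t) - Real.exp (-(mu m) * t))
      ≤ ∑ m ∈ range K, (g (n + 1 + m) - g m) := by
    refine Finset.sum_le_sum fun m _ => ?_
    have := mu_succ_le_lam (m + n)
    have e : n + 1 + m = m + n + 1 := by ring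
    simp only [hg]
    rw [e]
    gcongr
  refine h1.trans ?_
  rw [Finset.sum_sub_distrib]
  have h2 : ∑ i ∈ range (n + 1 + K), g i = ∑ i ∈ range (n + 1), g i
      + ∑ i ∈ range K, g (n + 1 + i) := Finset.sum_range_add g (n + 1) K
  have h3 : ∑ i ∈ range (K + (n + 1)), g i = ∑ i ∈ range K, g i
      + ∑ i ∈ range (n + 1), g (K + i) := Finset.sum_range_add g K (n + 1)
  rw [add_comm K (n + 1)] at h3
  have h4 : ∑ i ∈ range (n + 1), g (K + i) ≤ n + 1 := by
    calc ∑ i ∈ range (n + 1), g (K + i) ≤ ∑ _i ∈ range (n + 1), (1 : ℝ) :=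
          Finset.sum_le_sum fun i _ => exp_le_one' (mu_pos _) ht
      _ = n + 1 := by simp
  have h5 : 0 ≤ ∑ i ∈ range (n + 1), g i := Finset.sum_nonneg fun i _ => (Real.exp_pos _).le
  linarith

theorem ga_sq_le {t : ℝ} (ht : 0 ≤ t) (M : ℕ) :
    ∑ m' ∈ range M, ∑ m ∈ range (m' + 1), ga t m' m ^ 2 ≤ SS := by
  have h1 : ∑ m' ∈ range M, ∑ m ∈ range (m' + 1), ga t m' m ^ 2
      = ∑ m ∈ range M, ∑ m' ∈ Ico m M, ga t m' m ^ 2 := by
    refine Finset.sum_comm' fun a b => ?_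
    simp only [Finset.mem_range, Finset.mem_Ico]
    omega
  have h2 : ∑ m ∈ range M, ∑ m' ∈ Ico m M, ga t m' m ^ 2
      = ∑ m ∈ range M, ∑ n ∈ range (M - m), ga t (m + n) m ^ 2 := by
    refine Finset.sum_congr rfl fun m _ => ?_
    rw [Finset.sum_Ico_eq_sum_range]
  have h3 : ∑ m ∈ range M, ∑ n ∈ range (M - m), ga t (m + n) m ^ 2
      = ∑ n ∈ range M, ∑ m ∈ range (M - n), ga t (m + n) m ^ 2 := by
    refine Finset.sum_comm' fun a b => ?_
    simp only [Finset.mem_range]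
    omega
  rw [h1, h2, h3]
  refine le_trans (Finset.sum_le_sum fun n _ => ?_) (sum_dd_sq_le M)
  calc ∑ m ∈ range (M - n), ga t (m + n) m ^ 2
      ≤ ∑ m ∈ range (M - n), dd n ^ 2 *
          (Real.exp (-(lam (m + n)) * t) - Real.exp (-(mu m) * t)) := by
        refine Finset.sum_le_sum fun m _ => ?_
        unfold ga
        rw [Nat.add_sub_cancel_left, mul_pow]
        have e1 := diff_nonneg ht (Nat.le_add_right m n)
        have e2 := diff_le_one ht (m + n) m
        have e3 : 0 ≤ dd n ^ 2 := sq_nonneg _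
        refine mul_le_mul_of_nonneg_left ?_ e3
        nlinarith
    _ = dd n ^ 2 * ∑ m ∈ range (M - n),
          (Real.exp (-(lam (m + n)) * t) - Real.exp (-(mu m) * t)) := by rw [Finset.mul_sum]
    _ ≤ dd n ^ 2 * (n + 1) := by
        refine mul_le_mul_of_nonneg_left (telescope ht n _) (sq_nonneg _)
    _ = _ := by ring

end Pool.Agent.Helper45.Umd
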