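import Mathlib
import Pool.Agent.Helper45.Umd.Coef
set_option autoImplicit false

/-! The model semigroup on `ℓ²(ℕ ⊕ ℕ)`. -/

namespace Pool.Agent.Helper45.Umd

open Finset Filter
open scoped Topology

/-- the Hilbert space `ℓ²(ℕ ⊕ ℕ)` over `𝕜` -/
abbrev H2 (𝕜 : Type) [RCLike 𝕜] := lp (fun _ : ℕ ⊕ ℕ => 𝕜) 2

section lemmas
variable {𝕜 : Type} [RCLike 𝕜]

theorem two_toReal : (2 : ENNReal).toReal = 2 := by simp

theorem sq_sum_le (x : H2 𝕜) (s : Finset (ℕ ⊕ ℕ)) : ∑ i ∈ s, ‖x i‖ ^ 2 ≤ ‖x‖ ^ 2 := by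
  have h := lp.sum_rpow_le_norm_rpow (p := 2) (by simp) x s
  simpa using h

theorem norm_le_of_sq (x : H2 𝕜) {C : ℝ} (hC : 0 ≤ C)
    (h : ∀ s : Finset (ℕ ⊕ ℕ), ∑ i ∈ s, ‖x i‖ ^ 2 ≤ C ^ 2) : ‖x‖ ≤ C := by
  refine lp.norm_le_of_forall_sum_le (p := 2) (by simp) hC fun s => ?_
  simpa using h s

theorem mem_of_sq {f : ℕ ⊕ ℕ → 𝕜} {C : ℝ}
    (h : ∀ s : Finset (ℕ ⊕ ℕ), ∑ i ∈ s, ‖f i‖ ^ 2 ≤ C) :
    Memℓp (E := fun _ : ℕ ⊕ ℕ => 𝕜) f 2 := by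
  refine memℓp_gen' (C := C) fun s => ?_
  simpa using h s

theorem sum_inr_le (x : H2 𝕜) (k : ℕ) : ∑ m ∈ range k, ‖x (Sum.inr m)‖ ^ 2 ≤ ‖x‖ ^ 2 := by
  have h := sq_sum_le x ((range k).map Function.Embedding.inr)
  simpa using h

theorem exists_box (s : Finset (ℕ ⊕ ℕ)) : ∃ M, s ⊆ (range M).disjSum (range M) := by
  refine ⟨s.sup (Sum.elim id id) + 1, fun i hi => ?_⟩
  have h := Finset.le_sup (f := Sum.elim id id) hi
  rcases i with i | i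
  · rw [Finset.inl_mem_disjSum, Finset.mem_range]
    exact Nat.lt_succ_of_le h
  · rw [Finset.inr_mem_disjSum, Finset.mem_range]
    exact Nat.lt_succ_of_le h

end lemmas

section op
variable {𝕜 : Type} [RCLike 𝕜]

/-- coordinates of `T t x` -/
noncomputable def Tf (t : ℝ) (x : ℕ ⊕ ℕ → 𝕜) : ℕ ⊕ ℕ → 𝕜
  | .inl k => ((Real.exp (-(lam k) * t) : ℝ) : 𝕜) * x (.inl k)
      + ∑ m ∈ range (k + 1), ((ga t k m : ℝ) : 𝕜) * x (.inr m)
  | .inr m => ((Real.exp (-(mu m) * t) : ℝ) : 𝕜) * x (.inr m)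

theorem Tf_add (t : ℝ) (x y : ℕ ⊕ ℕ → 𝕜) : Tf t (x + y) = Tf t x + Tf t y := by
  funext i
  rcases i with k | m
  · simp only [Tf, Pi.add_apply, mul_add, Finset.sum_add_distrib]
    ring
  · simp only [Tf, Pi.add_apply, mul_add]

theorem Tf_smul (t : ℝ) (c : 𝕜) (x : ℕ ⊕ ℕ → 𝕜) : Tf t (c • x) = c • Tf t x := by
  funext i
  rcases i with k | m
  · simp only [Tf, Pi.smul_apply, smul_eq_mul, mul_add, Finset.mul_sum]
    congr 1
    · ring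
    · refine Finset.sum_congr rfl fun m _ => ?_
      ring
  · simp only [Tf, Pi.smul_apply, smul_eq_mul]
    ring

theorem norm_sum_ga_le {t : ℝ} (x : H2 𝕜) (k : ℕ) :
    ‖∑ m ∈ range (k + 1), ((ga t k m : ℝ) : 𝕜) * x (.inr m)‖ ^ 2
      ≤ (∑ m ∈ range (k + 1), ga t k m ^ 2) * ‖x‖ ^ 2 := by
  calc ‖∑ m ∈ range (k + 1), ((ga t k m : ℝ) : 𝕜) * x (.inr m)‖ ^ 2
      ≤ (∑ m ∈ range (k + 1), |ga t k m| * ‖x (.inr m)‖) ^ 2 := by
        gcongr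
        refine (norm_sum_le _ _).trans (le_of_eq ?_)
        refine Finset.sum_congr rfl fun m _ => ?_
        rw [norm_mul, RCLike.norm_ofReal]
    _ ≤ (∑ m ∈ range (k + 1), |ga t k m| ^ 2) * ∑ m ∈ range (k + 1), ‖x (.inr m)‖ ^ 2 :=
        Finset.sum_mul_sq_le_sq_mul_sq _ _ _
    _ ≤ (∑ m ∈ range (k + 1), ga t k m ^ 2) * ‖x‖ ^ 2 := by
        simp_rw [sq_abs]
        exact mul_le_mul_of_nonneg_left (sum_inr_le x _) (Finset.sum_nonneg fun _ _ => sq_nonneg _)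

theorem norm_add_sq_le_two (a b : 𝕜) : ‖a + b‖ ^ 2 ≤ 2 * ‖a‖ ^ 2 + 2 * ‖b‖ ^ 2 := by
  have h1 := norm_add_le a b
  have h2 : ‖a + b‖ ^ 2 ≤ (‖a‖ + ‖b‖) ^ 2 := by gcongr
  nlinarith [sq_nonneg (‖a‖ - ‖b‖)]

theorem Tf_sq_le {t : ℝ} (ht : 0 ≤ t) (x : H2 𝕜) (s : Finset (ℕ ⊕ ℕ)) :
    ∑ i ∈ s, ‖Tf t x i‖ ^ 2 ≤ (2 + 2 * SS) * ‖x‖ ^ 2 := by
  obtain ⟨M, hM⟩ := exists_box s
  refine (Finset.sum_le_sum_of_subset_of_nonneg hM fun _ _ _ => sq_nonneg _).trans ?_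
  rw [Finset.sum_disjSum]
  have h1 : ∀ k, ‖Tf t x (.inl k)‖ ^ 2 ≤ 2 * ‖x (.inl k)‖ ^ 2
      + 2 * ((∑ m ∈ range (k + 1), ga t k m ^ 2) * ‖x‖ ^ 2) := by
    intro k
    simp only [Tf]
    refine (norm_add_sq_le_two _ _).trans ?_
    have e1 : ‖((Real.exp (-(lam k) * t) : ℝ) : 𝕜) * x (.inl k)‖ ≤ ‖x (.inl k)‖ := by
      rw [norm_mul, RCLike.norm_ofReal, abs_of_pos (Real.exp_pos _)]
      have := exp_le_one' (lam_pos k) ht
      have := norm_nonneg (x (.inl k))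
      nlinarith
    have e2 := norm_sum_ga_le (t := t) x k
    gcongr
  have h2 : ∀ m, ‖Tf t x (.inr m)‖ ^ 2 ≤ 2 * ‖x (.inr m)‖ ^ 2 := by
    intro k
    simp only [Tf]
    have e1 : ‖((Real.exp (-(mu k) * t) : ℝ) : 𝕜) * x (.inr k)‖ ≤ ‖x (.inr k)‖ := by
      rw [norm_mul, RCLike.norm_ofReal, abs_of_pos (Real.exp_pos _)]
      have := exp_le_one' (mu_pos k) ht
      have := norm_nonneg (x (.inr k))
      nlinarith
    have e2 : ‖((Real.exp (-(mu k) * t) : ℝ) : 𝕜) * x (.inr k)‖ ^ 2 ≤ ‖x (.inr k)‖ ^ 2 := by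
      gcongr
    have := sq_nonneg ‖x (.inr k)‖
    linarith
  calc _ ≤ ∑ k ∈ range M, (2 * ‖x (.inl k)‖ ^ 2
          + 2 * ((∑ m ∈ range (k + 1), ga t k m ^ 2) * ‖x‖ ^ 2))
        + ∑ m ∈ range M, 2 * ‖x (.inr m)‖ ^ 2 :=
        add_le_add (Finset.sum_le_sum fun k _ => h1 k) (Finset.sum_le_sum fun m _ => h2 m)
    _ = 2 * (∑ k ∈ range M, ‖x (.inl k)‖ ^ 2 + ∑ m ∈ range M, ‖x (.inr m)‖ ^ 2)
        + 2 * ((∑ k ∈ range M, ∑ m ∈ range (k + 1), ga t k m ^ 2) * ‖x‖ ^ 2) := by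
        rw [Finset.sum_add_distrib, ← Finset.mul_sum, ← Finset.mul_sum, ← Finset.mul_sum,
          ← Finset.sum_mul]
        ring
    _ ≤ 2 * ‖x‖ ^ 2 + 2 * (SS * ‖x‖ ^ 2) := by
        have e1 := sq_sum_le x ((range M).disjSum (range M))
        rw [Finset.sum_disjSum] at e1
        have e2 := ga_sq_le ht M
        gcongr
    _ = _ := by ring

/-- the bound for the model semigroup -/
noncomputable def KK : ℝ := Real.sqrt (2 + 2 * SS)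

theorem KK_nonneg : 0 ≤ KK := Real.sqrt_nonneg _

theorem KK_sq : KK ^ 2 = 2 + 2 * SS := by
  unfold KK
  rw [Real.sq_sqrt]
  have := SS_nonneg
  linarith

/-- the linear map `T (max t 0)` -/
noncomputable def Tl (t : ℝ) : H2 𝕜 →ₗ[𝕜] H2 𝕜 where
  toFun x := ⟨Tf (max t 0) x, mem_of_sq (Tf_sq_le (le_max_right t 0) x)⟩
  map_add' x y := by
    apply Subtype.ext
    exact Tf_add _ _ _
  map_smul' c x := by
    apply Subtype.ext
    exact Tf_smul _ _ _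

/-- the model semigroup -/
noncomputable def TT (t : ℝ) : H2 𝕜 →L[𝕜] H2 𝕜 :=
  (Tl t).mkContinuous KK (by
    intro x
    refine norm_le_of_sq _ (mul_nonneg KK_nonneg (norm_nonneg _)) fun s => ?_
    rw [mul_pow, KK_sq]
    exact Tf_sq_le (le_max_right t 0) x s)

theorem TT_apply' (t : ℝ) (x : H2 𝕜) (i : ℕ ⊕ ℕ) : TT t x i = Tf (max t 0) x i := rfl

theorem TT_apply {t : ℝ} (ht : 0 ≤ t) (x : H2 𝕜) (i : ℕ ⊕ ℕ) : TT t x i = Tf t x i := by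
  rw [TT_apply', max_eq_left ht]

theorem TT_norm_le (t : ℝ) (x : H2 𝕜) : ‖TT t x‖ ≤ KK * ‖x‖ := by
  refine norm_le_of_sq _ (mul_nonneg KK_nonneg (norm_nonneg _)) fun s => ?_
  rw [mul_pow, KK_sq]
  exact Tf_sq_le (le_max_right t 0) x s

theorem TT_zero (x : H2 𝕜) : TT 0 x = x := by
  apply Subtype.ext
  funext i
  rw [TT_apply (le_refl 0)]
  rcases i with k | m
  · simp [Tf, ga]
  · simp [Tf]

theorem ga_add (s t : ℝ) (k m : ℕ) :
    ga (s + t) k m = Real.exp (-(lam k) * s) * ga t k m + ga s k m * Real.exp (-(mu m) * t) := by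
  unfold ga
  have h1 : Real.exp (-(lam k) * (s + t)) = Real.exp (-(lam k) * s) * Real.exp (-(lam k) * t) := by
    rw [← Real.exp_add]; ring_nf
  have h2 : Real.exp (-(mu m) * (s + t)) = Real.exp (-(mu m) * s) * Real.exp (-(mu m) * t) := by
    rw [← Real.exp_add]; ring_nf
  rw [h1, h2]
  ring

theorem TT_add {s t : ℝ} (hs : 0 ≤ s) (ht : 0 ≤ t) (x : H2 𝕜) :
    TT (s + t) x = TT s (TT t x) := by
  apply Subtype.ext
  funext i
  rw [TT_apply (add_nonneg hs ht), TT_apply hs]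
  have h1 : (TT t x : ℕ ⊕ ℕ → 𝕜) = Tf t x := by
    funext j; exact TT_apply ht x j
  rw [h1]
  rcases i with k | m
  · simp only [Tf, ga_add]
    have e1 : Real.exp (-(lam k) * (s + t))
        = Real.exp (-(lam k) * s) * Real.exp (-(lam k) * t) := by
      rw [← Real.exp_add]; ring_nf
    rw [e1]
    push_cast
    rw [mul_add, mul_assoc, add_assoc, Finset.mul_sum, ← Finset.sum_add_distrib]
    congr 1
    refine Finset.sum_congr rfl fun m _ => ?_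
    ring
  · simp only [Tf]
    have e1 : Real.exp (-(mu m) * (s + t))
        = Real.exp (-(mu m) * s) * Real.exp (-(mu m) * t) := by
      rw [← Real.exp_add]; ring_nf
    rw [e1]
    push_cast
    ring

end op

end Pool.Agent.Helper45.Umd
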