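import Mathlib
import Pool.Agent.Helper45.Umd.Model
set_option autoImplicit false

/-! Strong continuity of the model semigroup. -/

namespace Pool.Agent.Helper45.Umd

open Finset Filter
open scoped Topology

variable {𝕜 : Type} [RCLike 𝕜]

theorem single_inl_bound {t : ℝ} (ht : 0 ≤ t) (k : ℕ) (c : 𝕜) :
    ‖TT t (lp.single 2 (Sum.inl k) c : H2 𝕜) - lp.single 2 (Sum.inl k) c‖
      ≤ (1 - Real.exp (-(lam k) * t)) * ‖c‖ := by
  have h1 : TT t (lp.single 2 (Sum.inl k) c : H2 𝕜) - lp.single 2 (Sum.inl k) c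
      = lp.single 2 (Sum.inl k) (((Real.exp (-(lam k) * t) - 1 : ℝ) : 𝕜) * c) := by
    apply Subtype.ext
    funext i
    show TT t (lp.single 2 (Sum.inl k) c : H2 𝕜) i - (lp.single 2 (Sum.inl k) c : H2 𝕜) i
      = (lp.single 2 (Sum.inl k) (((Real.exp (-(lam k) * t) - 1 : ℝ) : 𝕜) * c) : H2 𝕜) i
    rw [TT_apply ht]
    rcases i with j | m
    · by_cases hj : j = k
      · subst hj
        simp [Tf, lp.single_apply, sub_mul]
      · simp [Tf, lp.single_apply, hj]
    · simp [Tf, lp.single_apply]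
  rw [h1, lp.norm_single (by norm_num), norm_mul, RCLike.norm_ofReal]
  have := exp_le_one' (lam_pos k) ht
  rw [abs_of_nonpos (by linarith)]
  have := norm_nonneg c
  nlinarith

theorem single_inr_bound {t : ℝ} (ht : 0 ≤ t) (m : ℕ) (c : 𝕜) :
    ‖TT t (lp.single 2 (Sum.inr m) c : H2 𝕜) - lp.single 2 (Sum.inr m) c‖
      ≤ KK * ((1 - Real.exp (-(mu m) * t)) * ‖c‖) := by
  have hexp := exp_le_one' (mu_pos m) ht
  have hδ : 0 ≤ (1 - Real.exp (-(mu m) * t)) * ‖c‖ :=
    mul_nonneg (by linarith) (norm_nonneg c)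
  refine norm_le_of_sq _ (mul_nonneg KK_nonneg hδ) fun s => ?_
  obtain ⟨M, hM⟩ := exists_box s
  refine (Finset.sum_le_sum_of_subset_of_nonneg hM fun _ _ _ => sq_nonneg _).trans ?_
  rw [Finset.sum_disjSum]
  have hl : ∀ k, ‖(TT t (lp.single 2 (Sum.inr m) c : H2 𝕜) - lp.single 2 (Sum.inr m) c : H2 𝕜)
      (Sum.inl k)‖ ^ 2
      ≤ (if m ≤ k then dd (k - m) ^ 2 else 0) * ((1 - Real.exp (-(mu m) * t)) * ‖c‖) ^ 2 := by
    intro k
    have e1 : (TT t (lp.single 2 (Sum.inr m) c : H2 𝕜) - lp.single 2 (Sum.inr m) c : H2 𝕜)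
        (Sum.inl k) = if m ≤ k then ((ga t k m : ℝ) : 𝕜) * c else 0 := by
      show TT t (lp.single 2 (Sum.inr m) c : H2 𝕜) (Sum.inl k)
        - (lp.single 2 (Sum.inr m) c : H2 𝕜) (Sum.inl k) = _
      rw [TT_apply ht]
      have e2 : ∀ m', ((ga t k m' : ℝ) : 𝕜) * (lp.single 2 (Sum.inr m) c : H2 𝕜) (Sum.inr m')
          = if m' = m then ((ga t k m : ℝ) : 𝕜) * c else 0 := by
        intro m'
        by_cases h : m' = m
        · subst h; simp
        · simp [h, lp.single_apply]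
      simp only [Tf]
      simp_rw [e2]
      rw [Finset.sum_ite_eq']
      simp [lp.single_apply]
    rw [e1]
    split_ifs with h
    · rw [norm_mul, RCLike.norm_ofReal, abs_of_nonneg (ga_nonneg ht h)]
      unfold ga
      have e3 : Real.exp (-(lam k) * t) - Real.exp (-(mu m) * t)
          ≤ 1 - Real.exp (-(mu m) * t) := by
        have := exp_le_one' (lam_pos k) ht
        linarith
      have e4 := diff_nonneg ht h
      have e5 := dd_nonneg (k - m)
      calc (dd (k - m) * (Real.exp (-(lam k) * t) - Real.exp (-(mu m) * t)) * ‖c‖) ^ 2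
          ≤ (dd (k - m) * (1 - Real.exp (-(mu m) * t)) * ‖c‖) ^ 2 := by gcongr
        _ = _ := by ring
    · simp
  have hr : ∀ k, ‖(TT t (lp.single 2 (Sum.inr m) c : H2 𝕜) - lp.single 2 (Sum.inr m) c : H2 𝕜)
      (Sum.inr k)‖ ^ 2
      ≤ (if k = m then 1 else 0) * ((1 - Real.exp (-(mu m) * t)) * ‖c‖) ^ 2 := by
    intro k
    have e1 : (TT t (lp.single 2 (Sum.inr m) c : H2 𝕜) - lp.single 2 (Sum.inr m) c : H2 𝕜)
        (Sum.inr k) = if k = m then ((Real.exp (-(mu m) * t) - 1 : ℝ) : 𝕜) * c else 0 := by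
      show TT t (lp.single 2 (Sum.inr m) c : H2 𝕜) (Sum.inr k)
        - (lp.single 2 (Sum.inr m) c : H2 𝕜) (Sum.inr k) = _
      rw [TT_apply ht]
      by_cases h : k = m
      · subst h
        simp [Tf, lp.single_apply, sub_mul]
      · simp [Tf, lp.single_apply, h]
    rw [e1]
    split_ifs with h
    · rw [norm_mul, RCLike.norm_ofReal, abs_of_nonpos (by linarith)]
      rw [one_mul]
      apply le_of_eq
      ring
    · simp
  have hsum1 : ∑ k ∈ range M, (if m ≤ k then dd (k - m) ^ 2 else 0) ≤ SS := by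
    rw [← Finset.sum_filter]
    have e1 : (range M).filter (fun k => m ≤ k) = Ico m M := by
      ext k; simp only [Finset.mem_filter, Finset.mem_range, Finset.mem_Ico]; omega
    rw [e1, Finset.sum_Ico_eq_sum_range]
    simp only [Nat.add_sub_cancel_left]
    exact sum_dd_sq_le' _
  have hsum2 : ∑ k ∈ range M, (if k = m then (1 : ℝ) else 0) ≤ 1 := by
    rw [Finset.sum_ite_eq']
    split_ifs <;> norm_num
  have hS := SS_nonneg
  calc _ ≤ ∑ k ∈ range M, (if m ≤ k then dd (k - m) ^ 2 else 0)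
            * ((1 - Real.exp (-(mu m) * t)) * ‖c‖) ^ 2
          + ∑ k ∈ range M, (if k = m then 1 else 0)
            * ((1 - Real.exp (-(mu m) * t)) * ‖c‖) ^ 2 :=
        add_le_add (Finset.sum_le_sum fun k _ => hl k) (Finset.sum_le_sum fun k _ => hr k)
    _ = (∑ k ∈ range M, (if m ≤ k then dd (k - m) ^ 2 else 0)
          + ∑ k ∈ range M, (if k = m then (1 : ℝ) else 0))
            * ((1 - Real.exp (-(mu m) * t)) * ‖c‖) ^ 2 := by
        rw [← Finset.sum_mul, ← Finset.sum_mul, add_mul]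
    _ ≤ (SS + 1) * ((1 - Real.exp (-(mu m) * t)) * ‖c‖) ^ 2 := by gcongr
    _ ≤ (2 + 2 * SS) * ((1 - Real.exp (-(mu m) * t)) * ‖c‖) ^ 2 :=
        mul_le_mul_of_nonneg_right (by linarith) (sq_nonneg _)
    _ = _ := by rw [mul_pow KK, KK_sq]

theorem tendsto_single (i : ℕ ⊕ ℕ) (c : 𝕜) :
    Tendsto (fun t => TT t (lp.single 2 i c : H2 𝕜)) (𝓝[≥] 0) (𝓝 (lp.single 2 i c)) := by
  rw [tendsto_iff_norm_sub_tendsto_zero]
  rcases i with k | m
  · refine squeeze_zero' (Filter.Eventually.of_forall fun _ => norm_nonneg _)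
      (g := fun t => (1 - Real.exp (-(lam k) * t)) * ‖c‖) ?_ ?_
    · filter_upwards [self_mem_nhdsWithin] with t ht
      exact single_inl_bound ht k c
    · have h1 : Continuous (fun t : ℝ => (1 - Real.exp (-(lam k) * t)) * ‖c‖) := by fun_prop
      have h2 := h1.tendsto 0
      simp only [mul_zero, Real.exp_zero, sub_self, zero_mul] at h2
      exact h2.mono_left nhdsWithin_le_nhds
  · refine squeeze_zero' (Filter.Eventually.of_forall fun _ => norm_nonneg _)
      (g := fun t => KK * ((1 - Real.exp (-(mu m) * t)) * ‖c‖)) ?_ ?_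
    · filter_upwards [self_mem_nhdsWithin] with t ht
      exact single_inr_bound ht m c
    · have h1 : Continuous (fun t : ℝ => KK * ((1 - Real.exp (-(mu m) * t)) * ‖c‖)) := by fun_prop
      have h2 := h1.tendsto 0
      simp only [mul_zero, Real.exp_zero, sub_self, zero_mul] at h2
      exact h2.mono_left nhdsWithin_le_nhds

theorem tendsto_TT (x : H2 𝕜) : Tendsto (fun t => TT t x) (𝓝[≥] 0) (𝓝 x) := by
  have hs := lp.hasSum_single (p := 2) (by norm_num) x
  rw [Metric.tendsto_nhds]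
  intro ε hε
  have hK := KK_nonneg
  have hε' : 0 < ε / (2 * (KK + 1)) := by positivity
  obtain ⟨s, hsx⟩ := (Metric.tendsto_nhds.mp hs (ε / (2 * (KK + 1))) hε').exists
  set y : H2 𝕜 := ∑ i ∈ s, lp.single 2 i (x i) with hy
  have h1 : Tendsto (fun t => TT t y) (𝓝[≥] 0) (𝓝 y) := by
    have : (fun t => TT t y) = fun t => ∑ i ∈ s, TT t (lp.single 2 i (x i) : H2 𝕜) := by
      funext t; rw [hy, map_sum]
    rw [this]
    exact tendsto_finsetSum _ fun i _ => tendsto_single i (x i)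
  have h2 := Metric.tendsto_nhds.mp h1 (ε / 2) (by positivity)
  filter_upwards [h2] with t ht
  rw [dist_eq_norm] at ht hsx ⊢
  have e1 : TT t x - x = TT t (x - y) + (TT t y - y) + (y - x) := by
    rw [map_sub]; abel
  rw [e1]
  have e2 := TT_norm_le t (x - y)
  have e3 : ‖x - y‖ = ‖y - x‖ := norm_sub_rev _ _
  rw [e3] at e2
  calc ‖TT t (x - y) + (TT t y - y) + (y - x)‖
      ≤ ‖TT t (x - y)‖ + ‖TT t y - y‖ + ‖y - x‖ := norm_add₃_le
    _ ≤ KK * ‖y - x‖ + ‖TT t y - y‖ + ‖y - x‖ := by gcongr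
    _ = (KK + 1) * ‖y - x‖ + ‖TT t y - y‖ := by ring
    _ < (KK + 1) * (ε / (2 * (KK + 1))) + ε / 2 := by gcongr
    _ = ε := by field_simp; ring

theorem continuousOn_TT (x : H2 𝕜) : ContinuousOn (fun t => TT t x) (Set.Ici 0) := by
  intro t0 ht0
  have ht0' : (0 : ℝ) ≤ t0 := ht0
  unfold ContinuousWithinAt
  rw [tendsto_iff_norm_sub_tendsto_zero]
  have h1 : Tendsto (fun t : ℝ => |t - t0|) (𝓝[Set.Ici 0] t0) (𝓝[≥] 0) := by
    rw [tendsto_nhdsWithin_iff]
    refine ⟨?_, Filter.Eventually.of_forall fun t => Set.mem_Ici.mpr (abs_nonneg _)⟩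
    have : Continuous (fun t : ℝ => |t - t0|) := by fun_prop
    have h2 := this.tendsto t0
    simp only [sub_self, abs_zero] at h2
    exact h2.mono_left nhdsWithin_le_nhds
  have h2 := (tendsto_TT x).comp h1
  have h3 := tendsto_iff_norm_sub_tendsto_zero.mp h2
  have h4 := h3.const_mul KK
  rw [mul_zero] at h4
  refine squeeze_zero' (Filter.Eventually.of_forall fun _ => norm_nonneg _) ?_ h4
  filter_upwards [self_mem_nhdsWithin] with t ht
  have ht' : (0 : ℝ) ≤ t := ht
  simp only [Function.comp]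
  rcases le_total t0 t with h | h
  · have e1 : TT t x = TT t0 (TT (t - t0) x) := by
      rw [← TT_add ht0' (by linarith)]; congr 1; ring_nf
    rw [e1, ← map_sub, abs_of_nonneg (by linarith)]
    exact TT_norm_le _ _
  · have e1 : TT t0 x = TT t (TT (t0 - t) x) := by
      rw [← TT_add ht' (by linarith)]; congr 1; ring_nf
    rw [e1, ← map_sub, abs_of_nonpos (by linarith), norm_sub_rev (TT (-(t - t0)) x) x, neg_sub]
    exact TT_norm_le _ _

end Pool.Agent.Helper45.Umd
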