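import Mathlib
set_option autoImplicit false

/-! # UMD spaces, Banach lattices, semigroups and dilations: definitions -/

namespace Pool.Agent.Helper45.Umd

open MeasureTheory FourierTransform
open scoped SchwartzMap NNReal

/-- The Hilbert transform of a function `f : ℝ → X` with values in a complex Banach space: the
Fourier multiplier with symbol `-i sgn ξ`, that is
`(Hf)(t) = ∫ e^{2πitξ} (-i sgn ξ) (𝓕f)(ξ) dξ` where `(𝓕f)(ξ) = ∫ e^{-2πisξ} f(s) ds`. -/
noncomputable def hilbertTransform {X : Type*} [NormedAddCommGroup X] [NormedSpace ℂ X]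
    (f : ℝ → X) : ℝ → X :=
  𝓕⁻ (fun ξ : ℝ => (-Complex.I * ((SignType.sign ξ : ℝ) : ℂ)) • 𝓕 f ξ)

/-- `X` is a UMD space: the Hilbert transform, acting on `X`-valued functions, defines a bounded
operator on `L²(ℝ; X)`, that is, `‖Hf‖ ≤ C ‖f‖` in the norm of `L²(ℝ; X)` for all `f` in the (dense)
Schwartz space `𝓢(ℝ; X)`, with a constant `C` independent of `f`. -/
def IsUMD (X : Type*) [NormedAddCommGroup X] [NormedSpace ℂ X] : Prop :=
  ∃ C : ℝ≥0, ∀ f : 𝓢(ℝ, X), eLpNorm (hilbertTransform f) 2 volume ≤ C * eLpNorm f 2 volume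

/-- `(T t)_{t ≥ 0}` is a `C₀`-semigroup of bounded operators on the Banach space `X`
(the values `T t` for `t < 0` are irrelevant). -/
structure IsC0Semigroup {X : Type*} [NormedAddCommGroup X] [NormedSpace ℂ X]
    (T : ℝ → X →L[ℂ] X) : Prop where
  zero : ∀ x, T 0 x = x
  add : ∀ s t, 0 ≤ s → 0 ≤ t → ∀ x, T (s + t) x = T s (T t x)
  continuous : ∀ x, ContinuousOn (fun t => T t x) (Set.Ici 0)

/-- `(U t)_{t ∈ ℝ}` is a `C₀`-group of bounded operators on the Banach space `Y`. -/
structure IsC0Group {Y : Type*} [NormedAddCommGroup Y] [NormedSpace ℂ Y]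
    (U : ℝ → Y →L[ℂ] Y) : Prop where
  zero : ∀ y, U 0 y = y
  add : ∀ s t y, U (s + t) y = U s (U t y)
  continuous : ∀ y, Continuous (fun t => U t y)

/-- The semigroup `(T t)_{t ≥ 0}` on `X` has a loose dilation on the Banach space `Y`:
`T t = Q U(t) J` for all `t ≥ 0` with `J : X → Y`, `Q : Y → X` bounded linear and `U` a bounded
`C₀`-group on `Y`. -/
def HasLooseDilationOn {X : Type*} [NormedAddCommGroup X] [NormedSpace ℂ X]
    (T : ℝ → X →L[ℂ] X) (Y : Type*) [NormedAddCommGroup Y] [NormedSpace ℂ Y] : Prop :=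
  ∃ (J : X →L[ℂ] Y) (Q : Y →L[ℂ] X) (U : ℝ → Y →L[ℂ] Y), IsC0Group U ∧
    (∃ K : ℝ, ∀ t, ‖U t‖ ≤ K) ∧ ∀ t, 0 ≤ t → ∀ x, T t x = Q (U t (J x))

/-- The semigroup `(T t)_{t ≥ 0}` on `X` has a loose dilation in the class of all UMD spaces. -/
def HasLooseDilationInUMD.{u, v} {X : Type v} [NormedAddCommGroup X] [NormedSpace ℂ X]
    (T : ℝ → X →L[ℂ] X) : Prop :=
  ∃ (Y : Type u) (_ : NormedAddCommGroup Y) (_ : NormedSpace ℂ Y) (_ : CompleteSpace Y),
    IsUMD Y ∧ HasLooseDilationOn T Y

/-- `X`, with the real-linear map `ι : E → X`, is the complexification of the real Banach lattice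
`E`: every `z ∈ X` is `ι a + i ι b` for unique `a, b ∈ E`, and `‖ι a + i ι b‖ = ‖ |a + i b| ‖`
where `|a + i b| = sup_θ (cos θ · a + sin θ · b)` in `E`. -/
structure IsComplexification {E X : Type*} [NormedAddCommGroup E] [NormedSpace ℝ E] [Lattice E]
    [NormedAddCommGroup X] [NormedSpace ℂ X] (ι : E →ₗ[ℝ] X) : Prop where
  decomp : ∀ z : X, ∃! p : E × E, z = ι p.1 + Complex.I • ι p.2
  norm_eq : ∀ a b : E, ∃ m : E,
    IsLUB (Set.range fun θ : ℝ => Real.cos θ • a + Real.sin θ • b) m ∧
      ‖ι a + Complex.I • ι b‖ = ‖m‖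

/-- A complex Banach lattice `X`: the complexification of a real Banach lattice `E` (its real
part), with inclusion `ι : E → X`. The real Banach lattice `E` is a complete normed space over `ℝ`
with a lattice order compatible with addition and with multiplication by scalars, and a solid norm
(`|a| ≤ |b|` implies `‖a‖ ≤ ‖b‖`). -/
structure ComplexBanachLattice where
  /-- the real part -/
  E : Type
  /-- the complex Banach space -/
  X : Type
  [normedE : NormedAddCommGroup E]
  [spaceE : NormedSpace ℝ E]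
  [completeE : CompleteSpace E]
  [latticeE : Lattice E]
  [orderedE : IsOrderedAddMonoid E]
  [orderedModuleE : IsOrderedModule ℝ E]
  [solidE : HasSolidNorm E]
  [normedX : NormedAddCommGroup X]
  [spaceX : NormedSpace ℂ X]
  [completeX : CompleteSpace X]
  /-- the inclusion of the real part -/
  ι : E →ₗ[ℝ] X
  isComplexification : IsComplexification ι

attribute [instance] ComplexBanachLattice.normedE ComplexBanachLattice.spaceE
  ComplexBanachLattice.completeE ComplexBanachLattice.latticeE ComplexBanachLattice.orderedE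
  ComplexBanachLattice.orderedModuleE ComplexBanachLattice.solidE ComplexBanachLattice.normedX
  ComplexBanachLattice.spaceX ComplexBanachLattice.completeX

/-- `(T t)_{t ≥ 0}` is a `C₀`-semigroup of positive contractions on the complex Banach lattice `L`:
`‖T t‖ ≤ 1` for all `t ≥ 0`, and `T t x ≥ 0` whenever `x ≥ 0` (an element of `L.X` is `≥ 0` if it
is `ι a` for some `0 ≤ a` in `L.E`). -/
structure IsPositiveContractionSemigroup (L : ComplexBanachLattice) (T : ℝ → L.X →L[ℂ] L.X) :
    Prop where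
  semigroup : IsC0Semigroup T
  contraction : ∀ t, 0 ≤ t → ‖T t‖ ≤ 1
  positive : ∀ t, 0 ≤ t → ∀ a : L.E, 0 ≤ a → ∃ b : L.E, 0 ≤ b ∧ T t (L.ι a) = L.ι b

end Pool.Agent.Helper45.Umd
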