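import Mathlib
import Pool.Agent.Helper45.Umd.Kernel
import Pool.Agent.Helper45.Umd.Defs
set_option autoImplicit false

/-! On a UMD space the discrete kernel is bounded. -/

namespace Pool.Agent.Helper45.Umd

open MeasureTheory FourierTransform Real Filter Set
open scoped Topology SchwartzMap

theorem L2_norm_sq {E : Type*} [NormedAddCommGroup E] (g : Lp E 2 (volume : Measure ℝ)) :
    ‖g‖ ^ 2 = ∫ x, ‖g x‖ ^ 2 := by
  have h0 : 0 ≤ ∫ x, ‖g x‖ ^ 2 := integral_nonneg fun x => by positivity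
  rw [Lp.norm_def, MemLp.eLpNorm_eq_integral_rpow_norm (by norm_num) (by norm_num) (Lp.memLp g)]
  have h1 : ∫ a, ‖g a‖ ^ (2 : ENNReal).toReal = ∫ x, ‖g x‖ ^ 2 := by
    refine integral_congr_ae (Filter.Eventually.of_forall fun x => ?_)
    simp
  rw [h1, ENNReal.toReal_ofReal (by positivity)]
  rw [← Real.rpow_natCast, ← Real.rpow_mul h0]
  simp

theorem L2_integrable {E : Type*} [NormedAddCommGroup E] (g : Lp E 2 (volume : Measure ℝ)) :
    Integrable (fun x => ‖g x‖ ^ 2) := by
  have := (Lp.memLp g).integrable_norm_pow (by norm_num : (2 : ℕ) ≠ 0)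
  simpa using this

/-- `∫ bmp²` -/
noncomputable def Sb : ℝ := ∫ x, bmp x ^ 2

theorem bmp_sq_integrable : Integrable (fun x : ℝ => bmp x ^ 2) := by
  refine Continuous.integrable_of_hasCompactSupport (bmp_continuous.pow 2) ?_
  exact bmp_compact.comp_left (g := fun t : ℝ => t ^ 2) (by simp)

theorem Sb_nonneg : 0 ≤ Sb := integral_nonneg fun x => by positivity

theorem Sb_translate (l : ℤ) : ∫ x, bmp (x - l) ^ 2 = Sb :=
  integral_sub_right_eq_self (fun x => bmp x ^ 2) (l : ℝ)

section sums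

theorem sum_single_norm {Y : Type*} [NormedAddCommGroup Y] [NormedSpace ℂ Y] {ι : Type*}
    [Fintype ι] (u : ι → ℝ) (F : ι → Y) (h : ∀ i j, u i ≠ 0 → u j ≠ 0 → i = j) :
    ‖∑ j, ((u j : ℝ) : ℂ) • F j‖ ^ 2 = ∑ j, u j ^ 2 * ‖F j‖ ^ 2 := by
  classical
  by_cases h0 : ∃ i, u i ≠ 0
  · obtain ⟨i, hi⟩ := h0
    have h1 : ∀ j, j ≠ i → u j = 0 := fun j hj => by
      by_contra hc
      exact hj (h j i hc hi)
    rw [Finset.sum_eq_single i, Finset.sum_eq_single i]
    · rw [norm_smul, mul_pow, Complex.norm_real, Real.norm_eq_abs, sq_abs]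
    · intro j _ hj; rw [h1 j hj]; simp
    · simp
    · intro j _ hj; rw [h1 j hj]; simp
    · simp
  · push Not at h0
    simp [h0]

theorem sum_single_le {ι : Type*} [Fintype ι] (u : ι → ℝ) {a : ℝ} (ha : 0 ≤ a)
    (hu : ∀ i, u i = 0 ∨ u i = a) (h : ∀ i j, u i ≠ 0 → u j ≠ 0 → i = j) :
    ∑ j, u j ≤ a := by
  classical
  by_cases h0 : ∃ i, u i ≠ 0
  · obtain ⟨i, hi⟩ := h0
    have h1 : ∀ j, j ≠ i → u j = 0 := fun j hj => by
      by_contra hc
      exact hj (h j i hc hi)
    rw [Finset.sum_eq_single i (fun j _ hj => h1 j hj) (by simp)]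
    rcases hu i with h | h
    · rw [h]; exact ha
    · rw [h]
  · push Not at h0
    simpa [h0] using ha

end sums

/-- positions overlap only if equal -/
theorem bmp_disjoint {l k : ℤ} {x : ℝ} (h1 : bmp (x - l) ≠ 0) (h2 : bmp (x - k) ≠ 0) : l = k := by
  have e1 := bmp_ne h1
  have e2 := bmp_ne h2
  have h3 : (l : ℝ) < k + 1 := by linarith
  have h4 : (k : ℝ) < l + 1 := by linarith
  have h5 : l < k + 1 := by exact_mod_cast h3
  have h6 : k < l + 1 := by exact_mod_cast h4
  omega

section Y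
variable {Y : Type*} [NormedAddCommGroup Y] [NormedSpace ℂ Y] [CompleteSpace Y]

/-- integration against the bump at `l` -/
noncomputable def BB (l : ℤ) : Lp Y 2 (volume : Measure ℝ) →L[ℂ] Y :=
  (ContinuousLinearMap.lsmul ℂ ℂ : ℂ →L[ℂ] Y →L[ℂ] Y).lpPairing (volume : Measure ℝ) 2 2
    ((phi l).toLp 2 (volume : Measure ℝ))

theorem BB_apply (l : ℤ) (g : Lp Y 2 (volume : Measure ℝ)) :
    BB l g = ∫ x, ((bmp (x - l) : ℝ) : ℂ) • g x := by
  unfold BB
  rw [ContinuousLinearMap.lpPairing_eq_integral]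
  refine integral_congr_ae ?_
  filter_upwards [SchwartzMap.coeFn_toLp (phi l) 2 (volume : Measure ℝ)] with x hx
  rw [hx]
  simp

theorem BB_norm (l : ℤ) (g : Lp Y 2 (volume : Measure ℝ)) :
    ‖BB l g‖ ^ 2 ≤ Sb * ∫ x, (if bmp (x - l) = 0 then 0 else ‖g x‖ ^ 2) := by
  rw [BB_apply]
  set w : ℝ → ℝ := fun x => if bmp (x - l) = 0 then 0 else ‖g x‖ with hw
  have hwm : AEStronglyMeasurable w (volume : Measure ℝ) := by
    have h1 : AEMeasurable (fun x => ‖g x‖) (volume : Measure ℝ) :=
      (Lp.aestronglyMeasurable g).norm.aemeasurable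
    have h2 : MeasurableSet {x : ℝ | bmp (x - l) = 0} := by
      have : Measurable (fun x : ℝ => bmp (x - l)) :=
        bmp_continuous.measurable.comp (measurable_id.sub_const _)
      exact this (measurableSet_singleton 0)
    have h3 : w = Set.indicator {x : ℝ | bmp (x - l) = 0}ᶜ (fun x => ‖g x‖) := by
      funext x
      by_cases hx : bmp (x - l) = 0
      · simp [hw, hx]
      · simp [hw, hx]
    rw [h3]
    exact (h1.indicator h2.compl).aestronglyMeasurable
  have hwL : MemLp w (ENNReal.ofReal 2) (volume : Measure ℝ) := by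
    have hg : MemLp (g : ℝ → Y) (ENNReal.ofReal 2) (volume : Measure ℝ) := by
      have := Lp.memLp g
      simpa using this
    refine hg.of_le hwm (Filter.Eventually.of_forall fun x => ?_)
    simp only [hw]
    split_ifs
    · simp
    · simp
  have hbL : MemLp (fun x : ℝ => bmp (x - l)) (ENNReal.ofReal 2) (volume : Measure ℝ) := by
    have h1 := SchwartzMap.memLp (phi l) 2 (volume : Measure ℝ)
    have h2 : MemLp (phi l) (ENNReal.ofReal 2) (volume : Measure ℝ) := by simpa using h1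
    refine h2.of_le ?_ (Filter.Eventually.of_forall fun x => ?_)
    · exact (bmp_continuous.comp (continuous_id.sub continuous_const)).aestronglyMeasurable
    · simp
  have h1 : ‖∫ x, ((bmp (x - l) : ℝ) : ℂ) • g x‖ ≤ ∫ x, bmp (x - l) * w x := by
    refine (norm_integral_le_integral_norm _).trans (le_of_eq ?_)
    refine integral_congr_ae (Filter.Eventually.of_forall fun x => ?_)
    simp only [norm_smul, Complex.norm_real, Real.norm_eq_abs, hw]
    by_cases hx : bmp (x - l) = 0
    · simp [hx]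
    · rw [abs_of_nonneg (bmp_nonneg _), if_neg hx]
  have h2 := integral_mul_le_Lp_mul_Lq_of_nonneg (Real.HolderConjugate.two_two)
    (Filter.Eventually.of_forall fun x : ℝ => bmp_nonneg (x - l))
    (Filter.Eventually.of_forall fun x : ℝ => (by
      simp only [hw]; split_ifs
      · simp
      · simp : (0 : ℝ) ≤ w x)) hbL hwL
  have h3 : (∫ a : ℝ, bmp (a - l) ^ (2 : ℝ)) = Sb := by
    rw [← Sb_translate l]
    refine integral_congr_ae (Filter.Eventually.of_forall fun x => ?_)
    simp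
  have h4 : (∫ a : ℝ, w a ^ (2 : ℝ)) = ∫ x, (if bmp (x - l) = 0 then 0 else ‖g x‖ ^ 2) := by
    refine integral_congr_ae (Filter.Eventually.of_forall fun x => ?_)
    simp only [hw]
    split_ifs
    · simp
    · simp
  rw [h3, h4] at h2
  have h5 : 0 ≤ ∫ x, (if bmp (x - l) = 0 then 0 else ‖g x‖ ^ 2) :=
    integral_nonneg fun x => by
      simp only [Pi.zero_apply]
      split_ifs
      · exact le_refl _
      · positivity
  have h6 := h1.trans h2
  calc ‖∫ x, ((bmp (x - l) : ℝ) : ℂ) • g x‖ ^ 2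
      ≤ (Sb ^ (1 / (2 : ℝ)) * (∫ x, (if bmp (x - l) = 0 then 0 else ‖g x‖ ^ 2)) ^ (1 / (2 : ℝ))) ^ 2 := by
        gcongr
    _ = _ := by
      rw [mul_pow, ← Real.sqrt_eq_rpow, ← Real.sqrt_eq_rpow, Real.sq_sqrt Sb_nonneg,
        Real.sq_sqrt h5]

omit [CompleteSpace Y] in
theorem continuous_fourierInv' {g : ℝ → Y} (hg : Integrable g) : Continuous (𝓕⁻ g) := by
  have h1 : Continuous (VectorFourier.fourierIntegral 𝐞 (volume : Measure ℝ) (innerₗ ℝ) g) :=
    VectorFourier.fourierIntegral_continuous continuous_fourierChar continuous_inner hg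
  have h2 : 𝓕⁻ g = fun x => (VectorFourier.fourierIntegral 𝐞 (volume : Measure ℝ) (innerₗ ℝ) g) (-x) := by
    funext x
    exact Real.fourierInv_eq_fourier_neg g x
  rw [h2]
  exact h1.comp continuous_neg

/-- scalar pointwise Hilbert transform of a translate of the bump -/
noncomputable def hil (k : ℤ) (x : ℝ) : ℂ := 𝓕⁻ (fun ξ => sy ξ * 𝓕 (phi k) ξ) x

theorem hil_continuous (k : ℤ) : Continuous (hil k) :=
  continuous_fourierInv' (integrable_sy_mul (𝓕 (phi k)).integrable)

theorem pair_hil (l k : ℤ) : ∫ x, ((bmp (x - l) : ℝ) : ℂ) * hil k x = (cc (l - k) : ℂ) := by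
  rw [← pair_all, pair_eq']
  refine integral_congr_ae (Filter.Eventually.of_forall fun x => ?_)
  simp only [phi_apply, Complex.conj_ofReal, hil]

/-- the test function -/
noncomputable def tf {ι : Type} [Fintype ι] (p : ι → ℤ) (F : ι → Y) : 𝓢(ℝ, Y) :=
  ∑ j, (phi (p j)).postcompCLM (ContinuousLinearMap.toSpanSingleton ℂ (F j))

omit [CompleteSpace Y] in
theorem tf_apply {ι : Type} [Fintype ι] (p : ι → ℤ) (F : ι → Y) (x : ℝ) :
    tf p F x = ∑ j, ((bmp (x - p j) : ℝ) : ℂ) • F j := by
  unfold tf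
  rw [_root_.sum_apply]
  refine Finset.sum_congr rfl fun j _ => ?_
  simp

theorem fourier_tf {ι : Type} [Fintype ι] (p : ι → ℤ) (F : ι → Y) (ξ : ℝ) :
    𝓕 (tf p F : ℝ → Y) ξ = ∑ j, 𝓕 (phi (p j)) ξ • F j := by
  rw [Real.fourier_eq]
  have h1 : ∀ x : ℝ, 𝐞 (-inner ℝ x ξ) • tf p F x
      = ∑ j, ((𝐞 (-inner ℝ x ξ) • phi (p j) x : ℂ)) • F j := by
    intro x
    rw [tf_apply, Finset.smul_sum]
    refine Finset.sum_congr rfl fun j _ => ?_
    rw [phi_apply, smul_assoc]
  simp_rw [h1]
  rw [integral_finsetSum]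
  · refine Finset.sum_congr rfl fun j _ => ?_
    rw [integral_smul_const, SchwartzMap.fourier_coe, Real.fourier_eq]
  · intro j _
    refine Integrable.smul_const ?_ _
    exact (Real.fourierIntegral_convergent_iff ξ).mpr ((phi (p j)).integrable (μ := volume))

theorem hilbert_tf {ι : Type} [Fintype ι] (p : ι → ℤ) (F : ι → Y) (x : ℝ) :
    hilbertTransform (tf p F : ℝ → Y) x = ∑ j, hil (p j) x • F j := by
  unfold hilbertTransform hil
  rw [Real.fourierInv_eq]
  have h1 : ∀ ξ : ℝ, 𝐞 (inner ℝ ξ x) • (-Complex.I * ((SignType.sign ξ : ℝ) : ℂ)) •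
      𝓕 (tf p F : ℝ → Y) ξ = ∑ j, ((𝐞 (inner ℝ ξ x) • (sy ξ * 𝓕 (phi (p j)) ξ) : ℂ)) • F j := by
    intro ξ
    rw [fourier_tf, Finset.smul_sum, Finset.smul_sum]
    refine Finset.sum_congr rfl fun j _ => ?_
    simp only [sy, Circle.smul_def, smul_smul, smul_eq_mul]
  simp_rw [h1]
  rw [integral_finsetSum]
  · refine Finset.sum_congr rfl fun j _ => ?_
    rw [integral_smul_const, Real.fourierInv_eq]
  · intro j _
    refine Integrable.smul_const ?_ _
    have h2 : Integrable (fun ξ => sy ξ * 𝓕 (phi (p j)) ξ) :=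
      integrable_sy_mul (𝓕 (phi (p j))).integrable
    have h3 := (Real.fourierIntegral_convergent_iff (-x)).mpr h2
    refine h3.congr (Filter.Eventually.of_forall fun ξ => ?_)
    simp

theorem discrete_bdd (h : IsUMD Y) : ∃ C : ℝ, 0 ≤ C ∧ ∀ {ι : Type} [Fintype ι] (p : ι → ℤ),
    Function.Injective p → ∀ F : ι → Y,
      ∑ i, ‖∑ j, ((cc (p i - p j) : ℝ) : ℂ) • F j‖ ^ 2 ≤ C * ∑ j, ‖F j‖ ^ 2 := by
  obtain ⟨T, hT⟩ := h
  refine ⟨Sb * ((T : ℝ) ^ 2 * Sb), mul_nonneg Sb_nonneg (mul_nonneg (sq_nonneg _) Sb_nonneg), ?_⟩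
  intro ι _ p hp F
  set f : Lp Y 2 (volume : Measure ℝ) := (tf p F).toLp 2 (volume : Measure ℝ) with hf
  have hfin : eLpNorm (tf p F : ℝ → Y) 2 volume < ⊤ :=
    ((tf p F).memLp 2 (volume : Measure ℝ)).2
  have hcont : Continuous (hilbertTransform (tf p F : ℝ → Y)) := by
    have : hilbertTransform (tf p F : ℝ → Y) = fun x => ∑ j, hil (p j) x • F j :=
      funext (hilbert_tf p F)
    rw [this]
    exact continuous_finsetSum _ fun j _ => (hil_continuous (p j)).smul continuous_const
  have hmem : MemLp (hilbertTransform (tf p F : ℝ → Y)) 2 (volume : Measure ℝ) :=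
    ⟨hcont.aestronglyMeasurable, (hT (tf p F)).trans_lt (ENNReal.mul_lt_top ENNReal.coe_lt_top hfin)⟩
  set g : Lp Y 2 (volume : Measure ℝ) := hmem.toLp _ with hg
  have hgf : ‖g‖ ≤ T * ‖f‖ := by
    rw [hg, hf, Lp.norm_toLp, SchwartzMap.norm_toLp]
    have h1 := hT (tf p F)
    have h2 := ENNReal.toReal_mono (ENNReal.mul_lt_top ENNReal.coe_lt_top hfin).ne h1
    rw [ENNReal.toReal_mul] at h2
    simpa using h2
  have h1 : ∀ i, BB (p i) g = ∑ j, ((cc (p i - p j) : ℝ) : ℂ) • F j := by
    intro i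
    rw [BB_apply]
    have e1 : ∫ x, ((bmp (x - p i) : ℝ) : ℂ) • g x
        = ∫ x, ∑ j, (((bmp (x - p i) : ℝ) : ℂ) * hil (p j) x) • F j := by
      refine integral_congr_ae ?_
      filter_upwards [hmem.coeFn_toLp] with x hx
      rw [hg, hx, hilbert_tf, Finset.smul_sum]
      simp_rw [smul_smul]
    rw [e1, integral_finsetSum]
    · refine Finset.sum_congr rfl fun j _ => ?_
      rw [integral_smul_const, pair_hil]
    · intro j _
      refine Integrable.smul_const ?_ _
      refine Continuous.integrable_of_hasCompactSupport ?_ ?_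
      · exact (Complex.continuous_ofReal.comp (bmp_continuous.comp
          (continuous_id.sub continuous_const))).mul (hil_continuous (p j))
      · refine HasCompactSupport.mul_right ?_
        refine HasCompactSupport.intro (K := Icc (p i : ℝ) (p i + 1 / 2)) isCompact_Icc
          fun x hx => ?_
        rw [bmp_zero]
        · simp
        · by_contra hc
          push Not at hc
          exact hx ⟨by linarith [hc.1], by linarith [hc.2]⟩
  have h2 : ∑ i, ‖BB (p i) g‖ ^ 2 ≤ Sb * ‖g‖ ^ 2 := by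
    calc ∑ i, ‖BB (p i) g‖ ^ 2
        ≤ ∑ i, Sb * ∫ x, (if bmp (x - p i) = 0 then 0 else ‖g x‖ ^ 2) :=
          Finset.sum_le_sum fun i _ => BB_norm _ _
      _ = Sb * ∑ i, ∫ x, (if bmp (x - p i) = 0 then 0 else ‖g x‖ ^ 2) := by
          rw [Finset.mul_sum]
      _ ≤ Sb * ‖g‖ ^ 2 := by
          refine mul_le_mul_of_nonneg_left ?_ Sb_nonneg
          have hint : ∀ i, Integrable (fun x : ℝ =>
              (if bmp (x - p i) = 0 then 0 else ‖g x‖ ^ 2)) := by
            intro i
            have h2 : MeasurableSet {x : ℝ | bmp (x - p i) = 0} := by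
              have : Measurable (fun x : ℝ => bmp (x - p i)) :=
                bmp_continuous.measurable.comp (measurable_id.sub_const _)
              exact this (measurableSet_singleton 0)
            have h3 : (fun x : ℝ => (if bmp (x - p i) = 0 then 0 else ‖g x‖ ^ 2))
                = Set.indicator {x : ℝ | bmp (x - p i) = 0}ᶜ (fun x => ‖g x‖ ^ 2) := by
              funext x
              by_cases hx : bmp (x - p i) = 0
              · simp [hx]
              · simp [hx]
            rw [h3]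
            exact (L2_integrable g).indicator h2.compl
          rw [L2_norm_sq, ← integral_finsetSum _ fun i _ => hint i]
          refine integral_mono (integrable_finsetSum _ fun i _ => hint i)
            (L2_integrable g) fun x => ?_
          refine sum_single_le _ (by positivity) (fun i => ?_) fun i j hi hj => ?_
          · by_cases hx : bmp (x - p i) = 0
            · left; simp [hx]
            · right; simp [hx]
          · have hi' : bmp (x - p i) ≠ 0 := fun hc => hi (by simp [hc])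
            have hj' : bmp (x - p j) ≠ 0 := fun hc => hj (by simp [hc])
            exact hp (bmp_disjoint hi' hj')
  have h3 : ‖f‖ ^ 2 = Sb * ∑ j, ‖F j‖ ^ 2 := by
    rw [L2_norm_sq]
    have e1 : ∀ᵐ x : ℝ, ‖f x‖ ^ 2 = ∑ j, bmp (x - p j) ^ 2 * ‖F j‖ ^ 2 := by
      filter_upwards [SchwartzMap.coeFn_toLp (tf p F) 2 (volume : Measure ℝ)] with x hx
      rw [hf, hx, tf_apply]
      exact sum_single_norm _ _ fun i j hi hj => hp (bmp_disjoint hi hj)
    rw [integral_congr_ae e1, integral_finsetSum]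
    · rw [Finset.mul_sum]
      refine Finset.sum_congr rfl fun j _ => ?_
      rw [integral_mul_const, Sb_translate]
    · intro j _
      exact (bmp_sq_integrable.comp_sub_right (p j : ℝ)).mul_const _
  calc ∑ i, ‖∑ j, ((cc (p i - p j) : ℝ) : ℂ) • F j‖ ^ 2
      = ∑ i, ‖BB (p i) g‖ ^ 2 := by simp_rw [h1]
    _ ≤ Sb * ‖g‖ ^ 2 := h2
    _ ≤ Sb * (T * ‖f‖) ^ 2 := by
        have hS := Sb_nonneg
        gcongr
    _ = Sb * ((T : ℝ) ^ 2 * Sb) * ∑ j, ‖F j‖ ^ 2 := by
        rw [mul_pow, h3]; ring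

end Y

end Pool.Agent.Helper45.Umd
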