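import Mathlib
import Pool.Agent.Helper45.Umd.Cont
set_option autoImplicit false

/-! The equivalent lattice norm `x ↦ sup_{t ≥ 0} ‖T t |x|‖` making the semigroup contractive. -/

namespace Pool.Agent.Helper45.Umd

open Finset Filter
open scoped Topology

section absv
variable {𝕜 : Type} [RCLike 𝕜]

/-- the modulus -/
noncomputable def absv (x : H2 𝕜) : H2 ℝ :=
  ⟨fun i => ‖x i‖, mem_of_sq (C := ‖x‖ ^ 2) fun s => by
    simpa using sq_sum_le x s⟩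

@[simp] theorem absv_apply (x : H2 𝕜) (i : ℕ ⊕ ℕ) : absv x i = ‖x i‖ := rfl

/-- monotonicity of the `ℓ²` norm -/
theorem norm_mono {𝕜' : Type} [RCLike 𝕜'] {x : H2 𝕜} {y : H2 𝕜'} (h : ∀ i, ‖x i‖ ≤ ‖y i‖) :
    ‖x‖ ≤ ‖y‖ := by
  refine norm_le_of_sq x (norm_nonneg y) fun s => ?_
  refine le_trans (Finset.sum_le_sum fun i _ => ?_) (sq_sum_le y s)
  have := h i
  gcongr

theorem norm_absv (x : H2 𝕜) : ‖absv x‖ = ‖x‖ :=
  le_antisymm (norm_mono fun i => by simp) (norm_mono fun i => by simp)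

theorem Tf_nonneg {t : ℝ} (ht : 0 ≤ t) {u : ℕ ⊕ ℕ → ℝ} (hu : ∀ i, 0 ≤ u i) (i : ℕ ⊕ ℕ) :
    0 ≤ Tf t u i := by
  rcases i with k | m
  · simp only [Tf, RCLike.ofReal_real_eq_id, id]
    refine add_nonneg (mul_nonneg (Real.exp_pos _).le (hu _)) (Finset.sum_nonneg fun m hm => ?_)
    rw [Finset.mem_range] at hm
    exact mul_nonneg (ga_nonneg ht (by omega)) (hu _)
  · simp only [Tf, RCLike.ofReal_real_eq_id, id]
    exact mul_nonneg (Real.exp_pos _).le (hu _)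

theorem Tf_mono {t : ℝ} (ht : 0 ≤ t) {u v : ℕ ⊕ ℕ → ℝ} (huv : ∀ i, u i ≤ v i) (i : ℕ ⊕ ℕ) :
    Tf t u i ≤ Tf t v i := by
  have h1 := Tf_nonneg ht (u := v - u) (fun i => sub_nonneg.mpr (huv i)) i
  have h2 := Tf_add t (v - u) u
  rw [sub_add_cancel] at h2
  have h3 := congrFun h2 i
  rw [Pi.add_apply] at h3
  linarith

/-- domination -/
theorem norm_Tf_le {t : ℝ} (ht : 0 ≤ t) (x : H2 𝕜) (i : ℕ ⊕ ℕ) :
    ‖Tf t (x : ℕ ⊕ ℕ → 𝕜) i‖ ≤ Tf t (absv x : ℕ ⊕ ℕ → ℝ) i := by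
  rcases i with k | m
  · simp only [Tf, RCLike.ofReal_real_eq_id, id, absv_apply]
    refine (norm_add_le _ _).trans ?_
    gcongr
    · rw [norm_mul, RCLike.norm_ofReal, abs_of_pos (Real.exp_pos _)]
    · refine (norm_sum_le _ _).trans (Finset.sum_le_sum fun m hm => ?_)
      rw [Finset.mem_range] at hm
      rw [norm_mul, RCLike.norm_ofReal, abs_of_nonneg (ga_nonneg ht (by omega))]
  · simp only [Tf, RCLike.ofReal_real_eq_id, id, absv_apply]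
    rw [norm_mul, RCLike.norm_ofReal, abs_of_pos (Real.exp_pos _)]

theorem norm_TT_mono {t : ℝ} (ht : 0 ≤ t) {u v : H2 ℝ} (hu : ∀ i, 0 ≤ u i)
    (huv : ∀ i, u i ≤ v i) : ‖TT t u‖ ≤ ‖TT t v‖ := by
  refine norm_mono fun i => ?_
  rw [TT_apply ht, TT_apply ht, Real.norm_of_nonneg (Tf_nonneg ht hu i),
    Real.norm_of_nonneg (Tf_nonneg ht (fun i => (hu i).trans (huv i)) i)]
  exact Tf_mono ht huv i

/-- the new norm -/
noncomputable def Nn (x : H2 𝕜) : ℝ := ⨆ t : {t : ℝ // 0 ≤ t}, ‖TT t.1 (absv x)‖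

instance : Nonempty {t : ℝ // 0 ≤ t} := ⟨⟨0, le_refl 0⟩⟩

theorem Nn_bdd (x : H2 𝕜) :
    BddAbove (Set.range fun t : {t : ℝ // 0 ≤ t} => ‖TT t.1 (absv x)‖) := by
  refine ⟨KK * ‖x‖, ?_⟩
  rintro _ ⟨t, rfl⟩
  rw [← norm_absv x]
  exact TT_norm_le _ _

theorem le_Nn (x : H2 𝕜) {t : ℝ} (ht : 0 ≤ t) : ‖TT t (absv x)‖ ≤ Nn x :=
  le_ciSup (Nn_bdd x) ⟨t, ht⟩

theorem Nn_le {x : H2 𝕜} {C : ℝ} (h : ∀ t, 0 ≤ t → ‖TT t (absv x)‖ ≤ C) : Nn x ≤ C :=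
  ciSup_le fun t => h t.1 t.2

theorem norm_le_Nn (x : H2 𝕜) : ‖x‖ ≤ Nn x := by
  have := le_Nn x (le_refl 0)
  rwa [TT_zero, norm_absv] at this

theorem Nn_le_KK (x : H2 𝕜) : Nn x ≤ KK * ‖x‖ :=
  Nn_le fun t _ => by rw [← norm_absv x]; exact TT_norm_le _ _

theorem Nn_nonneg (x : H2 𝕜) : 0 ≤ Nn x := (norm_nonneg x).trans (norm_le_Nn x)

theorem Nn_mono {𝕜' : Type} [RCLike 𝕜'] {x : H2 𝕜} {y : H2 𝕜'} (h : ∀ i, ‖x i‖ ≤ ‖y i‖) :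
    Nn x ≤ Nn y :=
  Nn_le fun t ht => (norm_TT_mono ht (fun i => by simp) (fun i => by simpa using h i)).trans
    (le_Nn y ht)

theorem Nn_smul (c : 𝕜) (x : H2 𝕜) : Nn (c • x) = ‖c‖ * Nn x := by
  have h1 : absv (c • x) = ‖c‖ • absv x := by
    apply Subtype.ext
    funext i
    show ‖c • x i‖ = ‖c‖ • ‖x i‖
    rw [norm_smul]; rfl
  unfold Nn
  rw [Real.mul_iSup_of_nonneg (norm_nonneg c)]
  congr 1
  funext t
  rw [h1, map_smul, norm_smul, norm_norm]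

theorem Nn_add (x y : H2 𝕜) : Nn (x + y) ≤ Nn x + Nn y := by
  refine Nn_le fun t ht => ?_
  have h1 : ‖TT t (absv (x + y))‖ ≤ ‖TT t (absv x + absv y)‖ := by
    refine norm_TT_mono ht (fun i => by simp) fun i => ?_
    show ‖x i + y i‖ ≤ ‖x i‖ + ‖y i‖
    exact norm_add_le _ _
  refine h1.trans ?_
  rw [map_add]
  exact (norm_add_le _ _).trans (add_le_add (le_Nn x ht) (le_Nn y ht))

theorem Nn_TT {s : ℝ} (hs : 0 ≤ s) (x : H2 𝕜) : Nn (TT s x) ≤ Nn x := by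
  refine Nn_le fun t ht => ?_
  have h1 : ‖TT t (absv (TT s x))‖ ≤ ‖TT t (TT s (absv x))‖ := by
    refine norm_TT_mono ht (fun i => by simp) fun i => ?_
    rw [absv_apply, TT_apply hs, TT_apply hs]
    exact norm_Tf_le hs x i
  refine h1.trans ?_
  rw [← TT_add ht hs]
  exact le_Nn x (add_nonneg ht hs)

end absv

/-- the space `ℓ²(ℕ ⊕ ℕ)` with the new norm -/
def Ren (𝕜 : Type) [RCLike 𝕜] : Type := H2 𝕜

section Ren
variable {𝕜 : Type} [RCLike 𝕜]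

noncomputable instance : AddCommGroup (Ren 𝕜) := inferInstanceAs (AddCommGroup (H2 𝕜))
noncomputable instance : Module 𝕜 (Ren 𝕜) := inferInstanceAs (Module 𝕜 (H2 𝕜))

/-- the identity map -/
noncomputable def toH : Ren 𝕜 ≃ₗ[𝕜] H2 𝕜 := LinearEquiv.refl 𝕜 (H2 𝕜)

noncomputable instance : Norm (Ren 𝕜) := ⟨fun x => Nn (toH x)⟩

theorem Ren.norm_def (x : Ren 𝕜) : ‖x‖ = Nn (toH x) := rfl

theorem Ren.core : NormedSpace.Core 𝕜 (Ren 𝕜) where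
  norm_nonneg x := Nn_nonneg _
  norm_smul c x := by rw [Ren.norm_def, map_smul, Nn_smul]; rfl
  norm_triangle x y := by rw [Ren.norm_def, map_add]; exact Nn_add _ _
  norm_eq_zero_iff x := by
    constructor
    · intro h
      have h1 : ‖toH x‖ ≤ 0 := by
        have := norm_le_Nn (toH x)
        rw [Ren.norm_def] at h
        linarith
      have h2 : toH x = 0 := norm_le_zero_iff.mp h1
      exact (LinearEquiv.map_eq_zero_iff _).mp h2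
    · rintro rfl
      rw [Ren.norm_def, map_zero]
      have h1 := Nn_le_KK (0 : H2 𝕜)
      rw [norm_zero, mul_zero] at h1
      exact le_antisymm h1 (Nn_nonneg _)

noncomputable instance : NormedAddCommGroup (Ren 𝕜) := NormedAddCommGroup.ofCore (𝕜 := 𝕜) Ren.core
noncomputable instance : NormedSpace 𝕜 (Ren 𝕜) := NormedSpace.ofCore (𝕜 := 𝕜) Ren.core

theorem toH_norm_le (x : Ren 𝕜) : ‖toH x‖ ≤ ‖x‖ := norm_le_Nn _
theorem norm_le_toH (x : Ren 𝕜) : ‖x‖ ≤ KK * ‖toH x‖ := Nn_le_KK _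

/-- the identity map as a topological isomorphism -/
noncomputable def toHc : Ren 𝕜 ≃L[𝕜] H2 𝕜 :=
  LinearEquiv.toContinuousLinearEquivOfBounds toH 1 KK
    (fun x => by rw [one_mul]; exact toH_norm_le x)
    (fun x => by
      have := norm_le_toH (toH.symm x)
      rwa [LinearEquiv.apply_symm_apply] at this)

theorem toHc_apply (x : Ren 𝕜) : toHc x = toH x := rfl

instance : CompleteSpace (Ren 𝕜) :=
  (completeSpace_congr (e := (toHc (𝕜 := 𝕜)).toLinearEquiv.toEquiv)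
    (toHc (𝕜 := 𝕜)).isUniformEmbedding).mpr inferInstance

/-- coordinates -/
noncomputable def Ren.coord (x : Ren 𝕜) (i : ℕ ⊕ ℕ) : 𝕜 := (toH x : H2 𝕜) i

theorem Ren.ext {x y : Ren 𝕜} (h : ∀ i, x.coord i = y.coord i) : x = y := by
  apply toH.injective
  apply Subtype.ext
  funext i
  exact h i

@[simp] theorem Ren.coord_add (x y : Ren 𝕜) (i : ℕ ⊕ ℕ) :
    (x + y).coord i = x.coord i + y.coord i := rfl
@[simp] theorem Ren.coord_sub (x y : Ren 𝕜) (i : ℕ ⊕ ℕ) :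
    (x - y).coord i = x.coord i - y.coord i := rfl
@[simp] theorem Ren.coord_neg (x : Ren 𝕜) (i : ℕ ⊕ ℕ) : (-x).coord i = - x.coord i := rfl
@[simp] theorem Ren.coord_zero (i : ℕ ⊕ ℕ) : (0 : Ren 𝕜).coord i = 0 := rfl
@[simp] theorem Ren.coord_smul (c : 𝕜) (x : Ren 𝕜) (i : ℕ ⊕ ℕ) :
    (c • x).coord i = c * x.coord i := rfl

/-- element with given coordinates -/
noncomputable def Ren.mk (f : ℕ ⊕ ℕ → 𝕜) (C : ℝ)
    (h : ∀ s : Finset (ℕ ⊕ ℕ), ∑ i ∈ s, ‖f i‖ ^ 2 ≤ C) : Ren 𝕜 :=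
  toH.symm ⟨f, mem_of_sq h⟩

@[simp] theorem Ren.coord_mk (f : ℕ ⊕ ℕ → 𝕜) (C : ℝ)
    (h : ∀ s : Finset (ℕ ⊕ ℕ), ∑ i ∈ s, ‖f i‖ ^ 2 ≤ C) (i : ℕ ⊕ ℕ) :
    (Ren.mk f C h).coord i = f i := rfl

theorem Ren.sq_sum_le (x : Ren 𝕜) (s : Finset (ℕ ⊕ ℕ)) :
    ∑ i ∈ s, ‖x.coord i‖ ^ 2 ≤ ‖x‖ ^ 2 := by
  have h1 := Umd.sq_sum_le (toH x) s
  have h2 := toH_norm_le x
  refine h1.trans ?_
  gcongr

theorem Ren.norm_mono {𝕜' : Type} [RCLike 𝕜'] {x : Ren 𝕜} {y : Ren 𝕜'}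
    (h : ∀ i, ‖x.coord i‖ ≤ ‖y.coord i‖) : ‖x‖ ≤ ‖y‖ := Nn_mono h

theorem Ren.norm_le_of_sq (x : Ren 𝕜) {C : ℝ} (hC : 0 ≤ C)
    (h : ∀ s : Finset (ℕ ⊕ ℕ), ∑ i ∈ s, ‖x.coord i‖ ^ 2 ≤ C ^ 2) : ‖x‖ ≤ KK * C := by
  refine (norm_le_toH x).trans ?_
  have := Umd.norm_le_of_sq (toH x) hC h
  have := KK_nonneg
  gcongr

/-- the semigroup on the renormed space -/
noncomputable def TR (t : ℝ) : Ren 𝕜 →L[𝕜] Ren 𝕜 :=
  ((toHc (𝕜 := 𝕜)).symm : H2 𝕜 →L[𝕜] Ren 𝕜) ∘L (TT t ∘L (toHc (𝕜 := 𝕜) : Ren 𝕜 →L[𝕜] H2 𝕜))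

theorem TR_apply (t : ℝ) (x : Ren 𝕜) : TR t x = toH.symm (TT t (toH x)) := rfl

theorem toH_TR (t : ℝ) (x : Ren 𝕜) : toH (TR t x) = TT t (toH x) := rfl

theorem TR_coord {t : ℝ} (ht : 0 ≤ t) (x : Ren 𝕜) (i : ℕ ⊕ ℕ) :
    (TR t x).coord i = Tf t x.coord i := by
  show (toH (TR t x) : H2 𝕜) i = _
  rw [toH_TR, TT_apply ht]
  rfl

theorem TR_norm_le {t : ℝ} (ht : 0 ≤ t) (x : Ren 𝕜) : ‖TR t x‖ ≤ ‖x‖ := by
  rw [Ren.norm_def, Ren.norm_def, toH_TR]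
  exact Nn_TT ht _

theorem TR_zero (x : Ren 𝕜) : TR 0 x = x := by
  apply toH.injective
  rw [toH_TR]
  exact TT_zero _

theorem TR_add {s t : ℝ} (hs : 0 ≤ s) (ht : 0 ≤ t) (x : Ren 𝕜) :
    TR (s + t) x = TR s (TR t x) := by
  apply toH.injective
  rw [toH_TR, toH_TR, toH_TR]
  exact TT_add hs ht _

theorem TR_continuousOn (x : Ren 𝕜) : ContinuousOn (fun t => TR t x) (Set.Ici 0) := by
  have h1 := (toHc (𝕜 := 𝕜)).symm.continuous.comp_continuousOn (continuousOn_TT (toHc (𝕜 := 𝕜) x))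
  exact h1

end Ren

end Pool.Agent.Helper45.Umd
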