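import Mathlib
import Pool.Agent.Helper45.Umd.Renorm
import Pool.Agent.Helper45.Umd.Defs
set_option autoImplicit false

/-! The Banach lattice structure of the renormed space. -/

namespace Pool.Agent.Helper45.Umd

open Finset Filter

theorem sum_two_bound (x y : Ren ℝ) (f : ℕ ⊕ ℕ → ℝ)
    (hf : ∀ i, ‖f i‖ ^ 2 ≤ ‖x.coord i‖ ^ 2 + ‖y.coord i‖ ^ 2) (s : Finset (ℕ ⊕ ℕ)) :
    ∑ i ∈ s, ‖f i‖ ^ 2 ≤ ‖x‖ ^ 2 + ‖y‖ ^ 2 := by
  refine (Finset.sum_le_sum fun i _ => hf i).trans ?_
  rw [Finset.sum_add_distrib]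
  exact add_le_add (Ren.sq_sum_le x s) (Ren.sq_sum_le y s)

theorem max_sq_le (a b : ℝ) : ‖max a b‖ ^ 2 ≤ ‖a‖ ^ 2 + ‖b‖ ^ 2 := by
  simp only [Real.norm_eq_abs, sq_abs]
  rcases le_total a b with h | h
  · rw [max_eq_right h]; nlinarith [sq_nonneg a]
  · rw [max_eq_left h]; nlinarith [sq_nonneg b]

theorem min_sq_le (a b : ℝ) : ‖min a b‖ ^ 2 ≤ ‖a‖ ^ 2 + ‖b‖ ^ 2 := by
  simp only [Real.norm_eq_abs, sq_abs]
  rcases le_total a b with h | h
  · rw [min_eq_left h]; nlinarith [sq_nonneg b]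
  · rw [min_eq_right h]; nlinarith [sq_nonneg a]

noncomputable instance : Lattice (Ren ℝ) where
  le x y := ∀ i, x.coord i ≤ y.coord i
  le_refl x i := le_refl _
  le_trans x y z h1 h2 i := (h1 i).trans (h2 i)
  le_antisymm x y h1 h2 := Ren.ext fun i => le_antisymm (h1 i) (h2 i)
  sup x y := Ren.mk (fun i => max (x.coord i) (y.coord i)) (‖x‖ ^ 2 + ‖y‖ ^ 2)
    (sum_two_bound x y _ fun i => max_sq_le _ _)
  inf x y := Ren.mk (fun i => min (x.coord i) (y.coord i)) (‖x‖ ^ 2 + ‖y‖ ^ 2)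
    (sum_two_bound x y _ fun i => min_sq_le _ _)
  le_sup_left x y i := le_max_left _ _
  le_sup_right x y i := le_max_right _ _
  sup_le x y z h1 h2 i := max_le (h1 i) (h2 i)
  inf_le_left x y i := min_le_left _ _
  inf_le_right x y i := min_le_right _ _
  le_inf x y z h1 h2 i := le_min (h1 i) (h2 i)

theorem Ren.le_def {x y : Ren ℝ} : x ≤ y ↔ ∀ i, x.coord i ≤ y.coord i := Iff.rfl

theorem Ren.coord_sup (x y : Ren ℝ) (i : ℕ ⊕ ℕ) :
    (x ⊔ y).coord i = max (x.coord i) (y.coord i) := rfl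

theorem Ren.coord_abs (x : Ren ℝ) (i : ℕ ⊕ ℕ) : (|x|).coord i = |x.coord i| := rfl

instance : IsOrderedAddMonoid (Ren ℝ) where
  add_le_add_left x y h z i := by
    rw [Ren.coord_add, Ren.coord_add]
    have := h i
    linarith

instance : IsOrderedModule ℝ (Ren ℝ) where
  smul_le_smul_of_nonneg_left c hc x y h i := by
    rw [Ren.coord_smul, Ren.coord_smul]
    exact mul_le_mul_of_nonneg_left (h i) hc
  smul_le_smul_of_nonneg_right x hx c d h i := by
    rw [Ren.coord_smul, Ren.coord_smul]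
    exact mul_le_mul_of_nonneg_right h (hx i)

instance : HasSolidNorm (Ren ℝ) where
  solid x y h := Ren.norm_mono fun i => h i

/-- inclusion of the real part -/
noncomputable def iota : Ren ℝ →ₗ[ℝ] Ren ℂ where
  toFun x := Ren.mk (fun i => (x.coord i : ℂ)) (‖x‖ ^ 2) (fun s => by
    simpa using Ren.sq_sum_le x s)
  map_add' x y := Ren.ext fun i => by simp
  map_smul' r x := Ren.ext fun i => by
    show ((r * x.coord i : ℝ) : ℂ) = (r : ℂ) * (x.coord i : ℂ)
    push_cast; rfl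

@[simp] theorem iota_coord (x : Ren ℝ) (i : ℕ ⊕ ℕ) : (iota x).coord i = (x.coord i : ℂ) := rfl

/-- real part -/
noncomputable def reR (z : Ren ℂ) : Ren ℝ :=
  Ren.mk (fun i => (z.coord i).re) (‖z‖ ^ 2) (fun s => by
    refine le_trans (Finset.sum_le_sum fun i _ => ?_) (Ren.sq_sum_le z s)
    have := Complex.abs_re_le_norm (z.coord i)
    rw [Real.norm_eq_abs]
    gcongr)

/-- imaginary part -/
noncomputable def imR (z : Ren ℂ) : Ren ℝ :=
  Ren.mk (fun i => (z.coord i).im) (‖z‖ ^ 2) (fun s => by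
    refine le_trans (Finset.sum_le_sum fun i _ => ?_) (Ren.sq_sum_le z s)
    have := Complex.abs_im_le_norm (z.coord i)
    rw [Real.norm_eq_abs]
    gcongr)

theorem cos_sin_le (a b θ : ℝ) : Real.cos θ * a + Real.sin θ * b ≤ Real.sqrt (a ^ 2 + b ^ 2) := by
  apply Real.le_sqrt_of_sq_le
  have := Real.sin_sq_add_cos_sq θ
  nlinarith [sq_nonneg (Real.sin θ * a - Real.cos θ * b)]

theorem exists_cos_sin (a b : ℝ) :
    ∃ θ : ℝ, Real.cos θ * a + Real.sin θ * b = Real.sqrt (a ^ 2 + b ^ 2) := by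
  set z : ℂ := ⟨a, b⟩ with hz
  have hn : ‖z‖ = Real.sqrt (a ^ 2 + b ^ 2) := by
    rw [Complex.norm_def, Complex.normSq_apply]
    simp [hz, sq]
  by_cases h0 : z = 0
  · refine ⟨0, ?_⟩
    have ha : a = 0 := congrArg Complex.re h0
    have hb : b = 0 := congrArg Complex.im h0
    simp [ha, hb]
  · refine ⟨Complex.arg z, ?_⟩
    have h1 := Complex.cos_arg h0
    have h2 := Complex.sin_arg z
    rw [h1, h2, ← hn]
    have hpos : 0 < ‖z‖ := norm_pos_iff.mpr h0
    have h3 : ‖z‖ ^ 2 = a ^ 2 + b ^ 2 := by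
      rw [hn, Real.sq_sqrt (by positivity)]
    have e1 : z.re = a := rfl
    have e2 : z.im = b := rfl
    rw [e1, e2]
    field_simp
    linarith

theorem iota_isComplexification : IsComplexification iota where
  decomp z := by
    refine ⟨(reR z, imR z), ?_, ?_⟩
    · refine Ren.ext fun i => ?_
      simp only [Ren.coord_add, Ren.coord_smul, iota_coord, reR, imR, Ren.coord_mk]
      rw [mul_comm]
      exact (Complex.re_add_im _).symm
    · rintro ⟨a, b⟩ h
      have h1 : ∀ i, z.coord i = (a.coord i : ℂ) + Complex.I * (b.coord i : ℂ) := by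
        intro i
        rw [h]
        simp
      refine Prod.ext ?_ ?_
      · refine Ren.ext fun i => ?_
        simp only [reR, Ren.coord_mk, h1 i]
        simp
      · refine Ren.ext fun i => ?_
        simp only [imR, Ren.coord_mk, h1 i]
        simp
  norm_eq a b := by
    refine ⟨Ren.mk (fun i => Real.sqrt (a.coord i ^ 2 + b.coord i ^ 2)) (‖a‖ ^ 2 + ‖b‖ ^ 2)
      (sum_two_bound a b _ fun i => ?_), ⟨?_, ?_⟩, ?_⟩
    · rw [Real.norm_eq_abs, sq_abs, Real.sq_sqrt (by positivity)]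
      simp
    · rintro _ ⟨θ, rfl⟩ i
      simp only [Ren.coord_add, Ren.coord_smul, Ren.coord_mk]
      exact cos_sin_le _ _ _
    · intro u hu i
      obtain ⟨θ, hθ⟩ := exists_cos_sin (a.coord i) (b.coord i)
      have h1 : (Real.cos θ • a + Real.sin θ • b) ≤ u := hu ⟨θ, rfl⟩
      have h2 := h1 i
      simp only [Ren.coord_add, Ren.coord_smul] at h2
      rw [Ren.coord_mk, ← hθ]
      exact h2
    · have h1 : ∀ i, ‖(iota a + Complex.I • iota b).coord i‖
          = Real.sqrt (a.coord i ^ 2 + b.coord i ^ 2) := by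
        intro i
        simp only [Ren.coord_add, Ren.coord_smul, iota_coord]
        rw [Complex.norm_def, Complex.normSq_apply]
        simp [sq]
      refine le_antisymm (Ren.norm_mono fun i => ?_) (Ren.norm_mono fun i => ?_)
      · rw [h1, Ren.coord_mk, Real.norm_of_nonneg (Real.sqrt_nonneg _)]
      · rw [h1, Ren.coord_mk, Real.norm_of_nonneg (Real.sqrt_nonneg _)]

/-- positivity of the semigroup -/
theorem TR_positive {t : ℝ} (ht : 0 ≤ t) (a : Ren ℝ) (ha : 0 ≤ a) :
    ∃ b : Ren ℝ, 0 ≤ b ∧ TR t (iota a) = iota b := by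
  refine ⟨TR t a, fun i => ?_, Ren.ext fun i => ?_⟩
  · rw [TR_coord ht]
    exact Tf_nonneg ht ha i
  · rw [TR_coord ht, iota_coord, TR_coord ht]
    rcases i with k | m
    · simp [Tf]
    · simp [Tf]

end Pool.Agent.Helper45.Umd
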