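import Mathlib
import Pool.Agent.Helper45.Umd.Latt
import Pool.Agent.Helper45.Umd.HT
set_option autoImplicit false

/-! Hilbert spaces, and spaces isomorphic to them, are UMD. -/

namespace Pool.Agent.Helper45.Umd

open MeasureTheory FourierTransform Real Filter Set
open scoped Topology SchwartzMap NNReal

section transport
variable {X Z : Type*} [NormedAddCommGroup X] [NormedSpace ℂ X]
  [NormedAddCommGroup Z] [NormedSpace ℂ Z]

theorem fourier_equiv (e : X ≃L[ℂ] Z) (f : ℝ → X) (ξ : ℝ) : 𝓕 (fun t => e (f t)) ξ = e (𝓕 f ξ) := by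
  rw [Real.fourier_eq, Real.fourier_eq, ← ContinuousLinearEquiv.integral_comp_comm]
  refine integral_congr_ae (Filter.Eventually.of_forall fun t => ?_)
  simp only [Circle.smul_def, map_smul]

theorem fourierInv_equiv (e : X ≃L[ℂ] Z) (f : ℝ → X) (ξ : ℝ) :
    𝓕⁻ (fun t => e (f t)) ξ = e (𝓕⁻ f ξ) := by
  rw [Real.fourierInv_eq, Real.fourierInv_eq, ← ContinuousLinearEquiv.integral_comp_comm]
  refine integral_congr_ae (Filter.Eventually.of_forall fun t => ?_)
  simp only [Circle.smul_def, map_smul]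

theorem hilbert_equiv (e : X ≃L[ℂ] Z) (f : ℝ → X) (t : ℝ) :
    hilbertTransform (fun s => e (f s)) t = e (hilbertTransform f t) := by
  unfold hilbertTransform
  rw [← fourierInv_equiv]
  have h1 : (fun ξ : ℝ => (-Complex.I * ((SignType.sign ξ : ℝ) : ℂ)) • 𝓕 (fun s => e (f s)) ξ)
      = fun ξ : ℝ => e ((-Complex.I * ((SignType.sign ξ : ℝ) : ℂ)) • 𝓕 f ξ) := by
    funext ξ
    rw [fourier_equiv, map_smul]
  rw [h1]

theorem IsUMD.of_equiv (h : IsUMD Z) (e : X ≃L[ℂ] Z) : IsUMD X := by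
  obtain ⟨C, hC⟩ := h
  refine ⟨‖(e.symm : Z →L[ℂ] X)‖₊ * (C * ‖(e : X →L[ℂ] Z)‖₊), fun f => ?_⟩
  have h1 := hC (f.postcompCLM (e : X →L[ℂ] Z))
  have e1 : (f.postcompCLM (e : X →L[ℂ] Z) : ℝ → Z) = fun s => e (f s) := rfl
  rw [e1] at h1
  have h2 : eLpNorm (hilbertTransform (f : ℝ → X)) 2 volume
      ≤ ‖(e.symm : Z →L[ℂ] X)‖₊ * eLpNorm (hilbertTransform (fun s => e (f s))) 2 volume := by
    refine eLpNorm_le_nnreal_smul_eLpNorm_of_ae_le_mul ?_ 2
    refine Filter.Eventually.of_forall fun t => ?_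
    rw [hilbert_equiv]
    have := (e.symm : Z →L[ℂ] X).le_opNNNorm (e (hilbertTransform (f : ℝ → X) t))
    simpa using this
  have h3 : eLpNorm (fun s => e (f s)) 2 volume
      ≤ ‖(e : X →L[ℂ] Z)‖₊ * eLpNorm (f : ℝ → X) 2 volume := by
    refine eLpNorm_le_nnreal_smul_eLpNorm_of_ae_le_mul ?_ 2
    exact Filter.Eventually.of_forall fun t => (e : X →L[ℂ] Z).le_opNNNorm (f t)
  calc eLpNorm (hilbertTransform (f : ℝ → X)) 2 volume
      ≤ ‖(e.symm : Z →L[ℂ] X)‖₊ * (C * (‖(e : X →L[ℂ] Z)‖₊ * eLpNorm (f : ℝ → X) 2 volume)) := by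
        refine h2.trans ?_
        gcongr
        exact h1.trans (by gcongr)
    _ = _ := by push_cast; ring

end transport

section hilb
variable {H : Type*} [NormedAddCommGroup H] [InnerProductSpace ℂ H] [CompleteSpace H]

theorem hilbert_isUMD : IsUMD H := by
  refine ⟨1, fun f => ?_⟩
  have hs : AEStronglyMeasurable (fun ξ : ℝ => -Complex.I * ((SignType.sign ξ : ℝ) : ℂ))
    (volume : Measure ℝ) := memLp_hilbertSymbol.1
  have hn : ∀ ξ : ℝ, ‖-Complex.I * ((SignType.sign ξ : ℝ) : ℂ)‖ ≤ 1 := by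
    intro ξ
    rw [norm_mul, norm_neg, Complex.norm_I, one_mul, Complex.norm_real]
    rcases lt_trichotomy ξ 0 with h | h | h
    · simp [h]
    · simp [h]
    · simp [h]
  set u : ℝ → H := fun ξ => (-Complex.I * ((SignType.sign ξ : ℝ) : ℂ)) • 𝓕 f ξ with hu
  have hu1 : Integrable u := by
    exact ((𝓕 f).integrable (μ := volume)).bdd_smul 1 hs (Filter.Eventually.of_forall hn)
  have hle : ∀ ξ, ‖u ξ‖ ≤ ‖𝓕 f ξ‖ := by
    intro ξ
    rw [hu]
    simp only
    rw [norm_smul]
    have := hn ξ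
    have := norm_nonneg (𝓕 f ξ)
    nlinarith
  have hu2 : MemLp u 2 (volume : Measure ℝ) :=
    ((𝓕 f).memLp 2 (volume : Measure ℝ)).of_le hu1.1 (Filter.Eventually.of_forall hle)
  set v : Lp H 2 (volume : Measure ℝ) := 𝓕⁻ (hu2.toLp u) with hv
  have key : hilbertTransform (f : ℝ → H) =ᵐ[volume] v := by
    have hcont : Continuous (hilbertTransform (f : ℝ → H)) := by
      have h1 : Continuous (VectorFourier.fourierIntegral 𝐞 (volume : Measure ℝ) (innerₗ ℝ) u) :=
        VectorFourier.fourierIntegral_continuous continuous_fourierChar continuous_inner hu1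
      have h2 : hilbertTransform (f : ℝ → H)
          = fun x => (VectorFourier.fourierIntegral 𝐞 (volume : Measure ℝ) (innerₗ ℝ) u) (-x) := by
        funext x
        exact Real.fourierInv_eq_fourier_neg u x
      rw [h2]
      exact h1.comp continuous_neg
    refine ae_eq_of_integral_contDiff_smul_eq hcont.locallyIntegrable
      ((Lp.memLp v).locallyIntegrable (by norm_num)) fun g hg hgc => ?_
    set G : 𝓢(ℝ, ℂ) := HasCompactSupport.toSchwartzMap (f := fun x : ℝ => ((g x : ℝ) : ℂ))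
      (hgc.comp_left (g := fun t : ℝ => (t : ℂ)) (by simp)) (Complex.ofRealCLM.contDiff.comp hg)
      with hG
    have e1 : ∫ x, g x • hilbertTransform (f : ℝ → H) x = ∫ x, G x • 𝓕⁻ u x := by
      refine integral_congr_ae (Filter.Eventually.of_forall fun x => ?_)
      show g x • 𝓕⁻ u x = ((g x : ℝ) : ℂ) • 𝓕⁻ u x
      rw [Complex.coe_smul]
    have e2 : ∫ x, G x • 𝓕⁻ u x = ∫ ξ, (𝓕⁻ G) ξ • u ξ := by
      have h1 := VectorFourier.integral_fourierIntegral_smul_eq_flip
        (μ := (volume : Measure ℝ)) (ν := (volume : Measure ℝ)) (L := -innerₗ ℝ) (f := G) (g := u)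
        continuous_fourierChar (by
          simp only [LinearMap.neg_apply]
          exact continuous_inner.neg) (G.integrable (μ := volume)) hu1
      have h2 : ∀ ξ : ℝ, VectorFourier.fourierIntegral 𝐞 (volume : Measure ℝ) (-innerₗ ℝ) G ξ
          = (𝓕⁻ G) ξ := by
        intro ξ
        rw [SchwartzMap.fourierInv_coe, Real.fourierInv_eq]
        simp [VectorFourier.fourierIntegral]
      have h3 : ∀ x : ℝ, VectorFourier.fourierIntegral 𝐞 (volume : Measure ℝ)
          (-innerₗ ℝ : ℝ →ₗ[ℝ] ℝ →ₗ[ℝ] ℝ).flip u x = 𝓕⁻ u x := by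
        intro x
        rw [Real.fourierInv_eq]
        simp [VectorFourier.fourierIntegral, mul_comm]
      simp only [h2, h3] at h1
      exact h1.symm
    have e3 : ∫ x, g x • v x = ∫ x, G x • v x := by
      refine integral_congr_ae (Filter.Eventually.of_forall fun x => ?_)
      show g x • v x = ((g x : ℝ) : ℂ) • v x
      rw [Complex.coe_smul]
    have e4 : ∫ x, G x • v x = ∫ ξ, (𝓕⁻ G) ξ • u ξ := by
      rw [← Lp.toTemperedDistribution_apply, hv, ← Lp.fourierInv_toTemperedDistribution_eq,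
        TemperedDistribution.fourierInv_apply, Lp.toTemperedDistribution_apply]
      refine integral_congr_ae ?_
      filter_upwards [hu2.coeFn_toLp] with ξ hξ
      rw [hξ]
    rw [e1, e2, e3, e4]
  calc eLpNorm (hilbertTransform (f : ℝ → H)) 2 volume = eLpNorm v 2 volume :=
        eLpNorm_congr_ae key
    _ = ENNReal.ofReal ‖v‖ := by
        rw [Lp.norm_def, ENNReal.ofReal_toReal (Lp.memLp v).2.ne]
    _ = ENNReal.ofReal ‖hu2.toLp u‖ := by
        rw [hv]
        congr 1
        exact (Lp.fourierTransformₗᵢ ℝ H).symm.norm_map _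
    _ = eLpNorm u 2 volume := by
        rw [Lp.norm_toLp, ENNReal.ofReal_toReal hu2.2.ne]
    _ ≤ eLpNorm (𝓕 f : 𝓢(ℝ, H)) 2 volume := eLpNorm_mono hle
    _ = ENNReal.ofReal ‖(𝓕 f).toLp 2 (volume : Measure ℝ)‖ := by
        rw [SchwartzMap.norm_toLp, ENNReal.ofReal_toReal ((𝓕 f).memLp 2 (volume : Measure ℝ)).2.ne]
    _ = ENNReal.ofReal ‖f.toLp 2 (volume : Measure ℝ)‖ := by
        rw [SchwartzMap.norm_fourier_toL2_eq]
    _ = eLpNorm f 2 volume := by
        rw [SchwartzMap.norm_toLp, ENNReal.ofReal_toReal (f.memLp 2 (volume : Measure ℝ)).2.ne]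
    _ = _ := by simp

end hilb

theorem ren_isUMD : IsUMD (Ren ℂ) := (hilbert_isUMD (H := H2 ℂ)).of_equiv toHc

end Pool.Agent.Helper45.Umd
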