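import Mathlib
import Pool.Agent.Helper45.Umd.Alg
set_option autoImplicit false

/-! Transference: the testing polynomials are bounded on bounded groups. -/

namespace Pool.Agent.Helper45.Umd

open Finset Polynomial

variable {Y : Type*} [NormedAddCommGroup Y] [NormedSpace ℝ Y]

theorem Y_bound {V W : Y →L[ℝ] Y} (hVW : V * W = 1) (hWV : W * V = 1) {K : ℝ}
    (hV : ∀ k : ℕ, ‖V ^ k‖ ≤ K) (hW : ∀ k : ℕ, ‖W ^ k‖ ≤ K) {θ : ℕ → ℝ} {C : ℝ} (hC : 0 ≤ C)
    (n : ℕ) (hB : OBdd Y n (M Hc θ n) C) {N : ℕ → ℕ} (hN : ∀ n, 3 * sig N n ≤ N n) (y : Y) :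
    ‖aeval V (PP θ N n) y‖ ≤ K ^ 2 * (4 * C) * ‖y‖ := by
  classical
  have hK : 0 ≤ K := (norm_nonneg _).trans (hV 0)
  let u : (Y →L[ℝ] Y)ˣ := ⟨V, W, hVW, hWV⟩
  let Λ : LaurentPolynomial ℝ →ₐ[ℝ] (Y →L[ℝ] Y) :=
    AddMonoidAlgebra.lift ℝ (Y →L[ℝ] Y) ℤ ((Units.coeHom (Y →L[ℝ] Y)).comp (zpowersHom _ u))
  have hΛ : ∀ m : ℤ, Λ (LaurentPolynomial.T m) = ((u ^ m : (Y →L[ℝ] Y)ˣ) : Y →L[ℝ] Y) := by
    intro m
    simp only [Λ, LaurentPolynomial.T]
    rw [AddMonoidAlgebra.lift_single, one_smul]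
    rfl
  have hT1 : Λ (LaurentPolynomial.T 1) = V := by
    rw [hΛ]; simp [u]
  have hTm1 : Λ (LaurentPolynomial.T (-1)) = W := by
    rw [hΛ]; simp [u]
  have hv : (LaurentPolynomial.T 1 : LaurentPolynomial ℝ) * LaurentPolynomial.T (-1) = 1 := by
    rw [← LaurentPolynomial.T_add]; simp
  set v : LaurentPolynomial ℝ := LaurentPolynomial.T 1 with hvdef
  set v' : LaurentPolynomial ℝ := LaurentPolynomial.T (-1) with hv'def
  let f : LaurentPolynomial ℝ →ₗ[ℝ] Y :=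
    { toFun := fun x => Λ x y
      map_add' := fun a b => by simp
      map_smul' := fun r a => by simp }
  have hf : ∀ x, f x = Λ x y := fun x => rfl
  have hF : ∀ w : D n, f (v ^ ht N n w) = (V ^ ht N n w) y := by
    intro w; rw [hf, map_pow, hT1]
  have hR : ∀ w : D n, f (RR θ N v n w)
      = M Hp θ n (M Hm θ n (fun w => (V ^ ht N n w) y)) w := by
    intro w
    simp only [RR]
    rw [← M_map f]
    congr 1
    funext w'
    rw [← M_map f]
    congr 1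
    funext w''
    exact hF w''
  have h1 : aeval V (PP θ N n) y = - avg n (fun w => (W ^ ht N n w) (f (RR θ N v n w))) := by
    have e1 := psi_eq θ N hN hv n
    have e2 : f (avg n (fun w => v' ^ (ht N n w) * RR θ N v n w)) = f (- aeval v (PP θ N n)) := by
      rw [e1]
    rw [← avg_map f, map_neg] at e2
    have e3 : f (aeval v (PP θ N n)) = aeval V (PP θ N n) y := by
      rw [hf, ← Polynomial.aeval_algHom_apply, hT1]
    have e4 : ∀ w, f (v' ^ (ht N n w) * RR θ N v n w) = (W ^ ht N n w) (f (RR θ N v n w)) := by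
      intro w
      rw [hf, map_mul, map_pow, hTm1]; rfl
    rw [← e3, eq_neg_iff_add_eq_zero, add_comm, ← eq_neg_iff_add_eq_zero]
    rw [← e2]
    simp_rw [e4]
  have hcard : (Fintype.card (D n) : ℝ) = 4 ^ n := by rw [card_D]; push_cast; rfl
  have h2 : ‖avg n (fun w => (W ^ ht N n w) (f (RR θ N v n w)))‖ ^ 2
      ≤ (K ^ 2 * (4 * C) * ‖y‖) ^ 2 := by
    have e1 := norm_avg_sq_le (fun w : D n => (W ^ ht N n w) (f (RR θ N v n w)))
    rw [hcard] at e1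
    have e2 : ∑ w : D n, ‖(W ^ ht N n w) (f (RR θ N v n w))‖ ^ 2
        ≤ K ^ 2 * ∑ w : D n, ‖f (RR θ N v n w)‖ ^ 2 := by
      rw [Finset.mul_sum]
      refine Finset.sum_le_sum fun w _ => ?_
      rw [← mul_pow]
      have : ‖(W ^ ht N n w) (f (RR θ N v n w))‖ ≤ K * ‖f (RR θ N v n w)‖ :=
        ((W ^ ht N n w).le_opNorm _).trans (by gcongr; exact hW _)
      gcongr
    have e3 : ∑ w : D n, ‖f (RR θ N v n w)‖ ^ 2
        ≤ (4 * C) ^ 2 * ∑ w : D n, ‖(V ^ ht N n w) y‖ ^ 2 := by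
      simp_rw [hR]
      exact comp_bdd hC n hB _
    have e4 : ∑ w : D n, ‖(V ^ ht N n w) y‖ ^ 2 ≤ 4 ^ n * (K * ‖y‖) ^ 2 := by
      have : ∑ w : D n, ‖(V ^ ht N n w) y‖ ^ 2 ≤ ∑ _w : D n, (K * ‖y‖) ^ 2 := by
        refine Finset.sum_le_sum fun w _ => ?_
        have : ‖(V ^ ht N n w) y‖ ≤ K * ‖y‖ :=
          ((V ^ ht N n w).le_opNorm _).trans (by gcongr; exact hV _)
        gcongr
      refine this.trans (le_of_eq ?_)
      rw [Finset.sum_const, Finset.card_univ, nsmul_eq_mul, hcard]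
    calc _ ≤ ((4 : ℝ) ^ n)⁻¹ * ∑ w : D n, ‖(W ^ ht N n w) (f (RR θ N v n w))‖ ^ 2 := e1
      _ ≤ ((4 : ℝ) ^ n)⁻¹ * (K ^ 2 * ((4 * C) ^ 2 * (4 ^ n * (K * ‖y‖) ^ 2))) := by
          gcongr
          refine e2.trans ?_
          gcongr
          refine e3.trans ?_
          gcongr
      _ = (K ^ 2 * (4 * C) * ‖y‖) ^ 2 := by
          have : (4 : ℝ) ^ n ≠ 0 := by positivity
          field_simp
  rw [h1, norm_neg]
  exact abs_le_of_sq_le_sq' h2 (by positivity) |>.2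

end Pool.Agent.Helper45.Umd
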