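import Mathlib
import Pool.Agent.Helper45.Umd.UMDX
import Pool.Agent.Helper45.Umd.YBound
import Pool.Agent.Helper45.Umd.Discrete
set_option autoImplicit false

/-! No loose dilation of the model semigroup in UMD spaces. -/

namespace Pool.Agent.Helper45.Umd

open Finset Polynomial Filter
open scoped Topology

theorem num_injective : ∀ n, Function.Injective (num n)
  | 0 => fun a b _ => rfl
  | n + 1 => by
      rintro ⟨a, v⟩ ⟨b, w⟩ h
      simp only [num] at h
      have h1 := num_nonneg n v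
      have h2 := num_lt n v
      have h3 := num_nonneg n w
      have h4 := num_lt n w
      have hp : (0 : ℤ) < 4 ^ n := by positivity
      have hab : (a.val : ℤ) = b.val := by
        rcases lt_trichotomy (a.val : ℤ) b.val with hlt | heq | hgt
        · have : (a.val : ℤ) + 1 ≤ b.val := hlt
          nlinarith
        · exact heq
        · have : (b.val : ℤ) + 1 ≤ a.val := hgt
          nlinarith
      have hab' : a = b := Fin.ext (by exact_mod_cast hab)
      subst hab'
      have hvw : num n v = num n w := by linarith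
      rw [num_injective n hvw]

/-- uniform bound of the shift operators on a UMD space -/
theorem shift_bdd {Y : Type*} [NormedAddCommGroup Y] [NormedSpace ℂ Y] [CompleteSpace Y]
    (h : IsUMD Y) : ∃ C : ℝ, 0 ≤ C ∧ ∀ n, OBdd Y n (M Hc (theta cc) n) C := by
  obtain ⟨C, hC, hd⟩ := discrete_bdd h
  refine ⟨C, hC, fun n => ?_⟩
  refine M_Hc_bdd cc_neg n fun F => ?_
  exact hd (num n) (num_injective n) F

/-- transference: the testing polynomials of a bounded group on a UMD space -/
theorem poly_bdd {Y : Type*} [NormedAddCommGroup Y] [NormedSpace ℂ Y] [CompleteSpace Y]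
    (h : IsUMD Y) {U : ℝ → Y →L[ℂ] Y} (hU : IsC0Group U) {K : ℝ} (hK : ∀ t, ‖U t‖ ≤ K) :
    ∃ B : ℝ, 0 ≤ B ∧ ∀ n y, ‖(PP (theta cc) NN n).sum (fun s a => a • U s y)‖ ≤ B * ‖y‖ := by
  obtain ⟨C, hC, hs⟩ := shift_bdd h
  set V : Y →L[ℝ] Y := (U 1).restrictScalars ℝ with hV
  set W : Y →L[ℝ] Y := (U (-1)).restrictScalars ℝ with hW
  have hVp : ∀ (k : ℕ) (y : Y), (V ^ k) y = U k y := by
    intro k
    induction k with
    | zero => intro y; simp [hU.zero]
    | succ k ih =>
      intro y
      rw [pow_succ]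
      show (V ^ k) (U 1 y) = _
      rw [ih, ← hU.add]
      push_cast; rfl
  have hWp : ∀ (k : ℕ) (y : Y), (W ^ k) y = U (-k) y := by
    intro k
    induction k with
    | zero => intro y; simp [hU.zero]
    | succ k ih =>
      intro y
      rw [pow_succ]
      show (W ^ k) (U (-1) y) = _
      rw [ih, ← hU.add]
      congr 2; push_cast; ring
  have hVW : V * W = 1 := by
    ext y
    show U 1 (U (-1) y) = y
    rw [← hU.add]; simp [hU.zero]
  have hWV : W * V = 1 := by
    ext y
    show U (-1) (U 1 y) = y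
    rw [← hU.add]; simp [hU.zero]
  have hK0 : 0 ≤ K := (norm_nonneg _).trans (hK 0)
  have hVn : ∀ k : ℕ, ‖V ^ k‖ ≤ K := by
    intro k
    refine ContinuousLinearMap.opNorm_le_bound _ hK0 fun y => ?_
    rw [hVp]
    exact ((U k).le_opNorm y).trans (by gcongr; exact hK _)
  have hWn : ∀ k : ℕ, ‖W ^ k‖ ≤ K := by
    intro k
    refine ContinuousLinearMap.opNorm_le_bound _ hK0 fun y => ?_
    rw [hWp]
    exact ((U (-k)).le_opNorm y).trans (by gcongr; exact hK _)
  refine ⟨K ^ 2 * (4 * C), by positivity, fun n y => ?_⟩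
  have h1 := Y_bound hVW hWV hVn hWn hC n (hs n) three_sig_le y
  have h2 : aeval V (PP (theta cc) NN n) y
      = (PP (theta cc) NN n).sum (fun s a => a • U s y) := by
    rw [Polynomial.aeval_eq_sum_range, Polynomial.sum_over_range]
    · rw [_root_.sum_apply]
      refine Finset.sum_congr rfl fun s _ => ?_
      rw [_root_.smul_apply, hVp]
    · intro s; simp
  rw [h2] at h1
  exact h1

/-- coordinate functionals -/
noncomputable def coordL (i : ℕ ⊕ ℕ) : Ren ℂ →ₗ[ℝ] ℂ where
  toFun x := x.coord i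
  map_add' x y := rfl
  map_smul' r x := by
    show (r : ℂ) * x.coord i = r • x.coord i
    rw [Complex.real_smul]

/-- coordinates of a polynomial of the model semigroup -/
theorem poly_coord (P : ℝ[X]) (x : Ren ℂ) (hx : ∀ k, x.coord (.inl k) = 0) (k : ℕ) :
    (P.sum (fun s a => a • TR (s : ℝ) x)).coord (.inl k)
      = ∑ m ∈ range (k + 1), ((dd (k - m) *
        (P.eval (Real.exp (-lam k)) - P.eval (Real.exp (-mu m))) : ℝ) : ℂ) * x.coord (.inr m) := by
  have h1 : P.sum (fun s a => a • TR (s : ℝ) x)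
      = ∑ s ∈ range (P.natDegree + 1), P.coeff s • TR (s : ℝ) x :=
    Polynomial.sum_over_range _ (fun s => by simp)
  have h2 : (P.sum (fun s a => a • TR (s : ℝ) x)).coord (.inl k)
      = ∑ s ∈ range (P.natDegree + 1), (P.coeff s : ℂ) * (TR (s : ℝ) x).coord (.inl k) := by
    rw [h1]
    show coordL (.inl k) _ = _
    rw [map_sum]
    refine Finset.sum_congr rfl fun s _ => ?_
    rw [map_smul, Complex.real_smul]
    rfl
  rw [h2]
  have h3 : ∀ s : ℕ, (TR (s : ℝ) x).coord (.inl k)
      = ∑ m ∈ range (k + 1), ((dd (k - m) *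
        (Real.exp (-lam k) ^ s - Real.exp (-mu m) ^ s) : ℝ) : ℂ) * x.coord (.inr m) := by
    intro s
    rw [TR_coord (Nat.cast_nonneg s)]
    simp only [Tf, hx, mul_zero, zero_add]
    refine Finset.sum_congr rfl fun m _ => ?_
    have e1 : Real.exp (-lam k * s) = Real.exp (-lam k) ^ s := by
      rw [← Real.exp_nat_mul]; ring_nf
    have e2 : Real.exp (-mu m * s) = Real.exp (-mu m) ^ s := by
      rw [← Real.exp_nat_mul]; ring_nf
    unfold ga
    rw [e1, e2]
    rfl
  simp_rw [h3, Finset.mul_sum]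
  rw [Finset.sum_comm]
  refine Finset.sum_congr rfl fun m _ => ?_
  rw [Polynomial.eval_eq_sum_range, Polynomial.eval_eq_sum_range, ← Finset.sum_sub_distrib]
  push_cast
  rw [Finset.mul_sum, Finset.sum_mul]
  refine Finset.sum_congr rfl fun s _ => ?_
  ring

/-- the test vector: `1` at the first `n` places of the `b` part -/
noncomputable def tv (n : ℕ) : Ren ℂ :=
  Ren.mk (Sum.elim (fun _ => 0) (fun m => if m < n then 1 else 0)) n (fun s => by
    obtain ⟨M, hM⟩ := exists_box s
    refine (Finset.sum_le_sum_of_subset_of_nonneg hM fun _ _ _ => sq_nonneg _).trans ?_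
    rw [Finset.sum_disjSum]
    have h1 : ∀ m, ‖(Sum.elim (fun _ => 0) (fun m => if m < n then 1 else 0) : ℕ ⊕ ℕ → ℂ)
        (Sum.inr m)‖ ^ 2 = if m < n then (1 : ℝ) else 0 := by
      intro m
      simp only [Sum.elim_inr]
      split_ifs <;> simp
    simp_rw [h1]
    simp only [Sum.elim_inl, norm_zero]
    rw [← Finset.sum_filter]
    have h2 : ((range M).filter (fun m => m < n)).card ≤ n := by
      calc ((range M).filter (fun m => m < n)).card ≤ (range n).card := by
            refine Finset.card_le_card fun m hm => ?_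
            rw [Finset.mem_filter] at hm
            exact Finset.mem_range.mpr hm.2
        _ = n := Finset.card_range n
    simp only [ne_eq, OfNat.ofNat_ne_zero, not_false_eq_true, zero_pow, Finset.sum_const_zero,
      zero_add, Finset.sum_const, nsmul_eq_mul, mul_one]
    exact_mod_cast h2)

theorem tv_inl (n k : ℕ) : (tv n).coord (.inl k) = 0 := rfl
theorem tv_inr {n m : ℕ} (h : m < n) : (tv n).coord (.inr m) = 1 := by
  show (if m < n then (1 : ℂ) else 0) = 1
  rw [if_pos h]

theorem tv_norm (n : ℕ) : ‖tv n‖ ≤ KK * Real.sqrt n := by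
  refine Ren.norm_le_of_sq _ (Real.sqrt_nonneg _) fun s => ?_
  rw [Real.sq_sqrt (Nat.cast_nonneg n)]
  obtain ⟨M, hM⟩ := exists_box s
  refine (Finset.sum_le_sum_of_subset_of_nonneg hM fun _ _ _ => sq_nonneg _).trans ?_
  rw [Finset.sum_disjSum]
  have h1 : ∀ m, ‖(tv n).coord (Sum.inr m)‖ ^ 2 = if m < n then (1 : ℝ) else 0 := by
    intro m
    show ‖(if m < n then (1 : ℂ) else 0)‖ ^ 2 = _
    split_ifs <;> simp
  simp_rw [h1, tv_inl]
  rw [← Finset.sum_filter]
  have h2 : ((range M).filter (fun m => m < n)).card ≤ n := by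
    calc ((range M).filter (fun m => m < n)).card ≤ (range n).card := by
          refine Finset.card_le_card fun m hm => ?_
          rw [Finset.mem_filter] at hm
          exact Finset.mem_range.mpr hm.2
      _ = n := Finset.card_range n
  simp only [norm_zero, ne_eq, OfNat.ofNat_ne_zero, not_false_eq_true, zero_pow,
    Finset.sum_const_zero, zero_add, Finset.sum_const, nsmul_eq_mul, mul_one]
  exact_mod_cast h2

/-- lower bound for the testing polynomials of the model semigroup -/
theorem poly_lower (m0 : ℕ) :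
    (m0 + 1 : ℝ) * (gap * ∑ j ∈ range (m0 + 1), dd j) ^ 2
      ≤ ‖(PP (theta cc) NN (2 * m0 + 1)).sum (fun s a => a • TR (s : ℝ) (tv (2 * m0 + 1)))‖ ^ 2 := by
  set P := PP (theta cc) NN (2 * m0 + 1) with hP
  set z := P.sum (fun s a => a • TR (s : ℝ) (tv (2 * m0 + 1))) with hz
  have h1 := Ren.sq_sum_le z ((Ico m0 (2 * m0 + 1)).map Function.Embedding.inl)
  rw [Finset.sum_map] at h1
  refine le_trans ?_ h1
  have h2 : ∀ k ∈ Ico m0 (2 * m0 + 1), (gap * ∑ j ∈ range (m0 + 1), dd j) ^ 2
      ≤ ‖z.coord (Function.Embedding.inl k)‖ ^ 2 := by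
    intro k hk
    rw [Finset.mem_Ico] at hk
    have e1 : z.coord (Function.Embedding.inl k)
        = ((∑ m ∈ range (k + 1), dd (k - m) *
          (P.eval (Real.exp (-lam k)) - P.eval (Real.exp (-mu m))) : ℝ) : ℂ) := by
      show z.coord (.inl k) = _
      rw [hz, poly_coord P _ (tv_inl _) k]
      push_cast
      refine Finset.sum_congr rfl fun m hm => ?_
      rw [Finset.mem_range] at hm
      rw [tv_inr (by omega), mul_one]
    rw [e1, Complex.norm_real, Real.norm_eq_abs]
    have e2 : gap * ∑ j ∈ range (m0 + 1), dd j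
        ≤ |∑ m ∈ range (k + 1), dd (k - m) *
          (P.eval (Real.exp (-lam k)) - P.eval (Real.exp (-mu m)))| := by
      rw [← abs_neg, ← Finset.sum_neg_distrib]
      refine le_trans ?_ (le_abs_self _)
      calc gap * ∑ j ∈ range (m0 + 1), dd j ≤ gap * ∑ j ∈ range (k + 1), dd j := by
            refine mul_le_mul_of_nonneg_left ?_ gap_pos.le
            refine Finset.sum_le_sum_of_subset_of_nonneg ?_ fun _ _ _ => dd_nonneg _
            intro j hj
            rw [Finset.mem_range] at hj ⊢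
            omega
        _ = ∑ m ∈ range (k + 1), dd (k - m) * gap := by
            rw [← Finset.sum_mul, mul_comm, ← Finset.sum_range_reflect]
            congr 1
        _ ≤ _ := by
            refine Finset.sum_le_sum fun m hm => ?_
            rw [Finset.mem_range] at hm
            have := PP_gap (n := 2 * m0 + 1) (m := m) (by omega) k
            rw [← mul_neg, neg_sub]
            exact mul_le_mul_of_nonneg_left this (dd_nonneg _)
    have e3 : 0 ≤ gap * ∑ j ∈ range (m0 + 1), dd j :=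
      mul_nonneg gap_pos.le (Finset.sum_nonneg fun _ _ => dd_nonneg _)
    gcongr
  calc (m0 + 1 : ℝ) * (gap * ∑ j ∈ range (m0 + 1), dd j) ^ 2
      = ∑ _k ∈ Ico m0 (2 * m0 + 1), (gap * ∑ j ∈ range (m0 + 1), dd j) ^ 2 := by
        rw [Finset.sum_const, Nat.card_Ico, nsmul_eq_mul]
        have : 2 * m0 + 1 - m0 = m0 + 1 := by omega
        rw [this]
        push_cast
        rfl
    _ ≤ _ := Finset.sum_le_sum h2

/-- the model semigroup has no loose dilation on a UMD space -/
theorem no_dilation {Y : Type*} [NormedAddCommGroup Y] [NormedSpace ℂ Y] [CompleteSpace Y]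
    (h : IsUMD Y) : ¬ HasLooseDilationOn (TR (𝕜 := ℂ)) Y := by
  rintro ⟨J, Q, U, hU, ⟨K, hK⟩, hT⟩
  obtain ⟨B, hB, hpoly⟩ := poly_bdd h hU hK
  set B' : ℝ := ‖Q‖ * (B * ‖J‖) with hB'
  have hB'0 : 0 ≤ B' := by positivity
  have h1 : ∀ (n : ℕ) (x : Ren ℂ),
      ‖(PP (theta cc) NN n).sum (fun s a => a • TR (s : ℝ) x)‖ ≤ B' * ‖x‖ := by
    intro n x
    set P := PP (theta cc) NN n with hP
    have e1 : P.sum (fun s a => a • TR (s : ℝ) x)
        = Q (P.sum (fun s a => a • U (s : ℝ) (J x))) := by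
      rw [Polynomial.sum_over_range _ (fun s => by simp),
        Polynomial.sum_over_range _ (fun s => by simp), map_sum]
      refine Finset.sum_congr rfl fun s _ => ?_
      rw [hT s (Nat.cast_nonneg s)]
      rw [← Complex.coe_smul, ← Complex.coe_smul, map_smul]
    rw [e1]
    calc _ ≤ ‖Q‖ * ‖P.sum (fun s a => a • U (s : ℝ) (J x))‖ := Q.le_opNorm _
      _ ≤ ‖Q‖ * (B * ‖J x‖) := by gcongr; exact hpoly n _
      _ ≤ ‖Q‖ * (B * (‖J‖ * ‖x‖)) := by gcongr; exact J.le_opNorm _
      _ = B' * ‖x‖ := by rw [hB']; ring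
  have h2 : ∀ m0 : ℕ, (gap * ∑ j ∈ range (m0 + 1), dd j) ^ 2 ≤ 2 * (B' * KK) ^ 2 := by
    intro m0
    have e1 := poly_lower m0
    have e2 := h1 (2 * m0 + 1) (tv (2 * m0 + 1))
    have e3 := tv_norm (2 * m0 + 1)
    have hKK := KK_nonneg
    have e4 : ‖(PP (theta cc) NN (2 * m0 + 1)).sum
        (fun s a => a • TR (s : ℝ) (tv (2 * m0 + 1)))‖ ^ 2
        ≤ (B' * (KK * Real.sqrt ((2 * m0 + 1 : ℕ) : ℝ))) ^ 2 := by
      have : ‖(PP (theta cc) NN (2 * m0 + 1)).sum
        (fun s a => a • TR (s : ℝ) (tv (2 * m0 + 1)))‖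
          ≤ B' * (KK * Real.sqrt ((2 * m0 + 1 : ℕ) : ℝ)) := e2.trans (by gcongr)
      gcongr
    have e5 : (B' * (KK * Real.sqrt ((2 * m0 + 1 : ℕ) : ℝ))) ^ 2
        = (B' * KK) ^ 2 * (2 * m0 + 1) := by
      rw [← mul_assoc, mul_pow _ (Real.sqrt _), Real.sq_sqrt (Nat.cast_nonneg _)]
      push_cast; ring
    rw [e5] at e4
    have e6 : (m0 + 1 : ℝ) * (gap * ∑ j ∈ range (m0 + 1), dd j) ^ 2
        ≤ (m0 + 1) * (2 * (B' * KK) ^ 2) := by
      refine (e1.trans e4).trans ?_
      have : 0 ≤ (B' * KK) ^ 2 := sq_nonneg _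
      nlinarith
    exact le_of_mul_le_mul_left e6 (by positivity)
  have h3 := dd_tendsto.const_mul_atTop gap_pos
  have h4 : ∀ m0 : ℕ, gap * ∑ j ∈ range (m0 + 1), dd j ≤ Real.sqrt (2 * (B' * KK) ^ 2) := by
    intro m0
    exact Real.le_sqrt_of_sq_le (h2 m0)
  obtain ⟨n, hn⟩ := (h3.eventually_gt_atTop (Real.sqrt (2 * (B' * KK) ^ 2))).exists
  have h5 := h4 n
  have h6 : gap * ∑ j ∈ range n, dd j ≤ gap * ∑ j ∈ range (n + 1), dd j := by
    refine mul_le_mul_of_nonneg_left ?_ gap_pos.le
    rw [Finset.sum_range_succ]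
    linarith [dd_nonneg n]
  linarith

end Pool.Agent.Helper45.Umd
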